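import Pool.Agent.Lib.MP_7c08ba_nt.DH.Stmts

/-!
The count of reduced forms with conditions modulo an integer prime to all primes `p ≥ 5`.
-/

set_option autoImplicit false

namespace BKDH

open Finset

/-- The general count: forms with a condition modulo `k`, where `k` is prime to all primes `p ≥ 5`,
whose discriminant is squarefree outside `6`. -/
theorem genCount (h1 : StUp) (h4 : StCRT) (h5 : StProd) (h6 : StEuler)
    (k c : ℕ) (hk0 : 0 < k) (hk : ∀ p : ℕ, p.Prime → 5 ≤ p → ¬ p ∣ k)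
    (S : Finset (Fin 4 → ZMod k)) (hS : S.card ≤ c) (ε : ℝ) (hε : 0 < ε) :
    ∃ X₀ : ℕ, ∀ X : ℕ, X₀ ≤ X →
      {v : Fin 4 → ℤ | Red v ∧ HD v ≤ (X : ℤ) ∧ red k v ∈ S ∧
        ∀ p : ℕ, p.Prime → 5 ≤ p → ¬ (p : ℤ) ^ 2 ∣ HD v}.Finite ∧
      ({v : Fin 4 → ℤ | Red v ∧ HD v ≤ (X : ℤ) ∧ red k v ∈ S ∧
        ∀ p : ℕ, p.Prime → 5 ≤ p → ¬ (p : ℤ) ^ 2 ∣ HD v}.ncard : ℝ) ≤
        (27 / (2 * Real.pi ^ 2) * (c : ℝ) / (k : ℝ) ^ 4 + ε) * X := by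
  have hpi : 0 < Real.pi := Real.pi_pos
  have hpi3 : 3 < Real.pi := Real.pi_gt_three
  have hkR : (0 : ℝ) < k := by exact_mod_cast hk0
  -- constants
  set κ : ℝ := Real.pi ^ 2 / 6 * ((c : ℝ) / (k : ℝ) ^ 4) with hκ
  have hκ0 : 0 ≤ κ := by positivity
  obtain ⟨e, he0, he1, he⟩ : ∃ e : ℝ, 0 < e ∧ e ≤ 1 ∧ κ * (3 * e) ≤ ε / 2 := by
    refine ⟨min 1 (ε / (6 * (κ + 1))), lt_min one_pos (by positivity), min_le_left _ _, ?_⟩
    have h : min 1 (ε / (6 * (κ + 1))) ≤ ε / (6 * (κ + 1)) := min_le_right _ _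
    have h' : κ * (3 * min 1 (ε / (6 * (κ + 1)))) ≤ κ * (3 * (ε / (6 * (κ + 1)))) := by gcongr
    refine h'.trans ?_
    have : κ * (3 * (ε / (6 * (κ + 1)))) = (κ / (κ + 1)) * (ε / 2) := by
      field_simp
      ring
    rw [this]
    have h3 : κ / (κ + 1) ≤ 1 := by
      rw [div_le_one (by positivity)]
      linarith
    nlinarith
  obtain ⟨Q, hQ⟩ := h6.2 e he0
  have hQ' := h6.1 Q
  have h5Q := h5 Q
  generalize hN : (∏ p ∈ primes5 Q, p ^ 2) = N at h5Q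
  obtain ⟨U5, hU5, hU5'⟩ := h5Q
  set P : ℝ := ∏ p ∈ primes5 Q, (1 - 1 / (p : ℝ) ^ 2) with hP
  have hmem : ∀ p ∈ primes5 Q, p.Prime ∧ 5 ≤ p := by
    intro p hp
    rw [primes5, Finset.mem_filter, Finset.mem_Icc] at hp
    exact ⟨hp.2, hp.1.1⟩
  have hN0 : 0 < N := by
    rw [← hN]
    exact Finset.prod_pos fun p hp => pow_pos (hmem p hp).1.pos 2
  have hNR : (0 : ℝ) < N := by exact_mod_cast hN0
  have hprod : ∏ p ∈ primes5 Q, ((p : ℝ) ^ 8 * (1 - 1 / (p : ℝ) ^ 2) ^ 2) = (N : ℝ) ^ 4 * P ^ 2 := by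
    have hN8 : (N : ℝ) ^ 4 = ∏ p ∈ primes5 Q, (p : ℝ) ^ 8 := by
      rw [← hN, Nat.cast_prod, ← Finset.prod_pow]
      refine Finset.prod_congr rfl fun p _ => ?_
      push_cast
      ring
    rw [hN8, hP, ← Finset.prod_pow, ← Finset.prod_mul_distrib]
  rw [hprod] at hU5
  -- coprimality
  have hc2 : Nat.Coprime k N := by
    rw [← hN]
    refine Nat.Coprime.prod_right fun p hp => ?_
    refine Nat.Coprime.pow_right 2 ?_
    obtain ⟨hpp, hp5⟩ := hmem p hp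
    rw [Nat.coprime_comm, Nat.Prime.coprime_iff_not_dvd hpp]
    exact hk p hpp hp5
  obtain ⟨U, hU, hU'⟩ := h4 k N hk0 hN0 hc2 S U5
  obtain ⟨X₀, hX₀⟩ := h1.2 (k * N) (by positivity) U (ε / 2) (by positivity)
  have hcard : (U.card : ℝ) ≤ c * ((N : ℝ) ^ 4 * P ^ 2) := by
    have a1 : (U.card : ℝ) ≤ (S.card : ℝ) * U5.card := by exact_mod_cast hU
    have a4 : (S.card : ℝ) ≤ c := by exact_mod_cast hS
    exact a1.trans (mul_le_mul a4 hU5 (by positivity) (by positivity))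
  have hPsq : P ^ 2 ≤ 81 / Real.pi ^ 4 + 3 * e := by
    have b1 : 0 < 9 / Real.pi ^ 2 := by positivity
    have b2 : 9 / Real.pi ^ 2 ≤ 1 := by
      rw [div_le_one (by positivity)]
      nlinarith
    have b3 : P ^ 2 ≤ (9 / Real.pi ^ 2 + e) ^ 2 :=
      pow_le_pow_left₀ (b1.le.trans hQ') hQ 2
    refine b3.trans ?_
    have b4 : (9 / Real.pi ^ 2 + e) ^ 2 = 81 / Real.pi ^ 4 + (2 * (9 / Real.pi ^ 2) * e + e * e) := by
      field_simp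
      ring
    rw [b4]
    nlinarith
  have hmain : Real.pi ^ 2 / 6 * (U.card : ℝ) / ((k * N : ℕ) : ℝ) ^ 4 + ε / 2 ≤
      27 / (2 * Real.pi ^ 2) * (c : ℝ) / (k : ℝ) ^ 4 + ε := by
    have d1 : Real.pi ^ 2 / 6 * (U.card : ℝ) / ((k * N : ℕ) : ℝ) ^ 4 ≤
        Real.pi ^ 2 / 6 * (c * ((N : ℝ) ^ 4 * P ^ 2)) / ((k * N : ℕ) : ℝ) ^ 4 := by
      gcongr
    have d2 : Real.pi ^ 2 / 6 * (c * ((N : ℝ) ^ 4 * P ^ 2)) / ((k * N : ℕ) : ℝ) ^ 4 =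
        κ * P ^ 2 := by
      rw [hκ]
      push_cast
      field_simp
    have d3 : κ * P ^ 2 ≤ κ * (81 / Real.pi ^ 4 + 3 * e) := by gcongr
    have d4 : κ * (81 / Real.pi ^ 4) = 27 / (2 * Real.pi ^ 2) * (c : ℝ) / (k : ℝ) ^ 4 := by
      rw [hκ]
      field_simp
      ring
    have d5 : κ * (81 / Real.pi ^ 4 + 3 * e) = κ * (81 / Real.pi ^ 4) + κ * (3 * e) := by ring
    rw [d2] at d1
    rw [d5, d4] at d3
    linarith
  refine ⟨X₀, fun X hX => ?_⟩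
  have hsub : {v : Fin 4 → ℤ | Red v ∧ HD v ≤ (X : ℤ) ∧ red k v ∈ S ∧
        ∀ p : ℕ, p.Prime → 5 ≤ p → ¬ (p : ℤ) ^ 2 ∣ HD v} ⊆
      {v : Fin 4 → ℤ | Red v ∧ HD v ≤ (X : ℤ) ∧ red (k * N) v ∈ U} := by
    rintro v ⟨hr, hX, hkS, hp⟩
    exact ⟨hr, hX, hU' v hkS
      (hU5' v fun p hp' => hp p (hmem p hp').1 (hmem p hp').2)⟩
  have hfin : {v : Fin 4 → ℤ | Red v ∧ HD v ≤ (X : ℤ) ∧ red (k * N) v ∈ U}.Finite := by
    refine (h1.1 (X : ℝ)).subset ?_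
    rintro v ⟨hr, hX, -⟩
    exact ⟨hr, by exact_mod_cast hX⟩
  refine ⟨hfin.subset hsub, ?_⟩
  have hle : ({v : Fin 4 → ℤ | Red v ∧ HD v ≤ (X : ℤ) ∧ red k v ∈ S ∧
        ∀ p : ℕ, p.Prime → 5 ≤ p → ¬ (p : ℤ) ^ 2 ∣ HD v}.ncard : ℝ) ≤
      ({v : Fin 4 → ℤ | Red v ∧ HD v ≤ (X : ℤ) ∧ red (k * N) v ∈ U}.ncard : ℝ) := by
    exact_mod_cast Set.ncard_le_ncard hsub hfin
  refine (hle.trans (hX₀ X hX)).trans ?_
  exact mul_le_mul_of_nonneg_right hmain (by positivity)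

end BKDH
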