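import Pool.Agent.Lib.MP_7c08ba_nt.DH.NF

/-!
The number of integers which satisfy a periodic condition and are squarefree outside `6`.
-/

set_option autoImplicit false

namespace BKDH

open Finset

namespace GenNF

open NF

/-- The sifted set. -/
def SS (A : ℕ → Prop) (s : Finset ℕ) (x : ℕ) : Prop := A x ∧ ∀ p ∈ s, ¬ p ^ 2 ∣ x

variable {A : ℕ → Prop} {m : ℕ}

theorem SS_period (hA : ∀ x, A (x + m) ↔ A x) (s : Finset ℕ) (x : ℕ) :
    SS A s (x + m * ∏ p ∈ s, p ^ 2) ↔ SS A s x := by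
  unfold SS
  refine and_congr ?_ (forall₂_congr fun p hp => not_congr ?_)
  · rw [add_comm, mul_comm]
    exact shift_mul hA _ x
  · exact (Nat.dvd_add_left (Dvd.dvd.mul_left (Finset.dvd_prod_of_mem (fun p => p ^ 2) hp) m))

open Classical in
theorem count_SS (hm : 0 < m) (hm5 : ∀ p : ℕ, p.Prime → 5 ≤ p → ¬ p ∣ m)
    (hA : ∀ x, A (x + m) ↔ A x) (s : Finset ℕ) (hs : ∀ p ∈ s, p.Prime ∧ 5 ≤ p) :
    ((range m).filter A).card * ∏ p ∈ s, (p ^ 2 - 1) ≤
      ((range (m * ∏ p ∈ s, p ^ 2)).filter (SS A s)).card := by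
  induction s using Finset.induction_on with
  | empty =>
    have h1 : (range m).filter (SS A ∅) = (range m).filter A := by
      ext x
      simp [SS]
    rw [Finset.prod_empty, Finset.prod_empty, mul_one, mul_one, h1]
  | insert a s ha ih =>
    have ih' := ih fun p hp => hs p (Finset.mem_insert_of_mem hp)
    obtain ⟨hap, ha5⟩ := hs a (Finset.mem_insert_self a s)
    rw [Finset.prod_insert ha, Finset.prod_insert ha]
    have hm' : 0 < m * ∏ p ∈ s, p ^ 2 := by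
      refine Nat.mul_pos hm (Finset.prod_pos fun p hp => ?_)
      have := (hs p (Finset.mem_insert_of_mem hp)).2
      positivity
    have hc : (m * ∏ p ∈ s, p ^ 2).Coprime (a ^ 2) := by
      refine Nat.Coprime.pow_right 2 (Nat.Coprime.mul_left ?_ ?_)
      · rw [Nat.coprime_comm, Nat.Prime.coprime_iff_not_dvd hap]
        exact hm5 a hap ha5
      refine Nat.Coprime.prod_left fun p hp => Nat.Coprime.pow_left 2 ?_
      rw [Nat.coprime_primes (hs p (Finset.mem_insert_of_mem hp)).1 hap]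
      rintro rfl
      exact ha hp
    have h1 := count_step hm' (SS_period hA s) hc
    have h2 : (range (m * (a ^ 2 * ∏ p ∈ s, p ^ 2))).filter (SS A (insert a s)) =
        (range (m * (∏ p ∈ s, p ^ 2) * a ^ 2)).filter fun x => SS A s x ∧ ¬ a ^ 2 ∣ x := by
      rw [show m * (a ^ 2 * ∏ p ∈ s, p ^ 2) = m * (∏ p ∈ s, p ^ 2) * a ^ 2 by ring]
      refine Finset.filter_congr fun x _ => ?_
      unfold SS
      rw [Finset.forall_mem_insert]
      tauto
    rw [h2]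
    refine le_trans ?_ h1
    calc ((range m).filter A).card * ((a ^ 2 - 1) * ∏ p ∈ s, (p ^ 2 - 1))
        = (a ^ 2 - 1) * (((range m).filter A).card * ∏ p ∈ s, (p ^ 2 - 1)) := by ring
      _ ≤ _ := Nat.mul_le_mul_left _ ih'

open Classical in
/-- The sifted set in reals. -/
theorem count_real (hm : 0 < m) (hm5 : ∀ p : ℕ, p.Prime → 5 ≤ p → ¬ p ∣ m)
    (hA : ∀ x, A (x + m) ↔ A x) (s : Finset ℕ) (hs : ∀ p ∈ s, p.Prime ∧ 5 ≤ p) :
    ((m * ∏ p ∈ s, p ^ 2 : ℕ) : ℝ) * (((range m).filter A).card / m *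
        ∏ p ∈ s, (1 - 1 / (p : ℝ) ^ 2)) ≤
      (((range (m * ∏ p ∈ s, p ^ 2)).filter (SS A s)).card : ℝ) := by
  have h1 : ((((range m).filter A).card * ∏ p ∈ s, (p ^ 2 - 1) : ℕ) : ℝ) ≤
      (((range (m * ∏ p ∈ s, p ^ 2)).filter (SS A s)).card : ℝ) := by
    exact_mod_cast count_SS hm hm5 hA s hs
  refine le_trans (le_of_eq ?_) h1
  have hmr : (m : ℝ) ≠ 0 := by
    have : m ≠ 0 := by omega
    exact_mod_cast this
  push_cast
  rw [show (m : ℝ) * (∏ p ∈ s, (p : ℝ) ^ 2) * (((range m).filter A).card / m *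
      ∏ p ∈ s, (1 - 1 / (p : ℝ) ^ 2)) =
    ((range m).filter A).card * ((∏ p ∈ s, (p : ℝ) ^ 2) * ∏ p ∈ s, (1 - 1 / (p : ℝ) ^ 2)) by
      field_simp, ← Finset.prod_mul_distrib]
  congr 1
  refine Finset.prod_congr rfl fun p hp => ?_
  have h5 := (hs p hp).2
  have hp0 : (p : ℝ) ≠ 0 := by
    have : p ≠ 0 := by omega
    exact_mod_cast this
  rw [Nat.cast_sub (Nat.one_le_pow _ _ (by omega))]
  push_cast
  field_simp

open Classical in
/-- Lower bound for the number of elements of the sifted set up to `X`. -/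
theorem count_X (hm : 0 < m) (hm5 : ∀ p : ℕ, p.Prime → 5 ≤ p → ¬ p ∣ m)
    (hA : ∀ x, A (x + m) ↔ A x) (s : Finset ℕ) (hs : ∀ p ∈ s, p.Prime ∧ 5 ≤ p) (c : ℝ)
    (hc0 : 0 ≤ c) (hc1 : c ≤ 1)
    (hc : c ≤ ((range m).filter A).card / m * ∏ p ∈ s, (1 - 1 / (p : ℝ) ^ 2)) (X : ℕ) :
    c * X - (m * ∏ p ∈ s, p ^ 2 : ℕ) ≤ (((range (X + 1)).filter (SS A s)).card : ℝ) := by
  have h1 := count_real hm hm5 hA s hs
  have h2 := count_mul (SS_period hA s) ((X + 1) / (m * ∏ p ∈ s, p ^ 2))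
  have hM0 : 0 < m * ∏ p ∈ s, p ^ 2 := by
    refine Nat.mul_pos hm (Finset.prod_pos fun p hp => ?_)
    have := (hs p hp).2
    positivity
  generalize m * ∏ p ∈ s, p ^ 2 = M at h1 h2 hM0 ⊢
  have h3 : ((range ((X + 1) / M * M)).filter (SS A s)).card ≤
      ((range (X + 1)).filter (SS A s)).card := by
    refine Finset.card_le_card (Finset.filter_subset_filter _ ?_)
    exact Finset.range_subset_range.2 (Nat.div_mul_le_self _ _)
  have h4 : (X : ℝ) - M ≤ ((X + 1) / M : ℕ) * M := by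
    have h5 := Nat.lt_div_mul_add (a := X + 1) hM0
    have h6 : ((X + 1 : ℕ) : ℝ) < (((X + 1) / M * M + M : ℕ) : ℝ) := by exact_mod_cast h5
    push_cast at h6
    linarith
  have h7 : (M : ℝ) * c ≤ (((range M).filter (SS A s)).card : ℝ) :=
    (mul_le_mul_of_nonneg_left hc (Nat.cast_nonneg _)).trans h1
  have h8 : ((((X + 1) / M : ℕ) : ℝ) * (M * c)) ≤
      (((range (X + 1)).filter (SS A s)).card : ℝ) := by
    calc ((((X + 1) / M : ℕ) : ℝ) * (M * c))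
        ≤ (((X + 1) / M : ℕ) : ℝ) * (((range M).filter (SS A s)).card : ℝ) :=
          mul_le_mul_of_nonneg_left h7 (Nat.cast_nonneg _)
      _ = ((((X + 1) / M * ((range M).filter (SS A s)).card : ℕ)) : ℝ) := by push_cast; ring
      _ = (((range ((X + 1) / M * M)).filter (SS A s)).card : ℝ) := by rw [h2]
      _ ≤ _ := by exact_mod_cast h3
  have hmr : (0 : ℝ) ≤ M := Nat.cast_nonneg _
  nlinarith [mul_le_mul_of_nonneg_right h4 hc0, mul_le_mul_of_nonneg_left hc1 hmr]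

theorem not_sf {Q x : ℕ} (hx0 : 0 < x) (hx : SS A (primes5 Q) x)
    (hf : ¬ ∀ p : ℕ, p.Prime → 5 ≤ p → ¬ p ^ 2 ∣ x) :
    ∃ n, Q < n ∧ n ≤ x ∧ n ^ 2 ∣ x := by
  push Not at hf
  obtain ⟨p, hp, hp5, hpx⟩ := hf
  refine ⟨p, ?_, ?_, hpx⟩
  · by_contra h
    refine hx.2 p ?_ hpx
    unfold primes5
    rw [Finset.mem_filter, Finset.mem_Icc]
    exact ⟨⟨hp5, not_lt.1 h⟩, hp⟩
  · have h6 := Nat.le_of_dvd hx0 hpx
    have h7 : p ≤ p ^ 2 := Nat.le_self_pow two_ne_zero p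
    omega

end GenNF

open GenNF in
open Classical in
/-- The number of integers which satisfy a periodic condition and are squarefree outside `6`. -/
theorem genNF (h : StEuler) {A : ℕ → Prop} {m : ℕ} (hm : 0 < m)
    (hm5 : ∀ p : ℕ, p.Prime → 5 ≤ p → ¬ p ∣ m) (hA : ∀ x, A (x + m) ↔ A x) (hA0 : ¬ A 0)
    (t : ℕ) (ht : t ≤ ((range m).filter A).card) (ε : ℝ) (hε : 0 < ε) :
    ∃ X₀ : ℕ, ∀ X : ℕ, X₀ ≤ X → (9 / Real.pi ^ 2 * (t : ℝ) / m - ε) * X ≤
      ({Δ : ℕ | Δ ≤ X ∧ A Δ ∧ ∀ p : ℕ, p.Prime → 5 ≤ p → ¬ p ^ 2 ∣ Δ}.ncard : ℝ) := by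
  have hπ : (0 : ℝ) < Real.pi ^ 2 := by positivity
  obtain ⟨Q, hQ⟩ := exists_nat_gt (2 / ε)
  have hQ0 : (0 : ℝ) < Q := lt_trans (by positivity) hQ
  have hQ0' : Q ≠ 0 := by
    rintro rfl
    simp at hQ0
  have hs : ∀ p ∈ primes5 Q, p.Prime ∧ 5 ≤ p := by
    intro p hp
    unfold primes5 at hp
    rw [Finset.mem_filter, Finset.mem_Icc] at hp
    exact ⟨hp.2, hp.1.1⟩
  obtain ⟨X₀, hX₀⟩ := exists_nat_gt (2 * ((m * ∏ p ∈ primes5 Q, p ^ 2 : ℕ) : ℝ) / ε)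
  refine ⟨X₀, fun X hX => ?_⟩
  have hmr : (0 : ℝ) < m := by exact_mod_cast hm
  have htm : (t : ℝ) ≤ m := by
    have h1 := ht.trans (Finset.card_filter_le _ _)
    rw [Finset.card_range] at h1
    exact_mod_cast h1
  have hpi2 : 9 / Real.pi ^ 2 ≤ 1 := by
    rw [div_le_one (by positivity)]
    nlinarith [Real.pi_gt_three]
  have hc1 : 9 / Real.pi ^ 2 * (t : ℝ) / m ≤ 1 := by
    rw [div_le_one hmr]
    have h0 : (0 : ℝ) ≤ t := Nat.cast_nonneg _
    nlinarith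
  have hc : 9 / Real.pi ^ 2 * (t : ℝ) / m ≤
      ((range m).filter A).card / m * ∏ p ∈ primes5 Q, (1 - 1 / (p : ℝ) ^ 2) := by
    have h1 := h.1 Q
    have h2 : 9 / Real.pi ^ 2 * (t : ℝ) / m = (t : ℝ) / m * (9 / Real.pi ^ 2) := by ring
    rw [h2]
    have h3 : (t : ℝ) ≤ ((range m).filter A).card := by exact_mod_cast ht
    have h4 : (0 : ℝ) < 9 / Real.pi ^ 2 := by positivity
    refine mul_le_mul ?_ h1 h4.le (by positivity)
    exact div_le_div_of_nonneg_right h3 hmr.le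
  have h1 := count_X hm hm5 hA (primes5 Q) hs (9 / Real.pi ^ 2 * (t : ℝ) / m) (by positivity)
    hc1 hc X
  generalize m * ∏ p ∈ primes5 Q, p ^ 2 = M at h1 hX₀
  -- the set
  have hfin : {Δ : ℕ | Δ ≤ X ∧ A Δ ∧ ∀ p : ℕ, p.Prime → 5 ≤ p → ¬ p ^ 2 ∣ Δ}.Finite :=
    (Set.finite_Iic X).subset fun Δ hΔ => hΔ.1
  have hsub : (range (X + 1)).filter (SS A (primes5 Q)) ⊆
      hfin.toFinset ∪ (Ioc Q X).biUnion fun n => (Ioc 0 X).filter fun x => n ^ 2 ∣ x := by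
    intro x hx
    rw [Finset.mem_filter, Finset.mem_range] at hx
    rw [Finset.mem_union]
    have hx0 : 0 < x := by
      rcases Nat.eq_zero_or_pos x with h0 | h0
      · rw [h0] at hx
        exact absurd hx.2.1 hA0
      · exact h0
    by_cases hf : ∀ p : ℕ, p.Prime → 5 ≤ p → ¬ p ^ 2 ∣ x
    · left
      rw [Set.Finite.mem_toFinset]
      exact ⟨by omega, hx.2.1, hf⟩
    · right
      obtain ⟨n, hn1, hn2, hn3⟩ := not_sf hx0 hx.2 hf
      rw [Finset.mem_biUnion]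
      refine ⟨n, Finset.mem_Ioc.2 ⟨hn1, by omega⟩, ?_⟩
      rw [Finset.mem_filter, Finset.mem_Ioc]
      exact ⟨⟨hx0, by omega⟩, hn3⟩
  have h2 : (((range (X + 1)).filter (SS A (primes5 Q))).card : ℝ) ≤
      ({Δ : ℕ | Δ ≤ X ∧ A Δ ∧ ∀ p : ℕ, p.Prime → 5 ≤ p → ¬ p ^ 2 ∣ Δ}.ncard : ℝ) +
        X * (Q : ℝ)⁻¹ := by
    have h3 := (Finset.card_le_card hsub).trans (Finset.card_union_le _ _)
    rw [← Set.ncard_eq_toFinset_card _ hfin] at h3
    have h4 : (((Ioc Q X).biUnion fun n => (Ioc 0 X).filter fun x => n ^ 2 ∣ x).card : ℝ) ≤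
        X * (Q : ℝ)⁻¹ := by
      have h5 : (((Ioc Q X).biUnion fun n => (Ioc 0 X).filter fun x => n ^ 2 ∣ x).card : ℝ) ≤
          ∑ n ∈ Ioc Q X, (((Ioc 0 X).filter fun x => n ^ 2 ∣ x).card : ℝ) := by
        exact_mod_cast Finset.card_biUnion_le
      refine h5.trans ?_
      have h6 : ∀ n ∈ Ioc Q X, (((Ioc 0 X).filter fun x => n ^ 2 ∣ x).card : ℝ) ≤
          X * ((n : ℝ) ^ 2)⁻¹ := by
        intro n _
        rw [Nat.Ioc_filter_dvd_card_eq_div]
        refine (Nat.cast_div_le).trans ?_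
        rw [div_eq_mul_inv]
        push_cast
        exact le_rfl
      refine (Finset.sum_le_sum h6).trans ?_
      rw [← Finset.mul_sum]
      refine mul_le_mul_of_nonneg_left ?_ (Nat.cast_nonneg _)
      by_cases hQX : Q ≤ X
      · refine (sum_Ioc_inv_sq_le_sub hQ0' hQX).trans ?_
        have : (0 : ℝ) ≤ (X : ℝ)⁻¹ := by positivity
        linarith
      · rw [Finset.Ioc_eq_empty (by omega), Finset.sum_empty]
        positivity
    have h7 : (((range (X + 1)).filter (SS A (primes5 Q))).card : ℝ) ≤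
        (({Δ : ℕ | Δ ≤ X ∧ A Δ ∧ ∀ p : ℕ, p.Prime → 5 ≤ p → ¬ p ^ 2 ∣ Δ}.ncard +
          ((Ioc Q X).biUnion fun n => (Ioc 0 X).filter fun x => n ^ 2 ∣ x).card : ℕ) : ℝ) := by
      exact_mod_cast h3
    push_cast at h7
    linarith
  have hXX : (X₀ : ℝ) ≤ X := by exact_mod_cast hX
  have h8 : (M : ℝ) ≤ ε / 2 * X := by
    have h9 : 2 * (M : ℝ) / ε ≤ X := hX₀.le.trans hXX
    rw [div_le_iff₀ hε] at h9
    linarith
  have h10 : (X : ℝ) * (Q : ℝ)⁻¹ ≤ ε / 2 * X := by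
    have h11 : (Q : ℝ)⁻¹ ≤ ε / 2 := by
      rw [inv_le_comm₀ hQ0 (by positivity)]
      refine le_trans (le_of_eq ?_) hQ.le
      field_simp
    have hX0 : (0 : ℝ) ≤ X := Nat.cast_nonneg _
    nlinarith
  have h12 : (9 / Real.pi ^ 2 * (t : ℝ) / m - ε) * X =
      9 / Real.pi ^ 2 * (t : ℝ) / m * X - ε / 2 * X - ε / 2 * X := by ring
  rw [h12]
  linarith

end BKDH
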