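import Pool.Agent.Lib.MP_7c08ba_nt.DH.Stmts

/-!
Local conditions at `2` and at `3`: residue classes of forms with given discriminant.
-/

set_option autoImplicit false

namespace BKDH

namespace TwoSet

/-- The test for the discriminant modulo `M`. -/
def tst (M r : ℕ) (a b c d : ℕ) : Bool :=
  (4 * (b * b + 256 - a * c) * (c * c + 256 - b * d) + 64 -
    ((b * c + 256 - a * d) * (b * c + 256 - a * d)) % 64) % M == r

/-- The residue classes modulo `k`. -/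
def S (k M r : ℕ) : Finset (ℕ × ℕ × ℕ × ℕ) :=
  (Finset.range k ×ˢ Finset.range k ×ˢ Finset.range k ×ˢ Finset.range k).filter fun x =>
    tst M r x.1 x.2.1 x.2.2.1 x.2.2.2 = true

/-- The discriminant modulo `M`. -/
def dv (M a b c d : ℕ) : ℕ :=
  (4 * (b * b + 256 - a * c) * (c * c + 256 - b * d) + 64 -
    ((b * c + 256 - a * d) * (b * c + 256 - a * d)) % 64) % M

theorem tst_eq (M r a b c d : ℕ) : tst M r a b c d = Nat.beq (dv M a b c d) r := by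
  rw [Bool.eq_iff_iff]
  simp [tst, dv]

/-- The sum of `f i`, `i < n`. -/
noncomputable def sm (f : ℕ → ℕ) (n : ℕ) : ℕ := Nat.rec 0 (fun i acc => f i + acc) n

theorem sm_eq (f : ℕ → ℕ) (n : ℕ) : sm f n = ∑ i ∈ Finset.range n, f i := by
  induction n with
  | zero => rfl
  | succ n ih =>
    rw [Finset.sum_range_succ, ← ih]
    exact Nat.add_comm _ _

attribute [irreducible] sm

/-- The sum over all quadruples. -/
noncomputable def sm4 (g : ℕ → ℕ → ℕ → ℕ → ℕ) (k : ℕ) : ℕ :=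
  sm (fun a => sm (fun b => sm (fun c => sm (fun d => g a b c d) k) k) k) k

theorem sm4_eq (g : ℕ → ℕ → ℕ → ℕ → ℕ) (k : ℕ) : sm4 g k = ∑ x ∈
    Finset.range k ×ˢ Finset.range k ×ˢ Finset.range k ×ˢ Finset.range k,
      g x.1 x.2.1 x.2.2.1 x.2.2.2 := by
  rw [Finset.sum_product, sm4, sm_eq]
  refine Finset.sum_congr rfl fun a _ => ?_
  rw [Finset.sum_product, sm_eq]
  refine Finset.sum_congr rfl fun b _ => ?_
  rw [Finset.sum_product, sm_eq]
  refine Finset.sum_congr rfl fun c _ => ?_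
  rw [sm_eq]

attribute [irreducible] sm4

/-- The number of classes, in a form that is fast to evaluate. -/
noncomputable def cn (k M r : ℕ) : ℕ :=
  sm4 (fun a b c d => cond (Nat.beq (dv M a b c d) r) 1 0) k

theorem card_S (k M r : ℕ) : (S k M r).card = cn k M r := by
  rw [S, Finset.card_filter, cn, sm4_eq]
  refine Finset.sum_congr rfl fun x _ => ?_
  rw [tst_eq]
  cases Nat.beq (dv M x.1 x.2.1 x.2.2.1 x.2.2.2) r <;> simp

attribute [irreducible] cn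

/-- The four residues `8`, `24`, `40`, `56` modulo `64` at once. -/
def pk (x : ℕ) : ℕ := cond (Nat.beq (x % 16) 8) (2 ^ (20 * (x / 16))) 0

theorem pk_eq (x : ℕ) (hx : x < 64) : pk x = cond (Nat.beq x 8) 1 0 +
    2 ^ 20 * cond (Nat.beq x 24) 1 0 + 2 ^ 40 * cond (Nat.beq x 40) 1 0 +
    2 ^ 60 * cond (Nat.beq x 56) 1 0 := by
  revert x
  decide

theorem pack : sm4 (fun a b c d => pk (dv 64 a b c d)) 16 = 1536 * (1 + 2 ^ 20 + 2 ^ 40 + 2 ^ 60) := by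
  decide +kernel

theorem sum_pack {ι : Type} (s : Finset ι) (f g0 g1 g2 g3 : ι → ℕ) (A B C : ℕ)
    (h : ∀ x ∈ s, f x = g0 x + A * g1 x + B * g2 x + C * g3 x) :
    ∑ x ∈ s, f x = ∑ x ∈ s, g0 x + A * ∑ x ∈ s, g1 x + B * ∑ x ∈ s, g2 x +
      C * ∑ x ∈ s, g3 x := by
  rw [Finset.sum_congr rfl h, Finset.sum_add_distrib, Finset.sum_add_distrib,
    Finset.sum_add_distrib, Finset.mul_sum, Finset.mul_sum, Finset.mul_sum]

theorem dv_lt (a b c d : ℕ) : dv 64 a b c d < 64 := Nat.mod_lt _ (by norm_num)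

theorem pack_eq (k : ℕ) : sm4 (fun a b c d => pk (dv 64 a b c d)) k = cn k 64 8 +
    2 ^ 20 * cn k 64 24 + 2 ^ 40 * cn k 64 40 + 2 ^ 60 * cn k 64 56 := by
  rw [cn, cn, cn, cn, sm4_eq, sm4_eq, sm4_eq, sm4_eq, sm4_eq]
  exact sum_pack _ _ _ _ _ _ _ _ _ fun x _ => pk_eq _ (dv_lt _ _ _ _)

theorem cn_le (r : ℕ) : cn 16 64 r ≤ 65536 := by
  rw [← card_S]
  refine (Finset.card_filter_le _ _).trans ?_
  simp

theorem digits4 (x y z w : ℕ) (h1 : x ≤ 65536) (h2 : y ≤ 65536) (h3 : z ≤ 65536)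
    (h : x + 2 ^ 20 * y + 2 ^ 40 * z + 2 ^ 60 * w = 1536 * (1 + 2 ^ 20 + 2 ^ 40 + 2 ^ 60)) :
    x = 1536 ∧ y = 1536 ∧ z = 1536 ∧ w = 1536 := by
  omega

theorem cards : cn 16 64 8 = 1536 ∧ cn 16 64 24 = 1536 ∧ cn 16 64 40 = 1536 ∧
    cn 16 64 56 = 1536 :=
  digits4 _ _ _ _ (cn_le 8) (cn_le 24) (cn_le 40) ((pack_eq 16).symm.trans pack)

theorem card1 : (S 2 8 3).card = 3 := by rw [card_S]; decide +kernel
theorem card2 : (S 8 32 4).card = 192 := by rw [card_S]; decide +kernel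
theorem card3 : (S 8 32 20).card = 192 := by rw [card_S]; decide +kernel
theorem card4 : (S 16 64 8).card = 1536 := by rw [card_S]; exact cards.1
theorem card5 : (S 16 64 24).card = 1536 := by rw [card_S]; exact cards.2.1
theorem card6 : (S 16 64 40).card = 1536 := by rw [card_S]; exact cards.2.2.1
theorem card7 : (S 16 64 56).card = 1536 := by rw [card_S]; exact cards.2.2.2

/-- The residue class of a quadruple. -/
def ev (k : ℕ) (x : ℕ × ℕ × ℕ × ℕ) : Fin 4 → ZMod k :=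
  ![(x.1 : ZMod k), (x.2.1 : ZMod k), (x.2.2.1 : ZMod k), (x.2.2.2 : ZMod k)]

theorem exists_rep (k : ℕ) (hk : 0 < k) (x : ℤ) :
    ∃ n : ℕ, n < k ∧ (∃ t : ℤ, x = n + k * t) ∧ ((x : ℤ) : ZMod k) = (n : ZMod k) := by
  have hk' : (0 : ℤ) < k := by exact_mod_cast hk
  have h0 := Int.emod_nonneg x hk'.ne'
  have h1 := Int.emod_lt_of_pos x hk'
  have h2 : ((x % k).toNat : ℤ) = x % k := Int.toNat_of_nonneg h0
  refine ⟨(x % k).toNat, by omega, ⟨x / k, ?_⟩, ?_⟩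
  · rw [h2]
    exact (Int.emod_add_mul_ediv x k).symm
  · have h3 : (((x % k).toNat : ℕ) : ZMod k) = ((((x % k).toNat : ℕ) : ℤ) : ZMod k) := by
      push_cast
      rfl
    rw [h3, h2]
    exact (ZMod.intCast_mod x k).symm

/-- The test in integers. -/
theorem tst_iff (M r a b c d : ℕ) (hM : M ∣ 64) (ha : a ≤ 16) (hb : b ≤ 16) (hc : c ≤ 16)
    (hd : d ≤ 16) (hr : r < M)
    (h : (M : ℤ) ∣ (4 * ((b : ℤ) * b - a * c) * (c * c - b * d) - (b * c - a * d) ^ 2) - r) :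
    tst M r a b c d = true := by
  have h1 : a * c ≤ 256 := by nlinarith
  have h2 : b * d ≤ 256 := by nlinarith
  have h3 : a * d ≤ 256 := by nlinarith
  have hM0 : 0 < M := by omega
  rw [tst, beq_iff_eq]
  obtain ⟨A, hA⟩ : ∃ A, A = b * b + 256 - a * c := ⟨_, rfl⟩
  obtain ⟨C, hC⟩ : ∃ C, C = c * c + 256 - b * d := ⟨_, rfl⟩
  obtain ⟨B, hB⟩ : ∃ B, B = b * c + 256 - a * d := ⟨_, rfl⟩
  rw [← hA, ← hC, ← hB]
  have hA' : (A : ℤ) = b * b - a * c + 256 := by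
    rw [hA, Nat.cast_sub (by nlinarith)]
    push_cast
    ring
  have hC' : (C : ℤ) = c * c - b * d + 256 := by
    rw [hC, Nat.cast_sub (by nlinarith)]
    push_cast
    ring
  have hB' : (B : ℤ) = b * c - a * d + 256 := by
    rw [hB, Nat.cast_sub (by nlinarith)]
    push_cast
    ring
  have h4 : (M : ℤ) ∣ 64 := by exact_mod_cast hM
  have h5 : ((4 * A * C + 64 - B * B % 64 : ℕ) : ℤ) = 4 * A * C + 64 - ((B : ℤ) * B) % 64 := by
    rw [Nat.cast_sub (by omega)]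
    push_cast
    rfl
  have h6 : (M : ℤ) ∣ (((4 * A * C + 64 - B * B % 64 : ℕ) : ℤ) - r) := by
    rw [h5]
    have e1 : (B : ℤ) * B % 64 = B * B - 64 * ((B : ℤ) * B / 64) := by
      have := Int.emod_add_mul_ediv ((B : ℤ) * B) 64
      linarith
    rw [e1]
    have e2 : (4 * (A : ℤ) * C + 64 - (B * B - 64 * ((B : ℤ) * B / 64)) - r) =
        ((4 * ((b : ℤ) * b - a * c) * (c * c - b * d) - (b * c - a * d) ^ 2) - r) +
        64 * (16 * ((b : ℤ) * b - a * c) + 16 * (c * c - b * d) + 4096 + 1 -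
          8 * ((b : ℤ) * c - a * d) - 1024 + (B : ℤ) * B / 64) := by
      rw [hA', hC']
      generalize ((B : ℤ) * B / 64) = q
      rw [hB']
      ring
    rw [e2]
    exact dvd_add h (h4.mul_right _)
  have h7 : (4 * A * C + 64 - B * B % 64) % M = r % M := by
    have h8 : (r : ℤ) ≡ ((4 * A * C + 64 - B * B % 64 : ℕ) : ℤ) [ZMOD M] :=
      Int.modEq_iff_dvd.mpr h6
    exact ((Int.natCast_modEq_iff).mp h8).symm
  rw [h7, Nat.mod_eq_of_lt hr]

theorem mem_gen (k M r : ℕ) (hk0 : 0 < k) (hk16 : k ≤ 16) (hM : M ∣ 64) (hr : r < M)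
    (v : Fin 4 → ℤ) (hv : HD v % M = r)
    (hcong : ∀ a b c d t₀ t₁ t₂ t₃ : ℤ, v 0 = a + k * t₀ → v 1 = b + k * t₁ → v 2 = c + k * t₂ →
      v 3 = d + k * t₃ →
      (M : ℤ) ∣ (4 * (b * b - a * c) * (c * c - b * d) - (b * c - a * d) ^ 2) - HD v) :
    red k v ∈ (S k M r).image (ev k) := by
  obtain ⟨a, ha, ⟨t₀, h0⟩, e0⟩ := exists_rep k hk0 (v 0)
  obtain ⟨b, hb, ⟨t₁, h1⟩, e1⟩ := exists_rep k hk0 (v 1)
  obtain ⟨c, hc, ⟨t₂, h2⟩, e2⟩ := exists_rep k hk0 (v 2)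
  obtain ⟨d, hd, ⟨t₃, h3⟩, e3⟩ := exists_rep k hk0 (v 3)
  refine Finset.mem_image.2 ⟨(a, b, c, d), ?_, ?_⟩
  · rw [S, Finset.mem_filter]
    refine ⟨by simp [ha, hb, hc, hd], ?_⟩
    refine tst_iff M r a b c d hM (by omega) (by omega) (by omega) (by omega) hr ?_
    have h4 := hcong a b c d t₀ t₁ t₂ t₃ h0 h1 h2 h3
    have h5 : (M : ℤ) ∣ HD v - r := by
      rw [← hv]
      exact Int.dvd_self_sub_emod
    have h6 := dvd_add h4 h5
    rw [sub_add_sub_cancel] at h6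
    exact h6
  · rw [ev]
    funext i
    fin_cases i
    · exact e0.symm
    · exact e1.symm
    · exact e2.symm
    · exact e3.symm

theorem HD_eq (v : Fin 4 → ℤ) : HD v = 4 * (v 1 * v 1 - v 0 * v 2) * (v 2 * v 2 - v 1 * v 3) -
    (v 1 * v 2 - v 0 * v 3) ^ 2 := by
  simp only [HD, HA, HB, HC]
  ring

/-- Even discriminants. -/
theorem mem_even (k M r : ℕ) (hk0 : 0 < k) (hk16 : k ≤ 16) (hM : M ∣ 64) (hr : r < M)
    (hM4 : M ∣ 4 * k) (hMk : M ∣ k * k) (hM2 : 2 ∣ M) (hr2 : 2 ∣ r) (hk2 : 2 ∣ k)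
    (v : Fin 4 → ℤ) (hv : HD v % M = r) : red k v ∈ (S k M r).image (ev k) := by
  refine mem_gen k M r hk0 hk16 hM hr v hv ?_
  intro a b c d t₀ t₁ t₂ t₃ h0 h1 h2 h3
  have hB : (2 : ℤ) ∣ b * c - a * d := by
    have h4 : (2 : ℤ) ∣ HD v := by
      have h5 : (M : ℤ) ∣ HD v - r := by
        rw [← hv]
        exact Int.dvd_self_sub_emod
      have h6 : (2 : ℤ) ∣ HD v - r := (by exact_mod_cast hM2 : (2 : ℤ) ∣ (M : ℤ)).trans h5
      have h7 : (2 : ℤ) ∣ (r : ℤ) := by exact_mod_cast hr2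
      have := dvd_add h6 h7
      simpa using this
    obtain ⟨k', hk'⟩ := hk2
    have hkk : (k : ℤ) = 2 * k' := by exact_mod_cast hk'
    have h8 : (2 : ℤ) ∣ (b * c - a * d) ^ 2 := by
      have e : (b * c - a * d) ^ 2 = -HD v + 2 * (2 * (v 1 * v 1 - v 0 * v 2) *
          (v 2 * v 2 - v 1 * v 3)) + ((b * c - a * d) ^ 2 - (v 1 * v 2 - v 0 * v 3) ^ 2) := by
        rw [HD_eq]; ring
      have e2 : (b * c - a * d) ^ 2 - (v 1 * v 2 - v 0 * v 3) ^ 2 =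
          2 * (-(k' * (b * t₂ + c * t₁ + 2 * k' * t₁ * t₂ - a * t₃ - d * t₀ -
            2 * k' * t₀ * t₃)) * (2 * (b * c - a * d) + 2 * k' * (b * t₂ + c * t₁ +
            2 * k' * t₁ * t₂ - a * t₃ - d * t₀ - 2 * k' * t₀ * t₃))) := by
        rw [h0, h1, h2, h3, hkk]; ring
      rw [e, e2]
      exact dvd_add (dvd_add (dvd_neg.mpr h4) (dvd_mul_right _ _)) (dvd_mul_right _ _)
    exact Int.prime_two.dvd_of_dvd_pow h8
  obtain ⟨B', hB'⟩ := hB
  obtain ⟨q, hq⟩ := hM4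
  obtain ⟨q', hq'⟩ := hMk
  have hqZ : 4 * (k : ℤ) = M * q := by exact_mod_cast hq
  have hqZ' : (k : ℤ) * k = M * q' := by exact_mod_cast hq'
  -- increments
  obtain ⟨α, hα⟩ : ∃ α, α = 2 * b * t₁ + k * t₁ ^ 2 - a * t₂ - c * t₀ - k * t₀ * t₂ := ⟨_, rfl⟩
  obtain ⟨β, hβ⟩ : ∃ β, β = b * t₂ + c * t₁ + k * t₁ * t₂ - a * t₃ - d * t₀ - k * t₀ * t₃ :=
    ⟨_, rfl⟩
  obtain ⟨γ, hγ⟩ : ∃ γ, γ = 2 * c * t₂ + k * t₂ ^ 2 - b * t₃ - d * t₁ - k * t₁ * t₃ := ⟨_, rfl⟩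
  have eA : v 1 * v 1 - v 0 * v 2 = (b * b - a * c) + k * α := by rw [h0, h1, h2, hα]; ring
  have eB : v 1 * v 2 - v 0 * v 3 = (b * c - a * d) + k * β := by rw [h0, h1, h2, h3, hβ]; ring
  have eC : v 2 * v 2 - v 1 * v 3 = (c * c - b * d) + k * γ := by rw [h1, h2, h3, hγ]; ring
  rw [HD_eq, eA, eB, eC]
  generalize b * b - a * c = A
  generalize c * c - b * d = C
  rw [hB']
  refine ⟨-(q * (α * C + γ * A + k * α * γ)) + q * B' * β + q' * β ^ 2, ?_⟩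
  linear_combination (-(α * C + γ * A + k * α * γ) + B' * β) * hqZ + β ^ 2 * hqZ'

/-- The unramified class. -/
theorem mem_odd (v : Fin 4 → ℤ) (hv : HD v % ((8 : ℕ) : ℤ) = ((3 : ℕ) : ℤ)) :
    red 2 v ∈ (S 2 8 3).image (ev 2) := by
  refine mem_gen 2 8 3 (by norm_num) (by norm_num) (by norm_num) (by norm_num) v hv ?_
  intro a b c d t₀ t₁ t₂ t₃ h0 h1 h2 h3
  obtain ⟨α, hα⟩ : ∃ α, α = 2 * b * t₁ + 2 * t₁ ^ 2 - a * t₂ - c * t₀ - 2 * t₀ * t₂ := ⟨_, rfl⟩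
  obtain ⟨β, hβ⟩ : ∃ β, β = b * t₂ + c * t₁ + 2 * t₁ * t₂ - a * t₃ - d * t₀ - 2 * t₀ * t₃ :=
    ⟨_, rfl⟩
  obtain ⟨γ, hγ⟩ : ∃ γ, γ = 2 * c * t₂ + 2 * t₂ ^ 2 - b * t₃ - d * t₁ - 2 * t₁ * t₃ := ⟨_, rfl⟩
  have eA : v 1 * v 1 - v 0 * v 2 = (b * b - a * c) + 2 * α := by
    rw [h0, h1, h2, hα]; push_cast; ring
  have eB : v 1 * v 2 - v 0 * v 3 = (b * c - a * d) + 2 * β := by
    rw [h0, h1, h2, h3, hβ]; push_cast; ring
  have eC : v 2 * v 2 - v 1 * v 3 = (c * c - b * d) + 2 * γ := by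
    rw [h1, h2, h3, hγ]; push_cast; ring
  rw [HD_eq, eA, eB, eC] at hv ⊢
  generalize b * b - a * c = A at hv ⊢
  generalize c * c - b * d = C at hv ⊢
  generalize b * c - a * d = B at hv ⊢
  have hBo : B % 2 = 1 := by
    by_contra hcon
    obtain ⟨B', rfl⟩ : ∃ B', B = 2 * B' := ⟨B / 2, by omega⟩
    have e : 4 * (A + 2 * α) * (C + 2 * γ) - (2 * B' + 2 * β) ^ 2 =
      4 * ((A + 2 * α) * (C + 2 * γ) - (B' + β) ^ 2) := by ring
    rw [e] at hv
    omega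
  obtain ⟨B', rfl⟩ : ∃ B', B = 2 * B' + 1 := ⟨B / 2, by omega⟩
  have e : 4 * A * C - (2 * B' + 1) ^ 2 -
      (4 * (A + 2 * α) * (C + 2 * γ) - (2 * B' + 1 + 2 * β) ^ 2) =
      8 * (-(α * C) - γ * A - 2 * α * γ) + 4 * (β * (β + 1)) + 8 * (β * B') := by ring
  rw [e]
  have h5 : (2 : ℤ) ∣ β * (β + 1) := Int.even_mul_succ_self β |>.two_dvd
  obtain ⟨z, hz⟩ := h5
  rw [hz]
  refine ⟨(-(α * C) - γ * A - 2 * α * γ) + z + β * B', ?_⟩
  push_cast
  ring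

end TwoSet

open TwoSet in
/-- The local condition at `2`. -/
theorem twoSet (M r : ℕ) (h : (M = 8 ∧ r = 3) ∨ (M = 32 ∧ (r = 4 ∨ r = 20)) ∨
    (M = 64 ∧ (r = 8 ∨ r = 24 ∨ r = 40 ∨ r = 56))) :
    ∃ k : ℕ, (k = 2 ∨ k = 8 ∨ k = 16) ∧ ∃ T : Finset (Fin 4 → ZMod k),
      2 * M * T.card ≤ 3 * k ^ 4 ∧ ∀ v : Fin 4 → ℤ, HD v % M = r → red k v ∈ T := by
  rcases h with ⟨rfl, rfl⟩ | ⟨rfl, h⟩ | ⟨rfl, h⟩
  · refine ⟨2, by norm_num, _, ?_, mem_odd⟩
    have := Finset.card_image_le (s := S 2 8 3) (f := ev 2)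
    rw [card1] at this
    omega
  · have hc : (S 8 32 r).card = 192 := by
      rcases h with rfl | rfl
      · exact card2
      · exact card3
    refine ⟨8, by norm_num, (S 8 32 r).image (ev 8), ?_, fun v hv =>
      mem_even 8 32 r (by norm_num) (by norm_num) (by norm_num) (by omega) (by norm_num)
        (by norm_num) (by norm_num) (by omega) (by norm_num) v hv⟩
    have := Finset.card_image_le (s := S 8 32 r) (f := ev 8)
    rw [hc] at this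
    omega
  · have hc : (S 16 64 r).card = 1536 := by
      rcases h with rfl | rfl | rfl | rfl
      · exact card4
      · exact card5
      · exact card6
      · exact card7
    refine ⟨16, by norm_num, (S 16 64 r).image (ev 16), ?_, fun v hv =>
      mem_even 16 64 r (by norm_num) (by norm_num) (by norm_num) (by omega) (by norm_num)
        (by norm_num) (by norm_num) (by omega) (by norm_num) v hv⟩
    have := Finset.card_image_le (s := S 16 64 r) (f := ev 16)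
    rw [hc] at this
    omega

/-- The condition at `3`. -/
theorem threeSet : ∃ T : Finset (Fin 4 → ZMod 3), T.card ≤ 24 ∧
    ∀ v : Fin 4 → ℤ, HD v % 3 = 1 → red 3 v ∈ T := by
  refine ⟨(Finset.univ : Finset (Fin 4 → ZMod 3)).filter fun w => HD w = 1, ?_, ?_⟩
  · decide +kernel
  · intro v hv
    rw [Finset.mem_filter]
    refine ⟨Finset.mem_univ _, ?_⟩
    have h1 : HD (red 3 v) = ((HD v : ℤ) : ZMod 3) := by
      simp [HD, HA, HB, HC, red]
    rw [h1]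
    have h2 : ((HD v : ℤ) : ZMod 3) = ((1 : ℤ) : ZMod 3) :=
      (ZMod.intCast_eq_intCast_iff _ _ 3).2 (by
        change HD v % 3 = 1 % 3
        rw [hv]
        norm_num)
    rw [h2]
    norm_num

end BKDH
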