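import Pool.Agent.Lib.MP_7c5fb9_nt.DH.Quad
import Pool.Agent.Lib.MP_7c08ba_nt.DH.Lam

/-!
From an ideal class of order three of an imaginary quadratic field to a binary cubic form.
-/

set_option autoImplicit false

namespace BKDH

open NumberField

namespace LamG

open LamW

theorem lamG {F : Type} [Field F] [NumberField F] {σ : F →+* F} {w : F} (hw : w * σ w = 1)
    (m : ℤ) (a : 𝓞 F) (B Pc : Ideal (𝓞 F)) (c : ℕ) (hc0 : c ≠ 0) (hm0 : m ≠ 0)
    (haF : (a : F) = m ^ 3 * w) (hB : B ^ 3 = Ideal.span {(c : 𝓞 F) * a} * Pc)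
    (hPc : Pc * Ideal.map (cj σ) Pc = Ideal.span {(c : 𝓞 F)}) :
    ∃ Λ : Submodule ℤ F, Λ.FG ∧ (∀ r : F, IsIntegral ℤ r → ∀ x ∈ Λ, r * x ∈ Λ) ∧
        (∀ x ∈ Λ, ∀ y ∈ Λ, ∀ z ∈ Λ, IsIntegral ℤ (x * y * z / ((c : F) * w))) ∧
        (∀ x ∈ Λ, ∀ y ∈ Λ, IsIntegral ℤ (x * σ y / (c : F))) ∧
        (c : F) ∈ Submodule.span ℤ {z : F | ∃ x ∈ Λ, ∃ y ∈ Λ, z = x * σ y} := by
  have hw0 : w ≠ 0 := by
    rintro rfl
    simp at hw
  have hmF : (m : F) ≠ 0 := by exact_mod_cast hm0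
  have hcF : (c : F) ≠ 0 := by exact_mod_cast hc0
  -- the product of the ideal and its conjugate
  have hN : B * Ideal.map (cj σ) B = Ideal.span {(c : 𝓞 F) * (m : 𝓞 F) ^ 2} := by
    have h1 : a * cj σ a = (m : 𝓞 F) ^ 6 := by
      apply RingOfIntegers.ext
      have e1 : ((a * cj σ a : 𝓞 F) : F) = (a : F) * σ (a : F) := rfl
      have e2 : (((m : 𝓞 F) ^ 6 : 𝓞 F) : F) = (((m : 𝓞 F)) : F) ^ 6 := rfl
      rw [e1, e2, coe_int, haF, map_mul, map_pow, map_intCast]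
      linear_combination (m : F) ^ 6 * hw
    have h2 : (B * Ideal.map (cj σ) B) ^ 3 = (Ideal.span {(c : 𝓞 F) * (m : 𝓞 F) ^ 2}) ^ 3 := by
      have e3 : cj σ ((c : 𝓞 F) * a) = (c : 𝓞 F) * cj σ a := by
        rw [map_mul, map_natCast]
      rw [mul_pow, ← Ideal.map_pow, hB, Ideal.map_mul, Ideal.map_span, Set.image_singleton, e3,
        mul_mul_mul_comm, hPc, Ideal.span_singleton_mul_span_singleton,
        Ideal.span_singleton_mul_span_singleton, Ideal.span_singleton_pow]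
      congr 2
      linear_combination (c : 𝓞 F) ^ 3 * h1
    exact pow_left_injective (by norm_num : (3 : ℕ) ≠ 0) h2
  let φ : 𝓞 F →ₗ[ℤ] F := (LinearMap.mulLeft ℤ ((m : F)⁻¹)).comp
    ((algebraMap (𝓞 F) F).toIntAlgHom.toLinearMap)
  have hφ : ∀ b : 𝓞 F, φ b = (m : F)⁻¹ * (b : F) := fun b => rfl
  let Λ : Submodule ℤ F := (B.restrictScalars ℤ).map φ
  have hΛ : ∀ x : F, x ∈ Λ ↔ ∃ b ∈ B, (m : F)⁻¹ * (b : F) = x := by
    intro x
    rw [Submodule.mem_map]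
    rfl
  refine ⟨Λ, ?_, ?_, ?_, ?_, ?_⟩
  · have h1 : (B.restrictScalars ℤ).FG := IsNoetherian.noetherian _
    exact h1.map φ
  · intro r hr x hx
    rw [hΛ] at hx ⊢
    obtain ⟨b, hb, rfl⟩ := hx
    obtain ⟨r₀, hr₀⟩ : ∃ r₀ : 𝓞 F, (r₀ : F) = r := ⟨⟨r, hr⟩, rfl⟩
    refine ⟨r₀ * b, Ideal.mul_mem_left _ _ hb, ?_⟩
    have e1 : (((r₀ * b : 𝓞 F)) : F) = (r₀ : F) * (b : F) := rfl
    rw [e1, hr₀]
    ring
  · intro x hx y hy z hz
    rw [hΛ] at hx hy hz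
    obtain ⟨b₁, hb₁, rfl⟩ := hx
    obtain ⟨b₂, hb₂, rfl⟩ := hy
    obtain ⟨b₃, hb₃, rfl⟩ := hz
    have h1 : b₁ * b₂ * b₃ ∈ B ^ 3 := by
      rw [pow_succ, pow_two]
      exact Ideal.mul_mem_mul (Ideal.mul_mem_mul hb₁ hb₂) hb₃
    rw [hB] at h1
    have h2 := Ideal.mul_le_left h1
    rw [Ideal.mem_span_singleton] at h2
    obtain ⟨t, ht⟩ := h2
    have h3 : (b₁ : F) * b₂ * b₃ = c * (m ^ 3 * w) * (t : F) := by
      have e1 := congrArg (fun x : 𝓞 F => (x : F)) ht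
      have e2 : (((b₁ * b₂ * b₃ : 𝓞 F)) : F) = (b₁ : F) * b₂ * b₃ := rfl
      have e3 : ((((c : 𝓞 F) * a * t : 𝓞 F)) : F) = (((c : 𝓞 F)) : F) * (a : F) * (t : F) := rfl
      have e4 : (((c : 𝓞 F)) : F) = c := map_natCast (algebraMap (𝓞 F) F) c
      simp only [e2, e3, e4, haF] at e1
      exact e1
    have h4 : (m : F)⁻¹ * (b₁ : F) * ((m : F)⁻¹ * (b₂ : F)) * ((m : F)⁻¹ * (b₃ : F)) /
        ((c : F) * w) = (t : F) := by
      rw [div_eq_iff (mul_ne_zero hcF hw0)]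
      field_simp
      linear_combination h3
    rw [h4]
    exact t.isIntegral_coe
  · intro x hx y hy
    rw [hΛ] at hx hy
    obtain ⟨b₁, hb₁, rfl⟩ := hx
    obtain ⟨b₂, hb₂, rfl⟩ := hy
    have h1 : b₁ * cj σ b₂ ∈ B * Ideal.map (cj σ) B :=
      Ideal.mul_mem_mul hb₁ (Ideal.mem_map_of_mem _ hb₂)
    rw [hN, Ideal.mem_span_singleton] at h1
    obtain ⟨t, ht⟩ := h1
    have h3 : (b₁ : F) * σ (b₂ : F) = c * m ^ 2 * (t : F) := by
      have e1 := congrArg (fun x : 𝓞 F => (x : F)) ht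
      have e2 : (((b₁ * cj σ b₂ : 𝓞 F)) : F) = (b₁ : F) * σ (b₂ : F) := rfl
      have e3 : ((((c : 𝓞 F) * (m : 𝓞 F) ^ 2 * t : 𝓞 F)) : F) =
        (((c : 𝓞 F)) : F) * ((((m : 𝓞 F)) : F) ^ 2) * (t : F) := rfl
      have e4 : (((c : 𝓞 F)) : F) = c := map_natCast (algebraMap (𝓞 F) F) c
      simp only [e2, e3, e4, coe_int] at e1
      exact e1
    have h4 : (m : F)⁻¹ * (b₁ : F) * σ ((m : F)⁻¹ * (b₂ : F)) / (c : F) = (t : F) := by
      rw [div_eq_iff hcF, map_mul, map_inv₀, map_intCast]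
      field_simp
      linear_combination h3
    rw [h4]
    exact t.isIntegral_coe
  · set S : Set F := {z : F | ∃ x ∈ Λ, ∃ y ∈ Λ, z = x * σ y} with hS
    have key : ∀ t ∈ B * Ideal.map (cj σ) B, (t : F) / m ^ 2 ∈ Submodule.span ℤ S := by
      intro t ht
      rw [Ideal.map] at ht
      refine Submodule.mul_induction_on ht ?_ ?_
      · intro b hb t' ht'
        have : ∀ b ∈ B, ((b * t' : 𝓞 F) : F) / m ^ 2 ∈ Submodule.span ℤ S := by
          refine Submodule.span_induction (p := fun t' _ => ∀ b ∈ B,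
            ((b * t' : 𝓞 F) : F) / m ^ 2 ∈ Submodule.span ℤ S) ?_ ?_ ?_ ?_ ht'
          · rintro _ ⟨b', hb', rfl⟩ b hb
            apply Submodule.subset_span
            refine ⟨(m : F)⁻¹ * (b : F), (hΛ _).2 ⟨b, hb, rfl⟩, (m : F)⁻¹ * (b' : F),
              (hΛ _).2 ⟨b', hb', rfl⟩, ?_⟩
            have e2 : (((b * cj σ b' : 𝓞 F)) : F) = (b : F) * σ (b' : F) := rfl
            rw [e2, map_mul, map_inv₀, map_intCast]
            field_simp
          · intro b _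
            have e2 : (((b * 0 : 𝓞 F)) : F) = 0 := by rw [mul_zero]; rfl
            rw [e2, zero_div]
            exact Submodule.zero_mem _
          · intro x y _ _ hx hy b hb
            have e2 : (((b * (x + y) : 𝓞 F)) : F) = ((b * x : 𝓞 F) : F) + ((b * y : 𝓞 F) : F) := by
              rw [mul_add]; rfl
            rw [e2, add_div]
            exact Submodule.add_mem _ (hx b hb) (hy b hb)
          · intro r x _ hx b hb
            have e2 : b * (r • x) = (r * b) * x := by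
              rw [smul_eq_mul]; ring
            rw [e2]
            exact hx _ (Ideal.mul_mem_left _ _ hb)
        exact this b hb
      · intro x y hx hy
        have e2 : (((x + y : 𝓞 F)) : F) = (x : F) + (y : F) := rfl
        rw [e2, add_div]
        exact Submodule.add_mem _ hx hy
    have h1 := key ((c : 𝓞 F) * (m : 𝓞 F) ^ 2) (by
      rw [hN]
      exact Ideal.mem_span_singleton_self _)
    have e3 : ((((c : 𝓞 F) * (m : 𝓞 F) ^ 2 : 𝓞 F)) : F) =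
        (((c : 𝓞 F)) : F) * ((((m : 𝓞 F)) : F) ^ 2) := rfl
    have e4 : (((c : 𝓞 F)) : F) = c := map_natCast (algebraMap (𝓞 F) F) c
    rw [e3, e4, coe_int, mul_div_assoc, div_self (pow_ne_zero _ hmF), mul_one] at h1
    exact h1


/-- A rational integer which generates the cube of an ideal of a quadratic field. -/
theorem int_cube {F : Type} [Field F] [NumberField F] (hdeg : Module.finrank ℚ F = 2) {m : ℤ}
    (hm : m ≠ 0) {C : Ideal (𝓞 F)} (h : C ^ 3 = Ideal.span {(m : 𝓞 F)}) :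
    ∃ k : ℕ, m.natAbs = k ^ 3 := by
  have h1 : Ideal.absNorm (Ideal.span {(m : 𝓞 F)}) = m.natAbs ^ 2 := by
    rw [Ideal.absNorm_span_singleton]
    have : ((m : ℤ) : 𝓞 F) = algebraMap ℤ (𝓞 F) m := rfl
    rw [this, Algebra.norm_algebraMap, RingOfIntegers.rank, hdeg, Int.natAbs_pow]
  have h2 : Ideal.absNorm C ^ 3 = m.natAbs ^ 2 := by rw [← h1, ← h, map_pow]
  have hm' : m.natAbs ≠ 0 := Int.natAbs_ne_zero.mpr hm
  have h3 : (Ideal.absNorm C) ∣ m.natAbs := by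
    have : (Ideal.absNorm C) ^ 2 ∣ m.natAbs ^ 2 := by
      rw [← h2]
      exact pow_dvd_pow _ (by norm_num)
    exact (Nat.pow_dvd_pow_iff (by norm_num)).mp this
  obtain ⟨k, hk⟩ := h3
  refine ⟨k, ?_⟩
  have hN : Ideal.absNorm C ≠ 0 := by
    intro h0
    rw [h0, zero_mul] at hk
    exact hm' hk
  have h4 : Ideal.absNorm C ^ 2 * Ideal.absNorm C = Ideal.absNorm C ^ 2 * k ^ 2 := by
    calc Ideal.absNorm C ^ 2 * Ideal.absNorm C = Ideal.absNorm C ^ 3 := by ring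
      _ = m.natAbs ^ 2 := h2
      _ = Ideal.absNorm C ^ 2 * k ^ 2 := by rw [hk]; ring
  have h5 := Nat.eq_of_mul_eq_mul_left (pow_pos (Nat.pos_of_ne_zero hN) 2) h4
  rw [hk, h5]
  ring

end LamG

open LamG LamW in
/-- From an ideal class of order three to a form. -/
theorem form_of_class {F : Type} [Field F] [NumberField F] {Δ : ℕ} {s : F} {σ : F →+* F}
    (hQ : QG F Δ s σ) (h3 : 3 ∣ Nat.card (ClassGroup (𝓞 F))) :
    ∃ v : Fin 4 → ℤ, Red v ∧ v 3 ≠ 0 ∧ HD v = Δ := by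
  classical
  obtain ⟨h1, h2, hint, hfix, ⟨ω, hω, hωs⟩, hs, hs0, hpos⟩ := coordG hQ
  have : Fact (Nat.Prime 3) := ⟨Nat.prime_three⟩
  obtain ⟨cl, hcl⟩ := exists_prime_orderOf_dvd_card' 3 h3
  obtain ⟨⟨I, hI⟩, rfl⟩ := ClassGroup.mk0_surjective cl
  have hI0 : I ≠ ⊥ := nonZeroDivisors.ne_zero hI
  have hne : ClassGroup.mk0 ⟨I, hI⟩ ≠ 1 := by
    intro h
    rw [h, orderOf_one] at hcl
    norm_num at hcl
  have hcube : ClassGroup.mk0 ⟨I, hI⟩ ^ 3 = 1 := by rw [← hcl]; exact pow_orderOf_eq_one _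
  have hprin : ∀ n : ℕ, ∀ δ : 𝓞 F, I ^ n = Ideal.span {δ} → ClassGroup.mk0 ⟨I, hI⟩ ^ n = 1 := by
    intro n δ hδ
    rw [← map_pow, ClassGroup.mk0_eq_one_iff]
    have : (((⟨I, hI⟩ : nonZeroDivisors (Ideal (𝓞 F))) ^ n : nonZeroDivisors (Ideal (𝓞 F))) :
      Ideal (𝓞 F)) = I ^ n := rfl
    rw [this, hδ]
    exact ⟨⟨δ, rfl⟩⟩
  obtain ⟨β, hβ⟩ : ∃ β : 𝓞 F, I ^ 3 = Ideal.span {β} := by
    rw [← map_pow, ClassGroup.mk0_eq_one_iff] at hcube
    have : (((⟨I, hI⟩ : nonZeroDivisors (Ideal (𝓞 F))) ^ 3 : nonZeroDivisors (Ideal (𝓞 F))) :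
      Ideal (𝓞 F)) = I ^ 3 := rfl
    rw [this] at hcube
    obtain ⟨β, hβ⟩ := hcube.principal
    exact ⟨β, hβ⟩
  have hβ0 : (β : F) ≠ 0 := by
    intro h0
    have : β = 0 := by
      apply RingOfIntegers.ext
      simpa using h0
    rw [this] at hβ
    have h4 : I ^ 3 = ⊥ := by rw [hβ]; simp
    exact hI0 (pow_eq_zero_iff (by norm_num) |>.mp h4)
  have hσβ0 : σ (β : F) ≠ 0 := (map_ne_zero σ).mpr hβ0
  -- the norm
  obtain ⟨m, hm⟩ : ∃ m : ℤ, (β : F) * σ (β : F) = m := by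
    refine hfix _ ?_ ?_
    · exact β.isIntegral_coe.mul (β.isIntegral_coe.map (σ.toIntAlgHom))
    · rw [map_mul, h2]
      ring
  have hm0 : m ≠ 0 := by
    rintro rfl
    rw [Int.cast_zero] at hm
    exact mul_ne_zero hβ0 hσβ0 hm
  have hmF : (m : F) ≠ 0 := by exact_mod_cast hm0
  have hmO : β * cj σ β = (m : 𝓞 F) := by
    apply RingOfIntegers.ext
    have e1 : ((β * cj σ β : 𝓞 F) : F) = (β : F) * σ (β : F) := rfl
    rw [e1, coe_int, hm]
  set w : F := (β : F) / σ (β : F) with hwdef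
  have hw : w * σ w = 1 := by
    rw [hwdef, map_div₀, h2]
    field_simp
  set C : Ideal (𝓞 F) := I * Ideal.map (cj σ) I with hC
  have hC3 : C ^ 3 = Ideal.span {(m : 𝓞 F)} := by
    rw [hC, mul_pow, ← Ideal.map_pow, hβ, Ideal.map_span, Set.image_singleton,
      Ideal.span_singleton_mul_span_singleton, hmO]
  have hnc : ¬ ∃ b : F, b ^ 3 = w := by
    rintro ⟨b, hb⟩
    obtain ⟨k, hk⟩ := int_cube hQ.deg hm0 hC3
    obtain ⟨m', hm'⟩ : ∃ m' : ℤ, m' ^ 3 = m := by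
      rcases Int.natAbs_eq m with h | h
      · exact ⟨k, by rw [h, hk]; push_cast; ring⟩
      · exact ⟨-k, by rw [h, hk]; push_cast; ring⟩
    have e1 : (b * m') ^ 3 = (β : F) ^ 2 := by
      have : (m' : F) ^ 3 = m := by exact_mod_cast hm'
      rw [mul_pow, hb, this, ← hm, hwdef]
      field_simp
    have e2 : IsIntegral ℤ (b * m') := by
      refine IsIntegral.of_pow (n := 3) (by norm_num) ?_
      rw [e1]
      exact β.isIntegral_coe.pow 2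
    obtain ⟨δ, hδ⟩ : ∃ δ : 𝓞 F, (δ : F) = b * m' := ⟨⟨b * m', e2⟩, rfl⟩
    have e3 : δ ^ 3 = β ^ 2 := by
      apply RingOfIntegers.ext
      have a1 : ((δ ^ 3 : 𝓞 F) : F) = (δ : F) ^ 3 := rfl
      have a2 : ((β ^ 2 : 𝓞 F) : F) = (β : F) ^ 2 := rfl
      rw [a1, a2, hδ, e1]
    have e4 : I ^ 2 = Ideal.span {δ} := by
      have : (I ^ 2) ^ 3 = (Ideal.span {δ}) ^ 3 := by
        rw [Ideal.span_singleton_pow, e3, ← Ideal.span_singleton_pow, ← hβ, ← pow_mul, ← pow_mul]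
      exact pow_left_injective (by norm_num : (3 : ℕ) ≠ 0) this
    have e5 := hprin 2 δ e4
    apply hne
    calc ClassGroup.mk0 ⟨I, hI⟩ = ClassGroup.mk0 ⟨I, hI⟩ ^ 3 * (ClassGroup.mk0 ⟨I, hI⟩ ^ 2)⁻¹ := by
          rw [pow_succ, mul_comm, ← mul_assoc, inv_mul_cancel, one_mul]
      _ = 1 := by rw [hcube, e5, inv_one, mul_one]
  -- the lattice
  obtain ⟨Λ, -, hΛ1, hΛ2, hΛ3, hΛ4⟩ := lamG hw m ((m : 𝓞 F) ^ 2 * β ^ 2) (C ^ 2 * I ^ 2) ⊤ 1
    one_ne_zero hm0 (by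
      have a1 : (((m : 𝓞 F) ^ 2 * β ^ 2 : 𝓞 F) : F) = (((m : 𝓞 F)) : F) ^ 2 * (β : F) ^ 2 := rfl
      rw [a1, coe_int, hwdef, ← hm]
      field_simp) (by
      rw [mul_pow, ← pow_mul, ← pow_mul, mul_comm 2 3, pow_mul C, pow_mul I, hC3, hβ,
        Ideal.span_singleton_pow, Ideal.span_singleton_pow,
        Ideal.span_singleton_mul_span_singleton, Nat.cast_one, one_mul, Ideal.mul_top]) (by
      rw [Ideal.map_top, Ideal.top_mul, Nat.cast_one, Ideal.span_singleton_one])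
  obtain ⟨α, hα, γ, hγ, hα0, hγ0, hd, A, B, D, hA, hB, hD, hA0, hBA, hAD⟩ :=
    basisG hQ 1 one_pos Λ hΛ1 hΛ3 hΛ4
  obtain ⟨v, hv1, hv2, hv3, -⟩ := formG hQ w 1 α γ A B D one_ne_zero hw hnc hd hA hB hD hA0
    hBA hAD (by
      have := hΛ2 α hα α hα α hα
      rwa [show α * α * α = α ^ 3 by ring] at this) (by
      have := hΛ2 α hα α hα γ hγ
      rwa [show α * α * γ = α ^ 2 * γ by ring] at this) (by
      have := hΛ2 α hα γ hγ γ hγ
      rwa [show α * γ * γ = α * γ ^ 2 by ring] at this) (by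
      have := hΛ2 γ hγ γ hγ γ hγ
      rwa [show γ * γ * γ = γ ^ 3 by ring] at this)
  exact ⟨v, hv1, hv2, by rw [hv3]; simp⟩

end BKDH
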