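import Pool.Agent.Lib.MP_7c08ba_nt.DH.Final
import Pool.Agent.Lib.MP_7c5fb9_nt.DH.GenCount
import Pool.Agent.Lib.MP_7c5fb9_nt.DH.GenNF
import Pool.Agent.Lib.MP_7c5fb9_nt.DH.Class
import Pool.Agent.Lib.MP_7c5fb9_nt.DH.TwoSet

/-!
At least half of the imaginary quadratic fields in which `3` is inert, with a given completion at
`2` which is not split, have class number prime to `3`.
-/

set_option autoImplicit false

namespace BKDH

open NumberField Polynomial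
open scoped IntermediateField

/-- All the fields `ℚ(√-Δ)` have class number prime to `3`. -/
def NoThree (Δ : ℕ) : Prop :=
  ∀ (F : Type) [Field F] [NumberField F] (s : F), s ^ 2 = -(Δ : F) → Module.finrank ℚ F = 2 →
    ¬ 3 ∣ Nat.card (ClassGroup (𝓞 F))

/-- The seven classes of `Δ` for which `ℚ_2(√-Δ)` is a field. -/
def TwoClass (M r : ℕ) : Prop :=
  (M = 8 ∧ r = 3) ∨ (M = 32 ∧ (r = 4 ∨ r = 20)) ∨ (M = 64 ∧ (r = 8 ∨ r = 24 ∨ r = 40 ∨ r = 56))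

theorem exists_conj {F : Type} [Field F] [NumberField F] {Δ : ℕ} {s : F} (hf : IsFund Δ)
    (hs : s ^ 2 = -(Δ : F)) (hd : Module.finrank ℚ F = 2) : ∃ σ : F →+* F, QG F Δ s σ := by
  have hΔ : 0 < Δ := by
    have h2 := hf.1
    unfold F2 at h2
    omega
  have hint : IsIntegral ℚ s := Algebra.IsIntegral.isIntegral s
  have hm : minpoly ℚ s = X ^ 2 + C (Δ : ℚ) := by
    symm
    refine minpoly.eq_of_irreducible_of_monic ?_ ?_ (QFd.monic Δ)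
    · refine Polynomial.irreducible_of_degree_le_three_of_not_isRoot ?_ ?_
      · rw [QFd.natDeg]; simp
      · intro x hx
        have : x ^ 2 + (Δ : ℚ) = 0 := by simpa [IsRoot] using hx
        have hpos : (0 : ℚ) < Δ := by exact_mod_cast hΔ
        nlinarith [sq_nonneg x]
    · simp [hs]
  have htop : ℚ⟮s⟯ = ⊤ := by
    rw [Field.primitive_element_iff_minpoly_natDegree_eq, hm, QFd.natDeg, hd]
  have htop' : Algebra.adjoin ℚ {s} = ⊤ := by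
    rw [← IntermediateField.adjoin_simple_toSubalgebra_of_isAlgebraic hint.isAlgebraic, htop,
      IntermediateField.top_toSubalgebra]
  let pb := PowerBasis.ofAdjoinEqTop hint htop'
  have hgen : pb.gen = s := rfl
  have hr : aeval (-s) (minpoly ℚ pb.gen) = 0 := by
    rw [hgen, hm]
    simp [hs]
  have h1 := pb.lift_gen (-s) hr
  rw [hgen] at h1
  exact ⟨(pb.lift (-s) hr).toRingHom, ⟨hf, hs, hd, h1⟩⟩

theorem form_of_not_noThree {Δ : ℕ} (hf : IsFund Δ) (h : ¬ NoThree Δ) :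
    ∃ v : Fin 4 → ℤ, Red v ∧ v 3 ≠ 0 ∧ HD v = Δ := by
  unfold NoThree at h
  push Not at h
  obtain ⟨F, _, _, s, hs, hd, h3⟩ := h
  obtain ⟨σ, hσ⟩ := exists_conj hf hs hd
  exact form_of_class hσ h3

theorem isFund_iff {M r : ℕ} (h : TwoClass M r) (Δ : ℕ) :
    (IsFund Δ ∧ Δ % 3 = 1 ∧ Δ % M = r) ↔
      ((Δ % 3 = 1 ∧ Δ % M = r) ∧ ∀ p : ℕ, p.Prime → 5 ≤ p → ¬ p ^ 2 ∣ Δ) := by
  constructor
  · rintro ⟨⟨-, h1⟩, h2⟩
    exact ⟨h2, fun p hp h5 => h1 p hp (by omega)⟩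
  · rintro ⟨⟨h1, h2⟩, h3⟩
    refine ⟨⟨?_, ?_⟩, h1, h2⟩
    · unfold F2
      rcases h with ⟨rfl, rfl⟩ | ⟨rfl, h⟩ | ⟨rfl, h⟩ <;> omega
    · intro p hp hp2 hd
      by_cases h5 : 5 ≤ p
      · exact h3 p hp h5 hd
      · have hp3 : p = 3 := by
          have := hp.two_le
          have h4 : p ≠ 4 := by rintro rfl; exact absurd hp (by norm_num)
          omega
        subst hp3
        have : 3 ∣ Δ := dvd_trans (by norm_num) hd
        omega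

theorem twoClass_M {M r : ℕ} (h : TwoClass M r) : M = 8 ∨ M = 32 ∨ M = 64 := by
  rcases h with ⟨rfl, -⟩ | ⟨rfl, -⟩ | ⟨rfl, -⟩ <;> simp

open Classical in
theorem count_class {M r : ℕ} (h : TwoClass M r) :
    1 ≤ ((Finset.range (3 * M)).filter fun x => x % 3 = 1 ∧ x % M = r).card := by
  rw [Nat.one_le_iff_ne_zero, Finset.card_ne_zero]
  rcases h with ⟨rfl, rfl⟩ | ⟨rfl, h⟩ | ⟨rfl, h⟩
  · exact ⟨19, by simp⟩
  · rcases h with rfl | rfl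
    · exact ⟨4, by simp⟩
    · exact ⟨52, by simp⟩
  · rcases h with rfl | rfl | rfl | rfl
    · exact ⟨136, by simp⟩
    · exact ⟨88, by simp⟩
    · exact ⟨40, by simp⟩
    · exact ⟨184, by simp⟩

/-- The number of fields. -/
theorem class_total {M r : ℕ} (h : TwoClass M r) (ε : ℝ) (hε : 0 < ε) :
    ∃ X₀ : ℕ, ∀ X : ℕ, X₀ ≤ X → (3 / (M * Real.pi ^ 2) - ε) * X ≤
      ({Δ : ℕ | Δ ≤ X ∧ IsFund Δ ∧ Δ % 3 = 1 ∧ Δ % M = r}.ncard : ℝ) := by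
  classical
  have hM := twoClass_M h
  have hM0 : 0 < M := by omega
  obtain ⟨X₀, hX₀⟩ := genNF stEuler (A := fun x => x % 3 = 1 ∧ x % M = r) (m := 3 * M)
    (by omega) (by
      intro p hp h5 hd
      have h1 : p ∣ 3 * 64 := by
        refine hd.trans (Nat.mul_dvd_mul_left 3 ?_)
        rcases hM with rfl | rfl | rfl <;> norm_num
      have h2 : p ∣ 2 ^ 6 * 3 := by simpa using h1
      rcases (Nat.Prime.dvd_mul hp).1 h2 with h3 | h3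
      · have := Nat.le_of_dvd (by norm_num) (hp.dvd_of_dvd_pow h3)
        omega
      · have := Nat.le_of_dvd (by norm_num) h3
        omega)
    (by
      intro x
      have e1 : (x + 3 * M) % 3 = x % 3 := by omega
      have e2 : (x + 3 * M) % M = x % M := by
        rw [Nat.add_mul_mod_self_right]
      simp only [e1, e2]) (by simp) 1 (by
        refine (count_class h).trans (le_of_eq ?_)
        congr 1
        ext x
        simp only [Finset.mem_filter]) ε hε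
  refine ⟨X₀, fun X hX => ?_⟩
  have h1 := hX₀ X hX
  have e1 : {Δ : ℕ | Δ ≤ X ∧ (Δ % 3 = 1 ∧ Δ % M = r) ∧
      ∀ p : ℕ, p.Prime → 5 ≤ p → ¬ p ^ 2 ∣ Δ} =
      {Δ : ℕ | Δ ≤ X ∧ IsFund Δ ∧ Δ % 3 = 1 ∧ Δ % M = r} := by
    ext Δ
    simp only [Set.mem_ofPred_eq]
    rw [isFund_iff h Δ]
  rw [e1] at h1
  refine le_trans (le_of_eq ?_) h1
  have hMr : (M : ℝ) ≠ 0 := by exact_mod_cast hM0.ne'
  push_cast
  field_simp
  ring

/-- The number of bad fields. -/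
theorem class_bad {M r : ℕ} (h : TwoClass M r) (ε : ℝ) (hε : 0 < ε) :
    ∃ X₀ : ℕ, ∀ X : ℕ, X₀ ≤ X →
      ({Δ : ℕ | Δ ≤ X ∧ IsFund Δ ∧ Δ % 3 = 1 ∧ Δ % M = r ∧ ¬ NoThree Δ}.ncard : ℝ) ≤
        (3 / (2 * M * Real.pi ^ 2) + ε) * X := by
  have hM := twoClass_M h
  have hM0 : 0 < M := by omega
  obtain ⟨k, hk, T, hT, hT'⟩ := twoSet M r h
  obtain ⟨T3, hT3, hT3'⟩ := threeSet
  have hk0 : 0 < k := by omega
  obtain ⟨U, hU, hU'⟩ := stCRT k 3 hk0 (by norm_num) (by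
    rcases hk with rfl | rfl | rfl <;> decide) T T3
  obtain ⟨X₀, hX₀⟩ := genCount up stCRT prod stEuler (k * 3) U.card (by omega) (by
      intro p hp h5 hd
      have h1 : p ∣ 16 * 3 := by
        refine hd.trans (Nat.mul_dvd_mul_right ?_ 3)
        rcases hk with rfl | rfl | rfl <;> norm_num
      have h2 : p ∣ 2 ^ 4 * 3 := by simpa using h1
      rcases (Nat.Prime.dvd_mul hp).1 h2 with h3 | h3
      · have := Nat.le_of_dvd (by norm_num) (hp.dvd_of_dvd_pow h3)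
        omega
      · have := Nat.le_of_dvd (by norm_num) h3
        omega) U le_rfl (4 * ε) (by positivity)
  refine ⟨X₀, fun X hX => ?_⟩
  obtain ⟨hfin, hle⟩ := hX₀ X hX
  set P : (Fin 4 → ℤ) → Prop := fun v => HD v % 3 = 1 ∧ HD v % M = r with hP
  have hsub : {v : Fin 4 → ℤ | Red v ∧ P v ∧ ∃ Δ : ℕ, Δ ≤ X ∧ IsFund Δ ∧
      HD v = (1 : ℕ) * Δ} ⊆
      {v : Fin 4 → ℤ | Red v ∧ HD v ≤ (X : ℤ) ∧ red (k * 3) v ∈ U ∧
        ∀ p : ℕ, p.Prime → 5 ≤ p → ¬ (p : ℤ) ^ 2 ∣ HD v} := by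
    rintro v ⟨hr, ⟨h3, hMv⟩, Δ, hΔ, hF, hD⟩
    rw [Nat.cast_one, one_mul] at hD
    refine ⟨hr, by rw [hD]; exact_mod_cast hΔ, hU' v (hT' v hMv) (hT3' v h3), ?_⟩
    intro p hp hp5 hd
    rw [hD] at hd
    exact hF.2 p hp (by omega) (by exact_mod_cast hd)
  have hfin' := hfin.subset hsub
  have h4 := four_count P (fun v hv => by
      simp only [hP, HD_bneg]; exact hv) (fun v hv => by
      simp only [hP, HD_balt]; exact hv) 1 one_pos X hfin'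
  have hbadsub : {Δ : ℕ | Δ ≤ X ∧ IsFund Δ ∧ Δ % 3 = 1 ∧ Δ % M = r ∧ ¬ NoThree Δ} ⊆
      {Δ : ℕ | Δ ≤ X ∧ IsFund Δ ∧ ∃ v : Fin 4 → ℤ, Red v ∧ v 3 ≠ 0 ∧ P v ∧
        HD v = (1 : ℕ) * Δ} := by
    rintro Δ ⟨hX, hF, h3, hMr, hno⟩
    obtain ⟨v, hv, hv3, hD⟩ := form_of_not_noThree hF hno
    refine ⟨hX, hF, v, hv, hv3, ⟨?_, ?_⟩, by rw [hD]; simp⟩
    · rw [hD]; omega
    · rw [hD]; exact_mod_cast hMr
  have hbadfin : {Δ : ℕ | Δ ≤ X ∧ IsFund Δ ∧ ∃ v : Fin 4 → ℤ, Red v ∧ v 3 ≠ 0 ∧ P v ∧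
        HD v = (1 : ℕ) * Δ}.Finite := (Set.finite_Iic X).subset fun Δ h => h.1
  have h5 := Set.ncard_le_ncard hbadsub hbadfin
  have h6 := Set.ncard_le_ncard hsub hfin
  have h7 : (4 : ℝ) * ({Δ : ℕ | Δ ≤ X ∧ IsFund Δ ∧ Δ % 3 = 1 ∧ Δ % M = r ∧
      ¬ NoThree Δ}.ncard : ℝ) ≤
      ({v : Fin 4 → ℤ | Red v ∧ HD v ≤ (X : ℤ) ∧ red (k * 3) v ∈ U ∧
        ∀ p : ℕ, p.Prime → 5 ≤ p → ¬ (p : ℤ) ^ 2 ∣ HD v}.ncard : ℝ) := by
    have : 4 * {Δ : ℕ | Δ ≤ X ∧ IsFund Δ ∧ Δ % 3 = 1 ∧ Δ % M = r ∧ ¬ NoThree Δ}.ncard ≤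
      {v : Fin 4 → ℤ | Red v ∧ HD v ≤ (X : ℤ) ∧ red (k * 3) v ∈ U ∧
        ∀ p : ℕ, p.Prime → 5 ≤ p → ¬ (p : ℤ) ^ 2 ∣ HD v}.ncard := by omega
    exact_mod_cast this
  have hUc : 2 * (M : ℝ) * U.card ≤ 3 * 24 * (k : ℝ) ^ 4 := by
    have h8 : 2 * M * U.card ≤ 3 * k ^ 4 * 24 := by
      calc 2 * M * U.card ≤ 2 * M * (T.card * T3.card) := Nat.mul_le_mul_left _ hU
        _ = (2 * M * T.card) * T3.card := by ring
        _ ≤ (3 * k ^ 4) * 24 := Nat.mul_le_mul hT hT3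
    have h9 : ((2 * M * U.card : ℕ) : ℝ) ≤ ((3 * k ^ 4 * 24 : ℕ) : ℝ) := by exact_mod_cast h8
    push_cast at h9
    linarith
  have hMr : (0 : ℝ) < M := by exact_mod_cast hM0
  have hkr : (0 : ℝ) < k := by exact_mod_cast hk0
  have hpi := Real.pi_pos
  have h10 : 27 / (2 * Real.pi ^ 2) * (U.card : ℝ) / ((k * 3 : ℕ) : ℝ) ^ 4 ≤
      6 / (M * Real.pi ^ 2) := by
    have e1 : (U.card : ℝ) ≤ 36 * (k : ℝ) ^ 4 / M := by
      rw [le_div_iff₀ hMr]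
      linarith
    have e2 : 27 / (2 * Real.pi ^ 2) * (U.card : ℝ) / ((k * 3 : ℕ) : ℝ) ^ 4 ≤
        27 / (2 * Real.pi ^ 2) * (36 * (k : ℝ) ^ 4 / M) / ((k * 3 : ℕ) : ℝ) ^ 4 := by
      gcongr
    refine e2.trans (le_of_eq ?_)
    push_cast
    field_simp
    norm_num
  have h11 : (4 : ℝ) * ({Δ : ℕ | Δ ≤ X ∧ IsFund Δ ∧ Δ % 3 = 1 ∧ Δ % M = r ∧
      ¬ NoThree Δ}.ncard : ℝ) ≤ (6 / (M * Real.pi ^ 2) + 4 * ε) * X := by
    refine (h7.trans hle).trans ?_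
    gcongr
  have h12 : (6 / (M * Real.pi ^ 2) + 4 * ε) * (X : ℝ) =
      4 * ((3 / (2 * M * Real.pi ^ 2) + ε) * X) := by
    field_simp
    ring
  rw [h12] at h11
  linarith

/-- At least half of the imaginary quadratic fields in which `3` is inert, with a given completion
at `2` which is not split, have class number prime to `3`. -/
theorem classHalf {M r : ℕ} (h : TwoClass M r) (ε : ℝ) (hε : 0 < ε) :
    ∃ X₀ : ℕ, ∀ X : ℕ, X₀ ≤ X →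
      (3 / (M * Real.pi ^ 2) - ε) * X ≤
        ({Δ : ℕ | Δ ≤ X ∧ IsFund Δ ∧ Δ % 3 = 1 ∧ Δ % M = r}.ncard : ℝ) ∧
      (1 / 2 - ε) * ({Δ : ℕ | Δ ≤ X ∧ IsFund Δ ∧ Δ % 3 = 1 ∧ Δ % M = r}.ncard : ℝ) ≤
        ({Δ : ℕ | Δ ≤ X ∧ IsFund Δ ∧ Δ % 3 = 1 ∧ Δ % M = r ∧ NoThree Δ}.ncard : ℝ) := by
  have hM := twoClass_M h
  have hM0 : 0 < M := by omega
  have hMr : (0 : ℝ) < M := by exact_mod_cast hM0
  have hpi := Real.pi_pos
  set c : ℝ := 3 / (M * Real.pi ^ 2) with hc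
  have hc0 : 0 < c := by positivity
  obtain ⟨e, he0, he1, he2, he3⟩ : ∃ e : ℝ, 0 < e ∧ e ≤ c / 2 ∧ 4 * e ≤ ε * c ∧ e ≤ ε :=
    ⟨min (c / 2) (min (ε * c / 4) ε), lt_min (by positivity) (lt_min (by positivity) hε),
      min_le_left _ _, by
        have := (min_le_right (c / 2) (min (ε * c / 4) ε)).trans (min_le_left _ _)
        linarith, (min_le_right _ _).trans (min_le_right _ _)⟩
  obtain ⟨X₁, h1⟩ := class_total h e he0
  obtain ⟨X₂, h2⟩ := class_bad h e he0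
  refine ⟨max X₁ X₂, fun X hX => ?_⟩
  have hT := h1 X ((le_max_left _ _).trans hX)
  have hB := h2 X ((le_max_right _ _).trans hX)
  have hX0 : (0 : ℝ) ≤ X := Nat.cast_nonneg X
  set S : Set ℕ := {Δ : ℕ | Δ ≤ X ∧ IsFund Δ ∧ Δ % 3 = 1 ∧ Δ % M = r} with hS
  have hSf : S.Finite := (Set.finite_Iic X).subset fun Δ h => h.1
  have hsplit := Set.ncard_inter_add_ncard_sdiff_eq_ncard S {Δ : ℕ | NoThree Δ} hSf
  have eG : S ∩ {Δ : ℕ | NoThree Δ} =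
      {Δ : ℕ | Δ ≤ X ∧ IsFund Δ ∧ Δ % 3 = 1 ∧ Δ % M = r ∧ NoThree Δ} := by
    ext Δ
    simp only [hS, Set.mem_inter_iff, Set.mem_ofPred_eq]
    tauto
  have eD : S \ {Δ : ℕ | NoThree Δ} =
      {Δ : ℕ | Δ ≤ X ∧ IsFund Δ ∧ Δ % 3 = 1 ∧ Δ % M = r ∧ ¬ NoThree Δ} := by
    ext Δ
    simp only [hS, Set.mem_sdiff, Set.mem_ofPred_eq]
    tauto
  rw [eG, eD] at hsplit
  have hsplit' : ({Δ : ℕ | Δ ≤ X ∧ IsFund Δ ∧ Δ % 3 = 1 ∧ Δ % M = r ∧ NoThree Δ}.ncard : ℝ) +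
      ({Δ : ℕ | Δ ≤ X ∧ IsFund Δ ∧ Δ % 3 = 1 ∧ Δ % M = r ∧ ¬ NoThree Δ}.ncard : ℝ) =
      (S.ncard : ℝ) := by exact_mod_cast hsplit
  have eB : 3 / (2 * M * Real.pi ^ 2) = c / 2 := by
    rw [hc]
    field_simp
  rw [eB] at hB
  rw [← hc] at hT
  refine ⟨?_, ?_⟩
  · refine le_trans ?_ hT
    apply mul_le_mul_of_nonneg_right _ hX0
    linarith
  · have k1 : c / 2 * X ≤ S.ncard := by
      refine le_trans ?_ hT
      apply mul_le_mul_of_nonneg_right _ hX0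
      linarith
    have k2 : 2 * e * X ≤ ε * S.ncard := by
      calc 2 * e * X ≤ (ε * (c / 2)) * X := mul_le_mul_of_nonneg_right (by linarith) hX0
        _ = ε * (c / 2 * X) := by ring
        _ ≤ ε * S.ncard := mul_le_mul_of_nonneg_left k1 hε.le
    nlinarith

end BKDH
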