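import Pool.Agent.Lib.MP_7c08ba_nt.DH.Two
import Pool.Agent.Lib.MP_7c5fb9_nt.DH.ClassHalf

/-!
At least half of the imaginary quadratic fields with prescribed behaviour at `2` and at `3` have
class number prime to `3`.
-/

set_option autoImplicit false

namespace BKDH

/-- A condition at `2`: the class of `Δ` modulo `M` is in `R`. -/
def LocTwo (M : ℕ) (R : Finset ℕ) : Prop :=
  M ∣ 64 ∧ (∀ r ∈ R, r < M) ∧ (∀ Δ : ℕ, Δ % M ∈ R → F2 (Δ : ℤ)) ∧
    ∃ k : ℕ, k ∣ 16 ∧ ∃ T : Finset (Fin 4 → ZMod k),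
      2 * M * T.card ≤ 3 * k ^ 4 * R.card ∧
      ∀ v : Fin 4 → ℤ, ∀ r ∈ R, HD v % M = r → red k v ∈ T

/-- A condition at `3`: the class of `Δ` modulo `N` is in `S`. -/
def LocThree (N : ℕ) (S : Finset ℕ) : Prop :=
  N ∣ 9 ∧ (∀ r ∈ S, r < N) ∧ (∀ Δ : ℕ, Δ % N ∈ S → ¬ 9 ∣ Δ) ∧
    ∃ k : ℕ, k ∣ 9 ∧ ∃ T : Finset (Fin 4 → ZMod k),
      9 * N * T.card ≤ 8 * k ^ 4 * S.card ∧
      ∀ v : Fin 4 → ℤ, ∀ r ∈ S, HD v % N = r → red k v ∈ T

theorem locTwo_cls {M r : ℕ} (h : TwoCls M r) : LocTwo M {r} := by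
  obtain ⟨k, hk, T, hT, hT'⟩ := twoSet' M r h
  refine ⟨?_, ?_, ?_, k, ?_, T, ?_, ?_⟩
  · rcases Two.cls_M h with rfl | rfl | rfl | rfl <;> norm_num
  · intro r' hr'
    rw [Finset.mem_singleton] at hr'
    subst hr'
    unfold TwoCls at h
    omega
  · intro Δ hΔ
    rw [Finset.mem_singleton] at hΔ
    unfold TwoCls at h
    unfold F2
    rcases h with ⟨rfl, rfl⟩ | ⟨rfl, h⟩ | ⟨rfl, h⟩ | ⟨rfl, h⟩ <;> omega
  · rcases hk with rfl | rfl | rfl <;> norm_num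
  · simpa using hT
  · intro v r' hr' hv
    rw [Finset.mem_singleton] at hr'
    subst hr'
    exact hT' v hv

/-- No condition at `2`. -/
theorem locTwo_all : LocTwo 16 {3, 4, 7, 8, 11, 15} := by
  obtain ⟨T, hT, hT'⟩ := stDTwo
  refine ⟨by norm_num, ?_, ?_, 4, by norm_num, T, ?_, ?_⟩
  · intro r hr
    simp only [Finset.mem_insert, Finset.mem_singleton] at hr
    omega
  · intro Δ hΔ
    simp only [Finset.mem_insert, Finset.mem_singleton] at hΔ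
    unfold F2
    omega
  · have : ({3, 4, 7, 8, 11, 15} : Finset ℕ).card = 6 := by decide
    rw [this]
    omega
  · intro v r hr hv
    simp only [Finset.mem_insert, Finset.mem_singleton] at hr
    refine hT' v ?_
    unfold F2
    omega

namespace Loc

theorem HD_red (M : ℕ) (v : Fin 4 → ℤ) : HD (red M v) = ((HD v : ℤ) : ZMod M) := by
  simp [HD, HA, HB, HC, red]

theorem card_one : ((Finset.univ : Finset (Fin 4 → ZMod 3)).filter fun w => HD w = 1).card = 24 := by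
  decide +kernel

theorem card_two : ((Finset.univ : Finset (Fin 4 → ZMod 3)).filter fun w => HD w = 2).card = 24 := by
  decide +kernel

/-- The determinant on representatives. -/
def hd (a b c d : ℤ) : ℤ := 4 * (b * b - a * c) * (c * c - b * d) - (b * c - a * d) * (b * c - a * d)

/-- The numbers of the residue classes. -/
def cls (r : ℤ) : Finset ℕ :=
  (Finset.range 6561).filter fun n : ℕ =>
    hd ((n / 729 : ℕ) : ℤ) ((n / 81 % 9 : ℕ) : ℤ) ((n / 9 % 9 : ℕ) : ℤ) ((n % 9 : ℕ) : ℤ) % 9 = r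

theorem card_three : (cls 3).card = 648 := by decide +kernel

theorem card_six : (cls 6).card = 648 := by decide +kernel

theorem card_zero : (cls 0).card = 1377 := by decide +kernel

theorem HD_hd (v : Fin 4 → ℤ) : HD v = hd (v 0) (v 1) (v 2) (v 3) := by
  simp only [HD, HA, HB, HC, hd]
  ring

theorem hd_mod (a b c d : ℤ) : hd (a % 9) (b % 9) (c % 9) (d % 9) ≡ hd a b c d [ZMOD 9] := by
  have ma : a % 9 ≡ a [ZMOD 9] := Int.mod_modEq a 9
  have mb : b % 9 ≡ b [ZMOD 9] := Int.mod_modEq b 9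
  have mc : c % 9 ≡ c [ZMOD 9] := Int.mod_modEq c 9
  have md : d % 9 ≡ d [ZMOD 9] := Int.mod_modEq d 9
  have hbc := mb.mul mc
  have hadd := ma.mul md
  exact Int.ModEq.sub (((Int.ModEq.refl 4).mul ((mb.mul mb).sub (ma.mul mc))).mul
    ((mc.mul mc).sub (mb.mul md))) ((hbc.sub hadd).mul (hbc.sub hadd))

theorem mem_cls (v : Fin 4 → ℤ) (r : ℤ) (h : HD v % 9 = r) : ∃ n ∈ cls r, red 9 v = DA.ev n := by
  obtain ⟨a, ha⟩ : ∃ a : ℕ, v 0 % 9 = a := ⟨(v 0 % 9).toNat, by omega⟩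
  obtain ⟨b, hb⟩ : ∃ b : ℕ, v 1 % 9 = b := ⟨(v 1 % 9).toNat, by omega⟩
  obtain ⟨c, hc⟩ : ∃ c : ℕ, v 2 % 9 = c := ⟨(v 2 % 9).toNat, by omega⟩
  obtain ⟨d, hd'⟩ : ∃ d : ℕ, v 3 % 9 = d := ⟨(v 3 % 9).toNat, by omega⟩
  have e0 : (a * 729 + b * 81 + c * 9 + d) / 729 = a := by omega
  have e1 : (a * 729 + b * 81 + c * 9 + d) / 81 % 9 = b := by omega
  have e2 : (a * 729 + b * 81 + c * 9 + d) / 9 % 9 = c := by omega
  have e3 : (a * 729 + b * 81 + c * 9 + d) % 9 = d := by omega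
  refine ⟨a * 729 + b * 81 + c * 9 + d, ?_, ?_⟩
  · unfold cls
    rw [Finset.mem_filter, Finset.mem_range]
    refine ⟨by omega, ?_⟩
    rw [e0, e1, e2, e3, ← ha, ← hb, ← hc, ← hd']
    have := hd_mod (v 0) (v 1) (v 2) (v 3)
    rw [← HD_hd, Int.ModEq] at this
    rw [this, h]
  · unfold DA.ev
    rw [e0, e1, e2, e3]
    funext i
    have key : ∀ (x : ℤ) (m : ℕ), x % 9 = m → ((x : ℤ) : ZMod 9) = (m : ZMod 9) := by
      intro x m hm
      have h1 := (ZMod.intCast_mod x 9).symm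
      rw [h1]
      have : (x % ((9 : ℕ) : ℤ)) = (m : ℤ) := by exact_mod_cast hm
      rw [this]
      simp
    fin_cases i
    · exact key _ _ ha
    · exact key _ _ hb
    · exact key _ _ hc
    · exact key _ _ hd'

end Loc

/-- `3` is unramified: `Δ` modulo `3`. -/
theorem locThree_unr {r : ℕ} (hr : r = 1 ∨ r = 2) : LocThree 3 {r} := by
  refine ⟨by norm_num, ?_, ?_, 3, by norm_num,
    (Finset.univ : Finset (Fin 4 → ZMod 3)).filter fun w => HD w = (r : ZMod 3), ?_, ?_⟩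
  · intro r' hr'
    rw [Finset.mem_singleton] at hr'
    omega
  · intro Δ hΔ
    rw [Finset.mem_singleton] at hΔ
    omega
  · rcases hr with rfl | rfl
    · have := Loc.card_one
      simp only [Nat.cast_one, Finset.card_singleton]
      rw [this]
      norm_num
    · have := Loc.card_two
      simp only [Nat.cast_ofNat, Finset.card_singleton]
      rw [this]
      norm_num
  · intro v r' hr' hv
    rw [Finset.mem_singleton] at hr'
    subst hr'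
    rw [Finset.mem_filter, Loc.HD_red]
    refine ⟨Finset.mem_univ _, ?_⟩
    have h1 : HD v ≡ (r' : ℤ) [ZMOD (3 : ℕ)] := by
      rw [Int.ModEq, hv]
      omega
    have := (ZMod.intCast_eq_intCast_iff _ _ 3).2 h1
    rw [this]
    simp

/-- `3` is ramified: `Δ` modulo `9`. -/
theorem locThree_ram {r : ℕ} (hr : r = 3 ∨ r = 6) : LocThree 9 {r} := by
  classical
  refine ⟨by norm_num, ?_, ?_, 9, by norm_num, (Loc.cls r).image DA.ev, ?_, ?_⟩
  · intro r' hr'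
    rw [Finset.mem_singleton] at hr'
    omega
  · intro Δ hΔ
    rw [Finset.mem_singleton] at hΔ
    omega
  · have h1 := Finset.card_image_le (s := Loc.cls r) (f := DA.ev)
    have h2 : (Loc.cls (r : ℤ)).card = 648 := by
      rcases hr with rfl | rfl
      · exact Loc.card_three
      · exact Loc.card_six
    rw [h2] at h1
    rw [Finset.card_singleton]
    omega
  · intro v r' hr' hv
    rw [Finset.mem_singleton] at hr'
    subst hr'
    obtain ⟨n, hn, he⟩ := Loc.mem_cls v r' hv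
    rw [he]
    exact Finset.mem_image_of_mem _ hn

/-- No condition at `3`. -/
theorem locThree_all : LocThree 9 {1, 2, 3, 4, 5, 6, 7, 8} := by
  classical
  refine ⟨by norm_num, ?_, ?_, 9, by norm_num, (Finset.range 6561 \ Loc.cls 0).image DA.ev, ?_, ?_⟩
  · intro r' hr'
    simp only [Finset.mem_insert, Finset.mem_singleton] at hr'
    omega
  · intro Δ hΔ
    simp only [Finset.mem_insert, Finset.mem_singleton] at hΔ
    omega
  · have h1 := Finset.card_image_le (s := Finset.range 6561 \ Loc.cls 0) (f := DA.ev)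
    have h2 : (Finset.range 6561 \ Loc.cls 0).card = 5184 := by
      rw [Finset.card_sdiff_of_subset (show Loc.cls 0 ⊆ Finset.range 6561 from
        Finset.filter_subset _ _), Finset.card_range, Loc.card_zero]
    rw [h2] at h1
    have h3 : ({1, 2, 3, 4, 5, 6, 7, 8} : Finset ℕ).card = 8 := by decide
    rw [h3]
    omega
  · intro v r hr hv
    simp only [Finset.mem_insert, Finset.mem_singleton] at hr
    obtain ⟨n, hn, he⟩ := Loc.mem_cls v r hv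
    rw [he]
    refine Finset.mem_image_of_mem _ (Finset.mem_sdiff.2 ⟨?_, ?_⟩)
    · exact (Finset.mem_filter.1 hn).1
    · intro h0
      have e1 := (Finset.mem_filter.1 hn).2
      have e2 := (Finset.mem_filter.1 h0).2
      omega

namespace Loc

theorem dvd_range {p k : ℕ} (hp : p.Prime) (h5 : 5 ≤ p) {a b : ℕ} (hk : k ∣ 2 ^ a * 3 ^ b) :
    ¬ p ∣ k := by
  intro hd
  have h1 := hd.trans hk
  rcases (Nat.Prime.dvd_mul hp).1 h1 with h3 | h3
  · have := Nat.le_of_dvd (by norm_num) (hp.dvd_of_dvd_pow h3)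
    omega
  · have := Nat.le_of_dvd (by norm_num) (hp.dvd_of_dvd_pow h3)
    omega

theorem isFund_iff {M N : ℕ} {R S : Finset ℕ} (h2 : LocTwo M R) (h3 : LocThree N S) (Δ : ℕ) :
    (IsFund Δ ∧ Δ % M ∈ R ∧ Δ % N ∈ S) ↔
      ((Δ % M ∈ R ∧ Δ % N ∈ S) ∧ ∀ p : ℕ, p.Prime → 5 ≤ p → ¬ p ^ 2 ∣ Δ) := by
  constructor
  · rintro ⟨⟨-, h1⟩, h2⟩
    exact ⟨h2, fun p hp h5 => h1 p hp (by omega)⟩
  · rintro ⟨⟨h1, h4⟩, h5⟩
    refine ⟨⟨h2.2.2.1 Δ h1, ?_⟩, h1, h4⟩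
    intro p hp hp2 hd
    by_cases h6 : 5 ≤ p
    · exact h5 p hp h6 hd
    · have hp3 : p = 3 := by
        have := hp.two_le
        have h4 : p ≠ 4 := by rintro rfl; exact absurd hp (by norm_num)
        omega
      subst hp3
      exact h3.2.2.1 Δ h4 (by simpa using hd)

/-- The residue classes modulo `M N`. -/
theorem count_crt {M N : ℕ} (hM : 0 < M) (hN : 0 < N) (hc : Nat.Coprime M N) {R S : Finset ℕ}
    (hR : ∀ r ∈ R, r < M) (hS : ∀ r ∈ S, r < N) :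
    R.card * S.card ≤ ((Finset.range (M * N)).filter fun x => x % M ∈ R ∧ x % N ∈ S).card := by
  rw [← Finset.card_product]
  refine Finset.card_le_card_of_injOn
    (fun q => ((Nat.chineseRemainder hc q.1 q.2 : ℕ)) % (M * N)) ?_ ?_
  · rintro ⟨r, s⟩ hq
    rw [Finset.mem_coe, Finset.mem_product] at hq
    have h1 := (Nat.chineseRemainder hc r s).2.1
    have h2 := (Nat.chineseRemainder hc r s).2.2
    rw [Finset.mem_coe, Finset.mem_filter, Finset.mem_range]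
    refine ⟨Nat.mod_lt _ (Nat.mul_pos hM hN), ?_, ?_⟩
    · simp only
      rw [Nat.mod_mul_right_mod, h1, Nat.mod_eq_of_lt (hR r hq.1)]
      exact hq.1
    · simp only
      rw [Nat.mod_mul_left_mod, h2, Nat.mod_eq_of_lt (hS s hq.2)]
      exact hq.2
  · rintro ⟨r, s⟩ hq ⟨r', s'⟩ hq' he
    rw [Finset.mem_coe, Finset.mem_product] at hq hq'
    simp only at he
    have h1 := (Nat.chineseRemainder hc r s).2.1
    have h2 := (Nat.chineseRemainder hc r s).2.2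
    have h1' := (Nat.chineseRemainder hc r' s').2.1
    have h2' := (Nat.chineseRemainder hc r' s').2.2
    have e1 := congrArg (· % M) he
    have e2 := congrArg (· % N) he
    simp only [Nat.mod_mul_right_mod, Nat.mod_mul_left_mod] at e1 e2
    rw [h1, h1', Nat.mod_eq_of_lt (hR r hq.1), Nat.mod_eq_of_lt (hR r' hq'.1)] at e1
    rw [h2, h2', Nat.mod_eq_of_lt (hS s hq.2), Nat.mod_eq_of_lt (hS s' hq'.2)] at e2
    rw [e1, e2]

theorem pos_of {M N : ℕ} {R S : Finset ℕ} (h2 : LocTwo M R) (h3 : LocThree N S) :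
    0 < M ∧ 0 < N ∧ Nat.Coprime M N := by
  have hM : 0 < M := Nat.pos_of_dvd_of_pos h2.1 (by norm_num)
  have hN : 0 < N := Nat.pos_of_dvd_of_pos h3.1 (by norm_num)
  refine ⟨hM, hN, ?_⟩
  exact Nat.Coprime.coprime_dvd_left h2.1 (Nat.Coprime.coprime_dvd_right h3.1 (by norm_num))

end Loc

open Loc in
/-- The number of fields. -/
theorem loc_total {M N : ℕ} {R S : Finset ℕ} (h2 : LocTwo M R) (h3 : LocThree N S) (ε : ℝ)
    (hε : 0 < ε) :
    ∃ X₀ : ℕ, ∀ X : ℕ, X₀ ≤ X → (9 * R.card * S.card / (M * N * Real.pi ^ 2) - ε) * X ≤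
      ({Δ : ℕ | Δ ≤ X ∧ IsFund Δ ∧ Δ % M ∈ R ∧ Δ % N ∈ S}.ncard : ℝ) := by
  classical
  obtain ⟨hM, hN, hc⟩ := pos_of h2 h3
  obtain ⟨X₀, hX₀⟩ := genNF stEuler (A := fun x => x % M ∈ R ∧ x % N ∈ S) (m := M * N)
    (Nat.mul_pos hM hN) (by
      intro p hp h5
      refine dvd_range (a := 6) (b := 2) hp h5 ?_
      exact Nat.mul_dvd_mul (by simpa using h2.1) (by simpa using h3.1))
    (by
      intro x
      have e1 : (x + M * N) % M = x % M := by rw [Nat.add_mul_mod_self_left]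
      have e2 : (x + M * N) % N = x % N := by rw [Nat.add_mul_mod_self_right]
      simp only [e1, e2]) (by
        rintro ⟨h4, h5⟩
        have := h3.2.2.1 0 h5
        simp at this) (R.card * S.card) (by
        refine (count_crt hM hN hc h2.2.1 h3.2.1).trans (le_of_eq ?_)
        congr 1
        ext x
        simp only [Finset.mem_filter]) ε hε
  refine ⟨X₀, fun X hX => ?_⟩
  have h1 := hX₀ X hX
  have e1 : {Δ : ℕ | Δ ≤ X ∧ (Δ % M ∈ R ∧ Δ % N ∈ S) ∧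
      ∀ p : ℕ, p.Prime → 5 ≤ p → ¬ p ^ 2 ∣ Δ} =
      {Δ : ℕ | Δ ≤ X ∧ IsFund Δ ∧ Δ % M ∈ R ∧ Δ % N ∈ S} := by
    ext Δ
    simp only [Set.mem_ofPred_eq]
    rw [Loc.isFund_iff h2 h3 Δ]
  rw [e1] at h1
  refine le_trans (le_of_eq ?_) h1
  have hMr : (M : ℝ) ≠ 0 := by exact_mod_cast hM.ne'
  have hNr : (N : ℝ) ≠ 0 := by exact_mod_cast hN.ne'
  push_cast
  field_simp

open Loc in
/-- The number of bad fields. -/
theorem loc_bad {M N : ℕ} {R S : Finset ℕ} (h2 : LocTwo M R) (h3 : LocThree N S) (ε : ℝ)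
    (hε : 0 < ε) :
    ∃ X₀ : ℕ, ∀ X : ℕ, X₀ ≤ X →
      ({Δ : ℕ | Δ ≤ X ∧ IsFund Δ ∧ Δ % M ∈ R ∧ Δ % N ∈ S ∧ ¬ NoThree Δ}.ncard : ℝ) ≤
        (9 * R.card * S.card / (2 * M * N * Real.pi ^ 2) + ε) * X := by
  obtain ⟨hM, hN, -⟩ := pos_of h2 h3
  obtain ⟨k, hk, T, hT, hT'⟩ := h2.2.2.2
  obtain ⟨l, hl, T3, hT3, hT3'⟩ := h3.2.2.2
  have hk0 : 0 < k := Nat.pos_of_dvd_of_pos hk (by norm_num)
  have hl0 : 0 < l := Nat.pos_of_dvd_of_pos hl (by norm_num)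
  obtain ⟨U, hU, hU'⟩ := stCRT k l hk0 hl0
    (Nat.Coprime.coprime_dvd_left hk (Nat.Coprime.coprime_dvd_right hl (by norm_num))) T T3
  obtain ⟨X₀, hX₀⟩ := genCount up stCRT prod stEuler (k * l) U.card (Nat.mul_pos hk0 hl0) (by
      intro p hp h5
      refine dvd_range (a := 4) (b := 2) hp h5 ?_
      exact Nat.mul_dvd_mul (by simpa using hk) (by simpa using hl)) U le_rfl (4 * ε)
      (by positivity)
  refine ⟨X₀, fun X hX => ?_⟩
  obtain ⟨hfin, hle⟩ := hX₀ X hX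
  set P : (Fin 4 → ℤ) → Prop := fun v => (∃ r ∈ R, HD v % M = r) ∧ ∃ r ∈ S, HD v % N = r with hP
  have hsub : {v : Fin 4 → ℤ | Red v ∧ P v ∧ ∃ Δ : ℕ, Δ ≤ X ∧ IsFund Δ ∧
      HD v = (1 : ℕ) * Δ} ⊆
      {v : Fin 4 → ℤ | Red v ∧ HD v ≤ (X : ℤ) ∧ red (k * l) v ∈ U ∧
        ∀ p : ℕ, p.Prime → 5 ≤ p → ¬ (p : ℤ) ^ 2 ∣ HD v} := by
    rintro v ⟨hr, ⟨⟨r, hrR, hr1⟩, ⟨t, htS, ht1⟩⟩, Δ, hΔ, hF, hD⟩
    rw [Nat.cast_one, one_mul] at hD
    refine ⟨hr, by rw [hD]; exact_mod_cast hΔ, hU' v (hT' v r hrR hr1) (hT3' v t htS ht1), ?_⟩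
    intro p hp hp5 hd
    rw [hD] at hd
    exact hF.2 p hp (by omega) (by exact_mod_cast hd)
  have hfin' := hfin.subset hsub
  have h4 := four_count P (fun v hv => by
      simp only [hP, HD_bneg]; exact hv) (fun v hv => by
      simp only [hP, HD_balt]; exact hv) 1 one_pos X hfin'
  have hbadsub : {Δ : ℕ | Δ ≤ X ∧ IsFund Δ ∧ Δ % M ∈ R ∧ Δ % N ∈ S ∧ ¬ NoThree Δ} ⊆
      {Δ : ℕ | Δ ≤ X ∧ IsFund Δ ∧ ∃ v : Fin 4 → ℤ, Red v ∧ v 3 ≠ 0 ∧ P v ∧
        HD v = (1 : ℕ) * Δ} := by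
    rintro Δ ⟨hX, hF, hMr, hNr, hno⟩
    obtain ⟨v, hv, hv3, hD⟩ := form_of_not_noThree hF hno
    refine ⟨hX, hF, v, hv, hv3, ⟨⟨_, hMr, ?_⟩, ⟨_, hNr, ?_⟩⟩, by rw [hD]; simp⟩
    · rw [hD]; push_cast; rfl
    · rw [hD]; push_cast; rfl
  have hbadfin : {Δ : ℕ | Δ ≤ X ∧ IsFund Δ ∧ ∃ v : Fin 4 → ℤ, Red v ∧ v 3 ≠ 0 ∧ P v ∧
        HD v = (1 : ℕ) * Δ}.Finite := (Set.finite_Iic X).subset fun Δ h => h.1
  have h5 := Set.ncard_le_ncard hbadsub hbadfin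
  have h6 := Set.ncard_le_ncard hsub hfin
  have h7 : 4 * {Δ : ℕ | Δ ≤ X ∧ IsFund Δ ∧ Δ % M ∈ R ∧ Δ % N ∈ S ∧ ¬ NoThree Δ}.ncard ≤
      {v : Fin 4 → ℤ | Red v ∧ HD v ≤ (X : ℤ) ∧ red (k * l) v ∈ U ∧
        ∀ p : ℕ, p.Prime → 5 ≤ p → ¬ (p : ℤ) ^ 2 ∣ HD v}.ncard :=
    (Nat.mul_le_mul_left 4 h5).trans (h4.trans h6)
  have h7' : (4 : ℝ) * ({Δ : ℕ | Δ ≤ X ∧ IsFund Δ ∧ Δ % M ∈ R ∧ Δ % N ∈ S ∧
      ¬ NoThree Δ}.ncard : ℝ) ≤ _ := le_trans (by exact_mod_cast h7) hle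
  have hMr : (0 : ℝ) < M := by exact_mod_cast hM
  have hNr : (0 : ℝ) < N := by exact_mod_cast hN
  have hkr : (0 : ℝ) < k := by exact_mod_cast hk0
  have hlr : (0 : ℝ) < l := by exact_mod_cast hl0
  have hpi := Real.pi_pos
  have h8 : 2 * M * (9 * N) * U.card ≤ 3 * k ^ 4 * R.card * (8 * l ^ 4 * S.card) := by
    calc 2 * M * (9 * N) * U.card ≤ 2 * M * (9 * N) * (T.card * T3.card) :=
          Nat.mul_le_mul_left _ hU
      _ = (2 * M * T.card) * (9 * N * T3.card) := by ring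
      _ ≤ _ := Nat.mul_le_mul hT hT3
  have h9 : (2 : ℝ) * M * (9 * N) * U.card ≤
      3 * (k : ℝ) ^ 4 * R.card * (8 * (l : ℝ) ^ 4 * S.card) := by exact_mod_cast h8
  have h10 : 27 / (2 * Real.pi ^ 2) * (U.card : ℝ) / ((k * l : ℕ) : ℝ) ^ 4 ≤
      18 * R.card * S.card / (M * N * Real.pi ^ 2) := by
    have e1 : (U.card : ℝ) ≤ 4 * (k : ℝ) ^ 4 * (l : ℝ) ^ 4 * R.card * S.card / (3 * M * N) := by
      rw [le_div_iff₀ (by positivity)]
      linarith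
    have e2 : 27 / (2 * Real.pi ^ 2) * (U.card : ℝ) / ((k * l : ℕ) : ℝ) ^ 4 ≤
        27 / (2 * Real.pi ^ 2) * (4 * (k : ℝ) ^ 4 * (l : ℝ) ^ 4 * R.card * S.card /
          (3 * M * N)) / ((k * l : ℕ) : ℝ) ^ 4 := by
      gcongr
    refine e2.trans (le_of_eq ?_)
    push_cast
    field_simp
    ring
  have hX0 : (0 : ℝ) ≤ X := Nat.cast_nonneg X
  have h11 : (4 : ℝ) * ({Δ : ℕ | Δ ≤ X ∧ IsFund Δ ∧ Δ % M ∈ R ∧ Δ % N ∈ S ∧
      ¬ NoThree Δ}.ncard : ℝ) ≤ (18 * R.card * S.card / (M * N * Real.pi ^ 2) + 4 * ε) * X := by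
    refine h7'.trans ?_
    gcongr
  have h12 : (18 * R.card * S.card / (M * N * Real.pi ^ 2) + 4 * ε) * (X : ℝ) =
      4 * ((9 * R.card * S.card / (2 * M * N * Real.pi ^ 2) + ε) * X) := by
    field_simp
    ring
  rw [h12] at h11
  linarith

/-- **At least half** of the imaginary quadratic fields with prescribed behaviour at `2` and `3`
have class number prime to `3`. -/
theorem locHalf {M N : ℕ} {R S : Finset ℕ} (h2 : LocTwo M R) (h3 : LocThree N S)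
    (hR : R.Nonempty) (hS : S.Nonempty) (ε : ℝ) (hε : 0 < ε) :
    ∃ X₀ : ℕ, ∀ X : ℕ, X₀ ≤ X →
      (9 * R.card * S.card / (M * N * Real.pi ^ 2) - ε) * X ≤
        ({Δ : ℕ | Δ ≤ X ∧ IsFund Δ ∧ Δ % M ∈ R ∧ Δ % N ∈ S}.ncard : ℝ) ∧
      (1 / 2 - ε) * ({Δ : ℕ | Δ ≤ X ∧ IsFund Δ ∧ Δ % M ∈ R ∧ Δ % N ∈ S}.ncard : ℝ) ≤
        ({Δ : ℕ | Δ ≤ X ∧ IsFund Δ ∧ Δ % M ∈ R ∧ Δ % N ∈ S ∧ NoThree Δ}.ncard : ℝ) := by
  obtain ⟨hM, hN, -⟩ := Loc.pos_of h2 h3
  have hMr : (0 : ℝ) < M := by exact_mod_cast hM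
  have hNr : (0 : ℝ) < N := by exact_mod_cast hN
  have hRr : (0 : ℝ) < R.card := by exact_mod_cast hR.card_pos
  have hSr : (0 : ℝ) < S.card := by exact_mod_cast hS.card_pos
  have hpi := Real.pi_pos
  have hB' := fun e he => loc_bad h2 h3 e he
  have hT' := fun e he => loc_total h2 h3 e he
  set c : ℝ := 9 * R.card * S.card / (M * N * Real.pi ^ 2) with hc
  have hc0 : 0 < c := by positivity
  obtain ⟨e, he0, he1, he2, he3⟩ : ∃ e : ℝ, 0 < e ∧ e ≤ c / 2 ∧ 4 * e ≤ ε * c ∧ e ≤ ε :=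
    ⟨min (c / 2) (min (ε * c / 4) ε), lt_min (by positivity) (lt_min (by positivity) hε),
      min_le_left _ _, by
        have := (min_le_right (c / 2) (min (ε * c / 4) ε)).trans (min_le_left _ _)
        linarith, (min_le_right _ _).trans (min_le_right _ _)⟩
  obtain ⟨X₁, h1⟩ := hT' e he0
  obtain ⟨X₂, h2⟩ := hB' e he0
  refine ⟨max X₁ X₂, fun X hX => ?_⟩
  have hT := h1 X ((le_max_left _ _).trans hX)
  have hB := h2 X ((le_max_right _ _).trans hX)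
  have hX0 : (0 : ℝ) ≤ X := Nat.cast_nonneg X
  set Z : Set ℕ := {Δ : ℕ | Δ ≤ X ∧ IsFund Δ ∧ Δ % M ∈ R ∧ Δ % N ∈ S} with hZ
  have hSf : Z.Finite := (Set.finite_Iic X).subset fun Δ h => h.1
  have hsplit := Set.ncard_inter_add_ncard_sdiff_eq_ncard Z {Δ : ℕ | NoThree Δ} hSf
  have eG : Z ∩ {Δ : ℕ | NoThree Δ} =
      {Δ : ℕ | Δ ≤ X ∧ IsFund Δ ∧ Δ % M ∈ R ∧ Δ % N ∈ S ∧ NoThree Δ} := by
    ext Δ
    simp only [hZ, Set.mem_inter_iff, Set.mem_ofPred_eq]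
    tauto
  have eD : Z \ {Δ : ℕ | NoThree Δ} =
      {Δ : ℕ | Δ ≤ X ∧ IsFund Δ ∧ Δ % M ∈ R ∧ Δ % N ∈ S ∧ ¬ NoThree Δ} := by
    ext Δ
    simp only [hZ, Set.mem_sdiff, Set.mem_ofPred_eq]
    tauto
  rw [eG, eD] at hsplit
  have hsplit' :
      ({Δ : ℕ | Δ ≤ X ∧ IsFund Δ ∧ Δ % M ∈ R ∧ Δ % N ∈ S ∧ NoThree Δ}.ncard : ℝ) +
      ({Δ : ℕ | Δ ≤ X ∧ IsFund Δ ∧ Δ % M ∈ R ∧ Δ % N ∈ S ∧ ¬ NoThree Δ}.ncard : ℝ) =
      (Z.ncard : ℝ) := by exact_mod_cast hsplit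
  have eB : 9 * R.card * S.card / (2 * M * N * Real.pi ^ 2) = c / 2 := by
    rw [hc]
    field_simp
  rw [eB] at hB
  refine ⟨?_, ?_⟩
  · refine le_trans ?_ hT
    apply mul_le_mul_of_nonneg_right _ hX0
    linarith
  · have k1 : c / 2 * X ≤ Z.ncard := by
      refine le_trans ?_ hT
      apply mul_le_mul_of_nonneg_right _ hX0
      linarith
    have k2 : 2 * e * X ≤ ε * Z.ncard := by
      calc 2 * e * X ≤ (ε * (c / 2)) * X := mul_le_mul_of_nonneg_right (by linarith) hX0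
        _ = ε * (c / 2 * X) := by ring
        _ ≤ ε * Z.ncard := mul_le_mul_of_nonneg_left k1 hε.le
    nlinarith

end BKDH
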