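import Pool.Agent.Lib.MP_7c5fb9_nt.DH.LocPn

/-!
At least half of the imaginary quadratic fields with prescribed behaviour at `2`, at `3` and at
finitely many primes `p ≥ 5` have class number prime to `3`.
-/

set_option autoImplicit false

namespace BKDH

namespace LocP

open Finset

/-- The local conditions at the primes of `P`. -/
theorem condP (r : ℕ) (s : Finset ℕ) : (∀ p ∈ s, p.Prime ∧ 5 ≤ p) → (∀ p ∈ s, ¬ p ^ 2 ∣ r) →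
    ∃ M : ℕ, M = ∏ p ∈ s, p ^ 2 ∧ 0 < M ∧ ∃ U : Finset (Fin 4 → ZMod M),
      U.card ≤ ∏ p ∈ s, (p ^ 4 * (p ^ 2 - 1)) ∧
      ∀ v : Fin 4 → ℤ, (∀ p ∈ s, (p : ℤ) ^ 2 ∣ HD v - r) → red M v ∈ U := by
  classical
  induction s using Finset.induction_on with
  | empty =>
    intro _ _
    refine ⟨1, by simp, one_pos, {fun _ => 0}, by simp, fun v _ => ?_⟩
    rw [Finset.mem_singleton]
    exact Subsingleton.elim _ _
  | insert a s ha ih =>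
    intro hs hr
    obtain ⟨M, hM, hM0, U, hU, hU'⟩ := ih (fun p hp => hs p (Finset.mem_insert_of_mem hp))
      (fun p hp => hr p (Finset.mem_insert_of_mem hp))
    obtain ⟨hap, ha5⟩ := hs a (Finset.mem_insert_self _ _)
    have : Fact a.Prime := ⟨hap⟩
    have : NeZero (a ^ 2) := ⟨pow_ne_zero _ hap.ne_zero⟩
    have hr0 : (r : ZMod (a ^ 2)) ≠ 0 := by
      rw [Ne, ZMod.natCast_eq_zero_iff]
      exact hr a (Finset.mem_insert_self _ _)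
    have hS := card_HD (p := a) (by omega) (r : ZMod (a ^ 2)) hr0
    have hcop : (a ^ 2).Coprime M := by
      rw [hM]
      refine Nat.Coprime.prod_right fun p hp => ?_
      refine Nat.Coprime.pow 2 2 ?_
      rw [Nat.coprime_primes hap (hs p (Finset.mem_insert_of_mem hp)).1]
      intro h
      exact ha (h ▸ hp)
    obtain ⟨W, hW, hW'⟩ := stCRT (a ^ 2) M (pow_pos hap.pos 2) hM0 hcop
      ((Finset.univ : Finset (Fin 4 → ZMod (a ^ 2))).filter fun v => HD v = (r : ZMod (a ^ 2))) U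
    refine ⟨a ^ 2 * M, ?_, Nat.mul_pos (pow_pos hap.pos 2) hM0, W, ?_, fun v hv => ?_⟩
    · rw [Finset.prod_insert ha, hM]
    · rw [Finset.prod_insert ha]
      exact hW.trans (Nat.mul_le_mul hS hU)
    · refine hW' v ?_ (hU' v fun p hp => hv p (Finset.mem_insert_of_mem hp))
      rw [Finset.mem_filter, Loc.HD_red]
      refine ⟨Finset.mem_univ _, ?_⟩
      have h1 := hv a (Finset.mem_insert_self _ _)
      have h2 : (((a ^ 2 : ℕ) : ℤ)) ∣ HD v - r := by exact_mod_cast h1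
      have h3 := (ZMod.intCast_zmod_eq_zero_iff_dvd (HD v - r) (a ^ 2)).2 h2
      push_cast at h3
      exact sub_eq_zero.1 h3

theorem prod_sq {P : Finset ℕ} (hP : ∀ p ∈ P, p.Prime ∧ 5 ≤ p) :
    ((∏ p ∈ P, p ^ 2 : ℕ) : ℝ) * ∏ p ∈ P, (1 - 1 / (p : ℝ) ^ 2) = ∏ p ∈ P, ((p : ℝ) ^ 2 - 1) := by
  push_cast
  rw [← Finset.prod_mul_distrib]
  refine Finset.prod_congr rfl fun p hp => ?_
  have h : (p : ℝ) ≠ 0 := by
    have := (hP p hp).1.ne_zero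
    exact_mod_cast this
  field_simp

theorem prod_four {P : Finset ℕ} (hP : ∀ p ∈ P, p.Prime ∧ 5 ≤ p) :
    ((∏ p ∈ P, (p ^ 4 * (p ^ 2 - 1)) : ℕ) : ℝ) =
      ((∏ p ∈ P, p ^ 2 : ℕ) : ℝ) ^ 2 * ∏ p ∈ P, ((p : ℝ) ^ 2 - 1) := by
  push_cast
  rw [← Finset.prod_pow, ← Finset.prod_mul_distrib]
  refine Finset.prod_congr rfl fun p hp => ?_
  have h : 1 ≤ p ^ 2 := Nat.one_le_pow _ _ (hP p hp).1.pos
  push_cast [Nat.cast_sub h]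
  ring

theorem W_pos {P : Finset ℕ} (hP : ∀ p ∈ P, p.Prime ∧ 5 ≤ p) :
    0 < ∏ p ∈ P, ((p : ℝ) ^ 2 - 1) := by
  refine Finset.prod_pos fun p hp => ?_
  have h : (5 : ℝ) ≤ p := by exact_mod_cast (hP p hp).2
  nlinarith

theorem dvd_q {P : Finset ℕ} {p : ℕ} (hp : p ∈ P) : p ^ 2 ∣ ∏ p ∈ P, p ^ 2 :=
  Finset.dvd_prod_of_mem (fun p => p ^ 2) hp

theorem q_pos {P : Finset ℕ} (hP : ∀ p ∈ P, p.Prime ∧ 5 ≤ p) : 0 < ∏ p ∈ P, p ^ 2 :=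
  Finset.prod_pos fun p hp => pow_pos (hP p hp).1.pos 2

theorem not_dvd_q {P : Finset ℕ} (hP : ∀ p ∈ P, p.Prime ∧ 5 ≤ p) {p : ℕ} (hp : p.Prime)
    (hpP : p ∉ P) : ¬ p ∣ ∏ p ∈ P, p ^ 2 := by
  intro h
  rw [Prime.dvd_finsetProd_iff hp.prime] at h
  obtain ⟨l, hl, hd⟩ := h
  have h1 := (Nat.prime_dvd_prime_iff_eq hp (hP l hl).1).1 (hp.dvd_of_dvd_pow hd)
  exact hpP (h1 ▸ hl)

theorem coprime_q {P : Finset ℕ} (hP : ∀ p ∈ P, p.Prime ∧ 5 ≤ p) {m : ℕ}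
    (hm : ∀ p : ℕ, p.Prime → 5 ≤ p → ¬ p ∣ m) : Nat.Coprime m (∏ p ∈ P, p ^ 2) := by
  refine Nat.Coprime.prod_right fun p hp => Nat.Coprime.pow_right 2 ?_
  rw [Nat.coprime_comm, Nat.Prime.coprime_iff_not_dvd (hP p hp).1]
  exact hm p (hP p hp).1 (hP p hp).2

end LocP

open Loc LocP in
/-- The number of fields. -/
theorem loc_totalP {M N : ℕ} {R S : Finset ℕ} (h2 : LocTwo M R) (h3 : LocThree N S)
    (P : Finset ℕ) (hP : ∀ p ∈ P, p.Prime ∧ 5 ≤ p) (r : ℕ) (hr : ∀ p ∈ P, ¬ p ^ 2 ∣ r) (ε : ℝ)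
    (hε : 0 < ε) :
    ∃ X₀ : ℕ, ∀ X : ℕ, X₀ ≤ X →
      (9 * R.card * S.card / (M * N * Real.pi ^ 2) / (∏ p ∈ P, ((p : ℝ) ^ 2 - 1)) - ε) * X ≤
      ({Δ : ℕ | Δ ≤ X ∧ IsFund Δ ∧ Δ % M ∈ R ∧ Δ % N ∈ S ∧
        Δ % (∏ p ∈ P, p ^ 2) = r % (∏ p ∈ P, p ^ 2)}.ncard : ℝ) := by
  classical
  obtain ⟨hM, hN, hc⟩ := pos_of h2 h3
  have hsq := prod_sq hP
  have hW := W_pos hP
  have hq0 := q_pos hP
  have hdq : ∀ p ∈ P, p ^ 2 ∣ ∏ p ∈ P, p ^ 2 := fun p hp => dvd_q hp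
  have hndq : ∀ p : ℕ, p.Prime → p ∉ P → ¬ p ∣ ∏ p ∈ P, p ^ 2 := fun p hp hpP =>
    not_dvd_q hP hp hpP
  have hMN5 : ∀ p : ℕ, p.Prime → 5 ≤ p → ¬ p ∣ M * N := by
    intro p hp h5
    refine dvd_range (a := 6) (b := 2) hp h5 ?_
    exact Nat.mul_dvd_mul (by simpa using h2.1) (by simpa using h3.1)
  have hcq := coprime_q hP hMN5
  generalize (∏ p ∈ P, p ^ 2) = q at hsq hq0 hdq hndq hcq ⊢
  generalize (∏ p ∈ P, ((p : ℝ) ^ 2 - 1)) = W at hsq hW ⊢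
  have hmod : ∀ x : ℕ, x % q = r % q → ∀ p ∈ P, ¬ p ^ 2 ∣ x := by
    intro x hx p hp hd
    apply hr p hp
    have h4 : x ≡ r [MOD p ^ 2] := Nat.ModEq.of_dvd (hdq p hp) hx
    exact (Nat.ModEq.dvd_iff h4 dvd_rfl).1 hd
  obtain ⟨X₀, hX₀⟩ := genNFP stEuler P hP (A := fun x => x % M ∈ R ∧ x % N ∈ S ∧ x % q = r % q)
    (m := M * N * q)
    (Nat.mul_pos (Nat.mul_pos hM hN) hq0) (by
      intro p hp h5 hpP hd
      rcases (Nat.Prime.dvd_mul hp).1 hd with h | h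
      · exact hMN5 p hp h5 h
      · exact hndq p hp hpP h)
    (fun x hx => hmod x hx.2.2)
    (by
      intro x
      have e1 : (x + M * N * q) % M = x % M := by
        rw [mul_assoc, Nat.add_mul_mod_self_left]
      have e2 : (x + M * N * q) % N = x % N := by
        rw [mul_comm M N, mul_assoc, Nat.add_mul_mod_self_left]
      have e3 : (x + M * N * q) % q = x % q := by rw [Nat.add_mul_mod_self_right]
      simp only [e1, e2, e3]) (by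
        rintro ⟨h4, h5, -⟩
        have := h3.2.2.1 0 h5
        simp at this) (R.card * S.card) (by
        have c1 := count_crt hM hN hc h2.2.1 h3.2.1
        have c2 := count_crt (R := (Finset.range (M * N)).filter fun x => x % M ∈ R ∧ x % N ∈ S)
          (S := {r % q}) (Nat.mul_pos hM hN) hq0 hcq
          (fun x hx => Finset.mem_range.1 (Finset.mem_filter.1 hx).1)
          (fun x hx => by
            rw [Finset.mem_singleton] at hx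
            rw [hx]
            exact Nat.mod_lt _ hq0)
        rw [Finset.card_singleton, mul_one] at c2
        refine (c1.trans c2).trans (Finset.card_le_card ?_)
        intro x hx
        simp only [Finset.mem_filter] at hx ⊢
        refine ⟨hx.1, ?_⟩
        have h4 := hx.2.1.2
        rw [Nat.mod_mul_right_mod, Nat.mod_mul_left_mod] at h4
        exact ⟨h4.1, h4.2, Finset.mem_singleton.1 hx.2.2⟩) ε hε
  refine ⟨X₀, fun X hX => ?_⟩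
  have h1 := hX₀ X hX
  have e1 : {Δ : ℕ | Δ ≤ X ∧ (Δ % M ∈ R ∧ Δ % N ∈ S ∧ Δ % q = r % q) ∧
      ∀ p : ℕ, p.Prime → 5 ≤ p → ¬ p ^ 2 ∣ Δ} =
      {Δ : ℕ | Δ ≤ X ∧ IsFund Δ ∧ Δ % M ∈ R ∧ Δ % N ∈ S ∧ Δ % q = r % q} := by
    ext Δ
    simp only [Set.mem_ofPred_eq]
    have := Loc.isFund_iff h2 h3 Δ
    tauto
  rw [e1] at h1
  refine le_trans (le_of_eq ?_) h1
  have hMr : (M : ℝ) ≠ 0 := by exact_mod_cast hM.ne'
  have hNr : (N : ℝ) ≠ 0 := by exact_mod_cast hN.ne'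
  have hqr : (q : ℝ) ≠ 0 := by exact_mod_cast hq0.ne'
  have hρ : (∏ p ∈ P, (1 - 1 / (p : ℝ) ^ 2)) ≠ 0 := by
    intro h
    rw [h, mul_zero] at hsq
    exact hW.ne hsq
  rw [← hsq]
  generalize (∏ p ∈ P, (1 - 1 / (p : ℝ) ^ 2)) = ρ at hρ ⊢
  push_cast
  field_simp

open Loc LocP in
/-- The number of bad fields. -/
theorem loc_badP {M N : ℕ} {R S : Finset ℕ} (h2 : LocTwo M R) (h3 : LocThree N S)
    (P : Finset ℕ) (hP : ∀ p ∈ P, p.Prime ∧ 5 ≤ p) (r : ℕ) (hr : ∀ p ∈ P, ¬ p ^ 2 ∣ r) (ε : ℝ)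
    (hε : 0 < ε) :
    ∃ X₀ : ℕ, ∀ X : ℕ, X₀ ≤ X →
      ({Δ : ℕ | Δ ≤ X ∧ IsFund Δ ∧ Δ % M ∈ R ∧ Δ % N ∈ S ∧
        Δ % (∏ p ∈ P, p ^ 2) = r % (∏ p ∈ P, p ^ 2) ∧ ¬ NoThree Δ}.ncard : ℝ) ≤
        (9 * R.card * S.card / (2 * M * N * Real.pi ^ 2) /
          (∏ p ∈ P, ((p : ℝ) ^ 2 - 1)) + ε) * X := by
  obtain ⟨hM, hN, -⟩ := pos_of h2 h3
  obtain ⟨k, hk, T, hT, hT'⟩ := h2.2.2.2
  obtain ⟨l, hl, T3, hT3, hT3'⟩ := h3.2.2.2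
  have hk0 : 0 < k := Nat.pos_of_dvd_of_pos hk (by norm_num)
  have hl0 : 0 < l := Nat.pos_of_dvd_of_pos hl (by norm_num)
  obtain ⟨U, hU, hU'⟩ := stCRT k l hk0 hl0
    (Nat.Coprime.coprime_dvd_left hk (Nat.Coprime.coprime_dvd_right hl (by norm_num))) T T3
  have hkl5 : ∀ p : ℕ, p.Prime → 5 ≤ p → ¬ p ∣ k * l := by
    intro p hp h5
    refine dvd_range (a := 4) (b := 2) hp h5 ?_
    exact Nat.mul_dvd_mul (by simpa using hk) (by simpa using hl)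
  have hcq := coprime_q hP hkl5
  have hndq : ∀ p : ℕ, p.Prime → p ∉ P → ¬ p ∣ ∏ p ∈ P, p ^ 2 := fun p hp hpP =>
    not_dvd_q hP hp hpP
  have hdq : ∀ p ∈ P, p ^ 2 ∣ ∏ p ∈ P, p ^ 2 := fun p hp => dvd_q hp
  have hsq := prod_sq hP
  have h4q := prod_four hP
  have hW := W_pos hP
  obtain ⟨q, hq, hq0, V, hV, hV'⟩ := condP r P hP hr
  rw [← hq] at hcq hndq hdq hsq h4q ⊢
  obtain ⟨Y, hY, hY'⟩ := stCRT (k * l) q (Nat.mul_pos hk0 hl0) hq0 hcq U V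
  obtain ⟨X₀, hX₀⟩ := genCountP up stCRT stDP stEuler P hP (k * l * q) Y.card
    (Nat.mul_pos (Nat.mul_pos hk0 hl0) hq0) (by
      intro p hp h5 hpP hd
      rcases (Nat.Prime.dvd_mul hp).1 hd with h | h
      · exact hkl5 p hp h5 h
      · exact hndq p hp hpP h) Y le_rfl (4 * ε)
      (by positivity)
  refine ⟨X₀, fun X hX => ?_⟩
  obtain ⟨hfin, hle⟩ := hX₀ X hX
  set A : (Fin 4 → ℤ) → Prop := fun v => (∃ r ∈ R, HD v % M = r) ∧ (∃ r ∈ S, HD v % N = r) ∧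
    ∀ p ∈ P, (p : ℤ) ^ 2 ∣ HD v - r with hA
  have hsub : {v : Fin 4 → ℤ | Red v ∧ A v ∧ ∃ Δ : ℕ, Δ ≤ X ∧ IsFund Δ ∧
      HD v = (1 : ℕ) * Δ} ⊆
      {v : Fin 4 → ℤ | Red v ∧ HD v ≤ (X : ℤ) ∧ red (k * l * q) v ∈ Y ∧
        ∀ p : ℕ, p.Prime → 5 ≤ p → ¬ (p : ℤ) ^ 2 ∣ HD v} := by
    rintro v ⟨hred, ⟨⟨r', hrR, hr1⟩, ⟨t, htS, ht1⟩, hp1⟩, Δ, hΔ, hF, hD⟩
    rw [Nat.cast_one, one_mul] at hD
    refine ⟨hred, by rw [hD]; exact_mod_cast hΔ,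
      hY' v (hU' v (hT' v r' hrR hr1) (hT3' v t htS ht1)) (hV' v hp1), ?_⟩
    intro p hp hp5 hd
    rw [hD] at hd
    exact hF.2 p hp (by omega) (by exact_mod_cast hd)
  have hfin' := hfin.subset hsub
  have h4 := four_count A (fun v hv => by
      simp only [hA, HD_bneg]; exact hv) (fun v hv => by
      simp only [hA, HD_balt]; exact hv) 1 one_pos X hfin'
  have hbadsub : {Δ : ℕ | Δ ≤ X ∧ IsFund Δ ∧ Δ % M ∈ R ∧ Δ % N ∈ S ∧ Δ % q = r % q ∧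
      ¬ NoThree Δ} ⊆
      {Δ : ℕ | Δ ≤ X ∧ IsFund Δ ∧ ∃ v : Fin 4 → ℤ, Red v ∧ v 3 ≠ 0 ∧ A v ∧
        HD v = (1 : ℕ) * Δ} := by
    rintro Δ ⟨hX, hF, hMr, hNr, hqr, hno⟩
    obtain ⟨v, hv, hv3, hD⟩ := form_of_not_noThree hF hno
    refine ⟨hX, hF, v, hv, hv3, ⟨⟨_, hMr, ?_⟩, ⟨_, hNr, ?_⟩, ?_⟩, by rw [hD]; simp⟩
    · rw [hD]; push_cast; rfl
    · rw [hD]; push_cast; rfl
    · intro p hp
      rw [hD]
      have h5 : Δ ≡ r [MOD p ^ 2] := Nat.ModEq.of_dvd (hdq p hp) hqr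
      have h6 := (Nat.modEq_iff_dvd.1 h5.symm)
      exact_mod_cast h6
  have hbadfin : {Δ : ℕ | Δ ≤ X ∧ IsFund Δ ∧ ∃ v : Fin 4 → ℤ, Red v ∧ v 3 ≠ 0 ∧ A v ∧
        HD v = (1 : ℕ) * Δ}.Finite := (Set.finite_Iic X).subset fun Δ h => h.1
  have h5 := Set.ncard_le_ncard hbadsub hbadfin
  have h6 := Set.ncard_le_ncard hsub hfin
  have h7 : 4 * {Δ : ℕ | Δ ≤ X ∧ IsFund Δ ∧ Δ % M ∈ R ∧ Δ % N ∈ S ∧ Δ % q = r % q ∧
      ¬ NoThree Δ}.ncard ≤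
      {v : Fin 4 → ℤ | Red v ∧ HD v ≤ (X : ℤ) ∧ red (k * l * q) v ∈ Y ∧
        ∀ p : ℕ, p.Prime → 5 ≤ p → ¬ (p : ℤ) ^ 2 ∣ HD v}.ncard :=
    (Nat.mul_le_mul_left 4 h5).trans (h4.trans h6)
  have h7' : (4 : ℝ) * ({Δ : ℕ | Δ ≤ X ∧ IsFund Δ ∧ Δ % M ∈ R ∧ Δ % N ∈ S ∧ Δ % q = r % q ∧
      ¬ NoThree Δ}.ncard : ℝ) ≤ _ := le_trans (by exact_mod_cast h7) hle
  have hMr : (0 : ℝ) < M := by exact_mod_cast hM
  have hNr : (0 : ℝ) < N := by exact_mod_cast hN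
  have hkr : (0 : ℝ) < k := by exact_mod_cast hk0
  have hlr : (0 : ℝ) < l := by exact_mod_cast hl0
  have hqr : (0 : ℝ) < q := by exact_mod_cast hq0
  have hpi := Real.pi_pos
  have h8 : 2 * M * (9 * N) * U.card ≤ 3 * k ^ 4 * R.card * (8 * l ^ 4 * S.card) := by
    calc 2 * M * (9 * N) * U.card ≤ 2 * M * (9 * N) * (T.card * T3.card) :=
          Nat.mul_le_mul_left _ hU
      _ = (2 * M * T.card) * (9 * N * T3.card) := by ring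
      _ ≤ _ := Nat.mul_le_mul hT hT3
  have h9 : (2 : ℝ) * M * (9 * N) * U.card ≤
      3 * (k : ℝ) ^ 4 * R.card * (8 * (l : ℝ) ^ 4 * S.card) := by exact_mod_cast h8
  have hYc : (Y.card : ℝ) ≤ U.card * ((q : ℝ) ^ 2 * ∏ p ∈ P, ((p : ℝ) ^ 2 - 1)) := by
    have a1 : (Y.card : ℝ) ≤ (U.card : ℝ) * V.card := by exact_mod_cast hY
    have a2 : (V.card : ℝ) ≤ (q : ℝ) ^ 2 * ∏ p ∈ P, ((p : ℝ) ^ 2 - 1) := by
      rw [← h4q]
      exact_mod_cast hV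
    exact a1.trans (mul_le_mul_of_nonneg_left a2 (by positivity))
  have hρ : (∏ p ∈ P, (1 - 1 / (p : ℝ) ^ 2)) ≠ 0 := by
    intro h
    rw [h, mul_zero] at hsq
    exact hW.ne hsq
  have hρq : (∏ p ∈ P, (1 - 1 / (p : ℝ) ^ 2)) = (∏ p ∈ P, ((p : ℝ) ^ 2 - 1)) / (q : ℝ) := by
    rw [← hsq]
    field_simp
  rw [hρq] at h7'
  generalize (∏ p ∈ P, ((p : ℝ) ^ 2 - 1)) = W at hW hYc h7' ⊢
  have h10 : 27 / (2 * Real.pi ^ 2) * (Y.card : ℝ) / ((k * l * q : ℕ) : ℝ) ^ 4 / (W / q) ^ 2 ≤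
      18 * R.card * S.card / (M * N * Real.pi ^ 2) / W := by
    have e1 : (U.card : ℝ) ≤ 4 * (k : ℝ) ^ 4 * (l : ℝ) ^ 4 * R.card * S.card / (3 * M * N) := by
      rw [le_div_iff₀ (by positivity)]
      linarith
    have e0 : (Y.card : ℝ) ≤ (4 * (k : ℝ) ^ 4 * (l : ℝ) ^ 4 * R.card * S.card / (3 * M * N)) *
        ((q : ℝ) ^ 2 * W) := hYc.trans (mul_le_mul_of_nonneg_right e1 (by positivity))
    have e2 : 27 / (2 * Real.pi ^ 2) * (Y.card : ℝ) / ((k * l * q : ℕ) : ℝ) ^ 4 / (W / q) ^ 2 ≤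
        27 / (2 * Real.pi ^ 2) * ((4 * (k : ℝ) ^ 4 * (l : ℝ) ^ 4 * R.card * S.card /
          (3 * M * N)) * ((q : ℝ) ^ 2 * W)) / ((k * l * q : ℕ) : ℝ) ^ 4 / (W / q) ^ 2 := by
      gcongr
    refine e2.trans (le_of_eq ?_)
    push_cast
    field_simp
    ring
  have hX0 : (0 : ℝ) ≤ X := Nat.cast_nonneg X
  have h11 : (4 : ℝ) * ({Δ : ℕ | Δ ≤ X ∧ IsFund Δ ∧ Δ % M ∈ R ∧ Δ % N ∈ S ∧ Δ % q = r % q ∧
      ¬ NoThree Δ}.ncard : ℝ) ≤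
      (18 * R.card * S.card / (M * N * Real.pi ^ 2) / W + 4 * ε) * X := by
    refine h7'.trans ?_
    gcongr
  have h12 : (18 * R.card * S.card / (M * N * Real.pi ^ 2) / W + 4 * ε) * (X : ℝ) =
      4 * ((9 * R.card * S.card / (2 * M * N * Real.pi ^ 2) / W + ε) * X) := by
    field_simp
    ring
  rw [h12] at h11
  linarith

/-- **At least half** of the imaginary quadratic fields with prescribed behaviour at `2`, `3` and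
finitely many primes `p ≥ 5` have class number prime to `3`. -/
theorem locHalfP {M N : ℕ} {R S : Finset ℕ} (h2 : LocTwo M R) (h3 : LocThree N S)
    (hR : R.Nonempty) (hS : S.Nonempty) (P : Finset ℕ) (hP : ∀ p ∈ P, p.Prime ∧ 5 ≤ p) (r : ℕ)
    (hr : ∀ p ∈ P, ¬ p ^ 2 ∣ r) (ε : ℝ) (hε : 0 < ε) :
    ∃ X₀ : ℕ, ∀ X : ℕ, X₀ ≤ X →
      (9 * R.card * S.card / (M * N * Real.pi ^ 2) / (∏ p ∈ P, ((p : ℝ) ^ 2 - 1)) - ε) * X ≤
        ({Δ : ℕ | Δ ≤ X ∧ IsFund Δ ∧ Δ % M ∈ R ∧ Δ % N ∈ S ∧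
          Δ % (∏ p ∈ P, p ^ 2) = r % (∏ p ∈ P, p ^ 2)}.ncard : ℝ) ∧
      (1 / 2 - ε) * ({Δ : ℕ | Δ ≤ X ∧ IsFund Δ ∧ Δ % M ∈ R ∧ Δ % N ∈ S ∧
          Δ % (∏ p ∈ P, p ^ 2) = r % (∏ p ∈ P, p ^ 2)}.ncard : ℝ) ≤
        ({Δ : ℕ | Δ ≤ X ∧ IsFund Δ ∧ Δ % M ∈ R ∧ Δ % N ∈ S ∧
          Δ % (∏ p ∈ P, p ^ 2) = r % (∏ p ∈ P, p ^ 2) ∧ NoThree Δ}.ncard : ℝ) := by
  obtain ⟨hM, hN, -⟩ := Loc.pos_of h2 h3
  have hMr : (0 : ℝ) < M := by exact_mod_cast hM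
  have hNr : (0 : ℝ) < N := by exact_mod_cast hN
  have hRr : (0 : ℝ) < R.card := by exact_mod_cast hR.card_pos
  have hSr : (0 : ℝ) < S.card := by exact_mod_cast hS.card_pos
  have hpi := Real.pi_pos
  have hB' := fun e he => loc_badP h2 h3 P hP r hr e he
  have hT' := fun e he => loc_totalP h2 h3 P hP r hr e he
  have hW := LocP.W_pos hP
  generalize (∏ p ∈ P, p ^ 2) = q at hB' hT' ⊢
  generalize (∏ p ∈ P, ((p : ℝ) ^ 2 - 1)) = W at hW hB' hT' ⊢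
  set c : ℝ := 9 * R.card * S.card / (M * N * Real.pi ^ 2) / W with hc
  have hc0 : 0 < c := by positivity
  obtain ⟨e, he0, he1, he2, he3⟩ : ∃ e : ℝ, 0 < e ∧ e ≤ c / 2 ∧ 4 * e ≤ ε * c ∧ e ≤ ε :=
    ⟨min (c / 2) (min (ε * c / 4) ε), lt_min (by positivity) (lt_min (by positivity) hε),
      min_le_left _ _, by
        have := (min_le_right (c / 2) (min (ε * c / 4) ε)).trans (min_le_left _ _)
        linarith, (min_le_right _ _).trans (min_le_right _ _)⟩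
  obtain ⟨X₁, h1⟩ := hT' e he0
  obtain ⟨X₂, h2⟩ := hB' e he0
  refine ⟨max X₁ X₂, fun X hX => ?_⟩
  have hT := h1 X ((le_max_left _ _).trans hX)
  have hB := h2 X ((le_max_right _ _).trans hX)
  have hX0 : (0 : ℝ) ≤ X := Nat.cast_nonneg X
  set Z : Set ℕ := {Δ : ℕ | Δ ≤ X ∧ IsFund Δ ∧ Δ % M ∈ R ∧ Δ % N ∈ S ∧ Δ % q = r % q} with hZ
  have hSf : Z.Finite := (Set.finite_Iic X).subset fun Δ h => h.1
  have hsplit := Set.ncard_inter_add_ncard_sdiff_eq_ncard Z {Δ : ℕ | NoThree Δ} hSf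
  have eG : Z ∩ {Δ : ℕ | NoThree Δ} =
      {Δ : ℕ | Δ ≤ X ∧ IsFund Δ ∧ Δ % M ∈ R ∧ Δ % N ∈ S ∧ Δ % q = r % q ∧ NoThree Δ} := by
    ext Δ
    simp only [hZ, Set.mem_inter_iff, Set.mem_ofPred_eq]
    tauto
  have eD : Z \ {Δ : ℕ | NoThree Δ} =
      {Δ : ℕ | Δ ≤ X ∧ IsFund Δ ∧ Δ % M ∈ R ∧ Δ % N ∈ S ∧ Δ % q = r % q ∧ ¬ NoThree Δ} := by
    ext Δ
    simp only [hZ, Set.mem_sdiff, Set.mem_ofPred_eq]
    tauto
  rw [eG, eD] at hsplit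
  have hsplit' :
      ({Δ : ℕ | Δ ≤ X ∧ IsFund Δ ∧ Δ % M ∈ R ∧ Δ % N ∈ S ∧ Δ % q = r % q ∧
        NoThree Δ}.ncard : ℝ) +
      ({Δ : ℕ | Δ ≤ X ∧ IsFund Δ ∧ Δ % M ∈ R ∧ Δ % N ∈ S ∧ Δ % q = r % q ∧
        ¬ NoThree Δ}.ncard : ℝ) =
      (Z.ncard : ℝ) := by exact_mod_cast hsplit
  have eB : 9 * R.card * S.card / (2 * M * N * Real.pi ^ 2) / W = c / 2 := by
    rw [hc]
    field_simp
  rw [eB] at hB
  refine ⟨?_, ?_⟩
  · refine le_trans ?_ hT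
    apply mul_le_mul_of_nonneg_right _ hX0
    linarith
  · have k1 : c / 2 * X ≤ Z.ncard := by
      refine le_trans ?_ hT
      apply mul_le_mul_of_nonneg_right _ hX0
      linarith
    have k2 : 2 * e * X ≤ ε * Z.ncard := by
      calc 2 * e * X ≤ (ε * (c / 2)) * X := mul_le_mul_of_nonneg_right (by linarith) hX0
        _ = ε * (c / 2 * X) := by ring
        _ ≤ ε * Z.ncard := mul_le_mul_of_nonneg_left k1 hε.le
    nlinarith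

end BKDH
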