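import Pool.Agent.Lib.MP_7c08ba_nt.DH.DP

/-!
The number of classes of forms modulo `p²` with given discriminant.
-/

set_option autoImplicit false

namespace BKDH

namespace LocP

open Finset DP

section

variable {p : ℕ} [hp : Fact p.Prime]

local instance : NeZero (p ^ 2) := ⟨pow_ne_zero _ hp.out.ne_zero⟩

theorem isUnit_iff (x : ZMod (p ^ 2)) : IsUnit x ↔ rho p x ≠ 0 := by
  constructor
  · intro h
    exact (h.map (rho p)).ne_zero
  · intro h
    have hx : ((x.val : ℕ) : ZMod (p ^ 2)) = x := ZMod.natCast_zmod_val x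
    rw [← hx, ZMod.isUnit_iff_coprime]
    refine Nat.Coprime.pow_right 2 ?_
    rw [Nat.coprime_comm, Nat.Prime.coprime_iff_not_dvd hp.out]
    intro hd
    apply h
    rw [← hx]
    unfold rho
    rw [map_natCast, ZMod.natCast_eq_zero_iff]
    exact hd

/-- The units. -/
def Un (p : ℕ) [hp : Fact p.Prime] : Finset (ZMod (p ^ 2)) :=
  haveI : NeZero (p ^ 2) := ⟨pow_ne_zero _ hp.out.ne_zero⟩
  univ.filter fun x => rho p x ≠ 0

/-- The nonunits. -/
def Nn (p : ℕ) [hp : Fact p.Prime] : Finset (ZMod (p ^ 2)) :=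
  haveI : NeZero (p ^ 2) := ⟨pow_ne_zero _ hp.out.ne_zero⟩
  univ.filter fun x => rho p x = 0

theorem card_Un : (Un p).card = p * (p - 1) := by
  have h1 : (Un p).card = Fintype.card (ZMod (p ^ 2))ˣ := by
    rw [← Finset.card_univ]
    symm
    refine Finset.card_bij (fun u _ => (u : ZMod (p ^ 2))) ?_ ?_ ?_
    · intro u _
      unfold Un
      rw [Finset.mem_filter]
      exact ⟨Finset.mem_univ _, (isUnit_iff _).1 u.isUnit⟩
    · intro u _ w _ h
      exact Units.ext h
    · intro x hx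
      unfold Un at hx
      rw [Finset.mem_filter] at hx
      obtain ⟨u, hu⟩ := (isUnit_iff x).2 hx.2
      exact ⟨u, Finset.mem_univ _, hu⟩
  rw [h1, ZMod.card_units_eq_totient, Nat.totient_prime_pow hp.out (by norm_num)]
  norm_num

theorem card_Nn : (Nn p).card = p := by
  have h1 : (Nn p).card + (Un p).card = p ^ 2 := by
    unfold Nn Un
    rw [Finset.card_filter_add_card_filter_not, Finset.card_univ, ZMod.card]
  rw [card_Un] at h1
  have h2 : 1 ≤ p := hp.out.one_le
  obtain ⟨k, rfl⟩ : ∃ k, p = k + 1 := ⟨p - 1, by omega⟩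
  rw [Nat.add_sub_cancel] at h1
  nlinarith

theorem mem_Un (x : ZMod (p ^ 2)) : x ∈ Un p ↔ rho p x ≠ 0 := by
  unfold Un
  simp

theorem mem_Nn (x : ZMod (p ^ 2)) : x ∈ Nn p ↔ rho p x = 0 := by
  unfold Nn
  simp

theorem four_ne (h2 : p ≠ 2) : (4 : ZMod p) ≠ 0 := by
  have h : ((4 : ℕ) : ZMod p) ≠ 0 := by
    rw [Ne, ZMod.natCast_eq_zero_iff]
    intro h
    have h3 : p ∣ 2 ^ 2 := by simpa using h
    have h4 := hp.out.dvd_of_dvd_pow h3
    exact h2 ((Nat.prime_dvd_prime_iff_eq hp.out Nat.prime_two).1 h4)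
  exact_mod_cast h

/-- First coefficient in the maximal ideal, second coefficient a unit. -/
theorem card_S2 (h2 : p ≠ 2) (r : ZMod (p ^ 2)) :
    ((univ : Finset (Fin 4 → ZMod (p ^ 2))).filter fun v =>
      rho p (v 0) = 0 ∧ rho p (v 1) ≠ 0 ∧ HD v = r).card ≤ p * (p * (p - 1) * p ^ 2) := by
  have h1 : (Nn p ×ˢ (Un p ×ˢ (univ : Finset (ZMod (p ^ 2))))).card =
      p * (p * (p - 1) * p ^ 2) := by
    rw [Finset.card_product, Finset.card_product, card_Nn, card_Un, Finset.card_univ, ZMod.card]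
  rw [← h1]
  refine Finset.card_le_card_of_injOn (fun v => (v 0, v 1, v 2)) ?_ ?_
  · intro v hv
    rw [Finset.mem_coe, Finset.mem_filter] at hv
    rw [Finset.mem_coe, Finset.mem_product, Finset.mem_product]
    exact ⟨(mem_Nn _).2 hv.2.1, (mem_Un _).2 hv.2.2.1, Finset.mem_univ _⟩
  · intro v hv w hw he
    rw [Finset.mem_coe, Finset.mem_filter] at hv hw
    simp only [Prod.mk.injEq] at he
    obtain ⟨e0, e1, e2⟩ := he
    have e3 : v 3 = w 3 := by
      have ha := mul_zero_of_rho hv.2.1 hv.2.1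
      have hD := hv.2.2.2.trans hw.2.2.2.symm
      simp only [HD, HA, HB, HC] at hD
      rw [← e0, ← e1, ← e2] at hD
      have hu : IsUnit (6 * v 0 * v 1 * v 2 - 4 * v 1 ^ 3) := by
        rw [isUnit_iff]
        simp only [map_sub, map_mul, map_pow, map_ofNat, hv.2.1]
        rw [mul_zero, zero_mul, zero_mul, zero_sub]
        exact neg_ne_zero.2 (mul_ne_zero (four_ne h2) (pow_ne_zero _ hv.2.2.1))
      have h4 : (6 * v 0 * v 1 * v 2 - 4 * v 1 ^ 3) * v 3 =
          (6 * v 0 * v 1 * v 2 - 4 * v 1 ^ 3) * w 3 := by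
        linear_combination hD + (v 3 ^ 2 - w 3 ^ 2) * ha
      exact hu.mul_left_cancel h4
    funext i
    fin_cases i
    · exact e0
    · exact e1
    · exact e2
    · exact e3

/-- The first two coefficients in the maximal ideal. -/
theorem card_S3 (h2 : p ≠ 2) (r : ZMod (p ^ 2)) (hr : r ≠ 0) :
    ((univ : Finset (Fin 4 → ZMod (p ^ 2))).filter fun v =>
      rho p (v 0) = 0 ∧ rho p (v 1) = 0 ∧ HD v = r).card ≤ p * (p * (p - 1) * p ^ 2) := by
  have h1 : (Nn p ×ˢ (Un p ×ˢ (univ : Finset (ZMod (p ^ 2))))).card =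
      p * (p * (p - 1) * p ^ 2) := by
    rw [Finset.card_product, Finset.card_product, card_Nn, card_Un, Finset.card_univ, ZMod.card]
  rw [← h1]
  have key : ∀ v : Fin 4 → ZMod (p ^ 2), rho p (v 0) = 0 → rho p (v 1) = 0 → HD v = r →
      v 0 * (4 * v 2 ^ 3) = -r ∧ rho p (v 2) ≠ 0 := by
    intro v ha hb hD
    have haa := mul_zero_of_rho ha ha
    have hab := mul_zero_of_rho ha hb
    have hbb := mul_zero_of_rho hb hb
    have h3 : v 0 * (4 * v 2 ^ 3) = -r := by
      rw [← hD]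
      simp only [HD, HA, HB, HC]
      linear_combination (-v 3 ^ 2) * haa + (6 * v 2 * v 3) * hab +
        (3 * v 2 ^ 2 - 4 * v 1 * v 3) * hbb
    refine ⟨h3, fun hc => hr ?_⟩
    have hac := mul_zero_of_rho ha hc
    have h4 : v 0 * (4 * v 2 ^ 3) = 0 := by
      linear_combination (4 * v 2 ^ 2) * hac
    rw [h4] at h3
    exact neg_eq_zero.1 h3.symm
  refine Finset.card_le_card_of_injOn (fun v => (v 1, v 2, v 3)) ?_ ?_
  · intro v hv
    rw [Finset.mem_coe, Finset.mem_filter] at hv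
    rw [Finset.mem_coe, Finset.mem_product, Finset.mem_product]
    exact ⟨(mem_Nn _).2 hv.2.2.1, (mem_Un _).2 (key v hv.2.1 hv.2.2.1 hv.2.2.2).2,
      Finset.mem_univ _⟩
  · intro v hv w hw he
    rw [Finset.mem_coe, Finset.mem_filter] at hv hw
    simp only [Prod.mk.injEq] at he
    obtain ⟨e1, e2, e3⟩ := he
    obtain ⟨k1, k2⟩ := key v hv.2.1 hv.2.2.1 hv.2.2.2
    obtain ⟨k3, -⟩ := key w hw.2.1 hw.2.2.1 hw.2.2.2
    have hu : IsUnit (4 * v 2 ^ 3) := by
      rw [isUnit_iff]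
      simp only [map_mul, map_pow, map_ofNat]
      exact mul_ne_zero (four_ne h2) (pow_ne_zero _ k2)
    rw [← e2, ← k1] at k3
    have e0 : v 0 = w 0 := (hu.mul_right_cancel k3).symm
    funext i
    fin_cases i
    · exact e0
    · exact e1
    · exact e2
    · exact e3

/-- No such elements if the discriminant is a unit. -/
theorem S3_empty (r : ZMod (p ^ 2)) (hr : rho p r ≠ 0) :
    ((univ : Finset (Fin 4 → ZMod (p ^ 2))).filter fun v =>
      rho p (v 0) = 0 ∧ rho p (v 1) = 0 ∧ HD v = r) = ∅ := by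
  rw [Finset.filter_eq_empty_iff]
  rintro v - ⟨ha, hb, hD⟩
  apply hr
  rw [← hD, ← map_HD]
  simp only [HD, HA, HB, HC, ha, hb]
  ring

/-- The coordinates of a form with unit first coefficient. -/
def cz (v : Fin 4 → ZMod (p ^ 2)) : ZMod (p ^ 2) := v 2 - v 1 ^ 2 * (v 0)⁻¹

/-- The coordinates of a form with unit first coefficient. -/
def ez (v : Fin 4 → ZMod (p ^ 2)) : ZMod (p ^ 2) :=
  v 0 * v 3 - 3 * v 1 * v 2 + 2 * v 1 ^ 3 * (v 0)⁻¹

theorem cz_ez {v : Fin 4 → ZMod (p ^ 2)} (ha : rho p (v 0) ≠ 0) :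
    v 0 * (4 * cz v ^ 3) = -(ez v ^ 2 + HD v) := by
  have hi : v 0 * (v 0)⁻¹ = 1 := ZMod.mul_inv_of_unit _ ((isUnit_iff _).2 ha)
  simp only [HD, HA, HB, HC, cz, ez]
  generalize (v 0)⁻¹ = i at hi
  generalize v 0 = a at hi ⊢
  generalize v 1 = b
  generalize v 2 = c
  generalize v 3 = d
  linear_combination (-12 * b ^ 2 * c ^ 2 + 12 * b ^ 4 * c * i - 4 * b ^ 6 * i ^ 2 +
    4 * b ^ 3 * d) * hi

theorem eq_of_coord {v w : Fin 4 → ZMod (p ^ 2)} (ha : rho p (v 0) ≠ 0) (h0 : v 0 = w 0)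
    (h1 : v 1 = w 1) (hc : cz v = cz w) (he : ez v = ez w) : v = w := by
  have h2 : v 2 = w 2 := by
    unfold cz at hc
    rw [← h0, ← h1] at hc
    exact sub_left_injective hc
  have h3 : v 3 = w 3 := by
    unfold ez at he
    rw [← h0, ← h1, ← h2] at he
    have hu := (isUnit_iff _).2 ha
    refine hu.mul_left_cancel ?_
    linear_combination he
  funext i
  fin_cases i
  · exact h0
  · exact h1
  · exact h2
  · exact h3

/-- First coefficient and Hessian units. -/
theorem card_S1a (h2 : p ≠ 2) (r : ZMod (p ^ 2)) :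
    ((univ : Finset (Fin 4 → ZMod (p ^ 2))).filter fun v =>
      rho p (v 0) ≠ 0 ∧ rho p (cz v) ≠ 0 ∧ HD v = r).card ≤
      p ^ 2 * (p * (p - 1) *
        ((univ : Finset (ZMod (p ^ 2))).filter fun e => rho p (e ^ 2 + r) ≠ 0).card) := by
  have h1 : ((univ : Finset (ZMod (p ^ 2))) ×ˢ (Un p ×ˢ
      ((univ : Finset (ZMod (p ^ 2))).filter fun e => rho p (e ^ 2 + r) ≠ 0))).card =
      p ^ 2 * (p * (p - 1) *
        ((univ : Finset (ZMod (p ^ 2))).filter fun e => rho p (e ^ 2 + r) ≠ 0).card) := by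
    rw [Finset.card_product, Finset.card_product, card_Un, Finset.card_univ, ZMod.card]
  rw [← h1]
  have hu : ∀ v : Fin 4 → ZMod (p ^ 2), rho p (cz v) ≠ 0 → IsUnit (4 * cz v ^ 3) := by
    intro v hv
    rw [isUnit_iff]
    simp only [map_mul, map_pow, map_ofNat]
    exact mul_ne_zero (four_ne h2) (pow_ne_zero _ hv)
  refine Finset.card_le_card_of_injOn (fun v => (v 1, cz v, ez v)) ?_ ?_
  · intro v hv
    rw [Finset.mem_coe, Finset.mem_filter] at hv
    rw [Finset.mem_coe, Finset.mem_product, Finset.mem_product, Finset.mem_filter]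
    refine ⟨Finset.mem_univ _, (mem_Un _).2 hv.2.2.1, Finset.mem_univ _, ?_⟩
    have h3 := cz_ez hv.2.1
    rw [hv.2.2.2] at h3
    simp only
    rw [← neg_ne_zero, ← map_neg, ← h3, map_mul]
    exact mul_ne_zero hv.2.1 ((isUnit_iff _).1 (hu v hv.2.2.1))
  · intro v hv w hw he
    rw [Finset.mem_coe, Finset.mem_filter] at hv hw
    simp only [Prod.mk.injEq] at he
    obtain ⟨e1, e2, e3⟩ := he
    have h3 := cz_ez hv.2.1
    have h4 := cz_ez hw.2.1
    rw [hv.2.2.2] at h3
    rw [hw.2.2.2, ← e2, ← e3, ← h3] at h4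
    exact eq_of_coord hv.2.1 ((hu v hv.2.2.1).mul_right_cancel h4).symm e1 e2 e3

/-- First coefficient a unit, Hessian in the maximal ideal. -/
theorem card_S1b (r : ZMod (p ^ 2)) :
    ((univ : Finset (Fin 4 → ZMod (p ^ 2))).filter fun v =>
      rho p (v 0) ≠ 0 ∧ rho p (cz v) = 0 ∧ HD v = r).card ≤
      p ^ 2 * (p * (p - 1) *
        (((univ : Finset (ZMod (p ^ 2))).filter fun e => e ^ 2 = -r).card * p)) := by
  have h1 : ((univ : Finset (ZMod (p ^ 2))) ×ˢ (Un p ×ˢ
      (((univ : Finset (ZMod (p ^ 2))).filter fun e => e ^ 2 = -r) ×ˢ Nn p))).card =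
      p ^ 2 * (p * (p - 1) *
        (((univ : Finset (ZMod (p ^ 2))).filter fun e => e ^ 2 = -r).card * p)) := by
    rw [Finset.card_product, Finset.card_product, Finset.card_product, card_Un, card_Nn,
      Finset.card_univ, ZMod.card]
  rw [← h1]
  refine Finset.card_le_card_of_injOn (fun v => (v 1, v 0, ez v, cz v)) ?_ ?_
  · intro v hv
    rw [Finset.mem_coe, Finset.mem_filter] at hv
    rw [Finset.mem_coe, Finset.mem_product, Finset.mem_product, Finset.mem_product,
      Finset.mem_filter]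
    refine ⟨Finset.mem_univ _, (mem_Un _).2 hv.2.1, ⟨Finset.mem_univ _, ?_⟩,
      (mem_Nn _).2 hv.2.2.1⟩
    have h3 := cz_ez hv.2.1
    have h4 := mul_zero_of_rho hv.2.2.1 hv.2.2.1
    rw [hv.2.2.2] at h3
    simp only
    linear_combination h3 - 4 * v 0 * cz v * h4
  · intro v hv w hw he
    rw [Finset.mem_coe, Finset.mem_filter] at hv hw
    simp only [Prod.mk.injEq] at he
    obtain ⟨e1, e2, e3, e4⟩ := he
    exact eq_of_coord hv.2.1 e2 e1 e4 e3

theorem two_ne' (h2 : p ≠ 2) : (2 : ZMod p) ≠ 0 := by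
  intro h
  apply four_ne h2
  linear_combination 2 * h

/-- The case of a unit. -/
theorem sum_unit (h2 : p ≠ 2) (r : ZMod (p ^ 2)) (hr : rho p r ≠ 0) :
    ((univ : Finset (ZMod (p ^ 2))).filter fun e => rho p (e ^ 2 + r) ≠ 0).card +
      ((univ : Finset (ZMod (p ^ 2))).filter fun e => e ^ 2 = -r).card * p ≤ p ^ 2 := by
  have h1 : ((univ : Finset (ZMod (p ^ 2))).filter fun e => rho p (e ^ 2 + r) = 0).card +
      ((univ : Finset (ZMod (p ^ 2))).filter fun e => ¬ rho p (e ^ 2 + r) = 0).card = p ^ 2 := by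
    rw [Finset.card_filter_add_card_filter_not, Finset.card_univ, ZMod.card]
  have h3 : ((univ : Finset (ZMod (p ^ 2))).filter fun e => e ^ 2 = -r).card * p ≤
      ((univ : Finset (ZMod (p ^ 2))).filter fun e => rho p (e ^ 2 + r) = 0).card := by
    have h4 : (((univ : Finset (ZMod (p ^ 2))).filter fun e => e ^ 2 = -r) ×ˢ Nn p).card =
      ((univ : Finset (ZMod (p ^ 2))).filter fun e => e ^ 2 = -r).card * p := by
      rw [Finset.card_product, card_Nn]
    rw [← h4]
    refine Finset.card_le_card_of_injOn (fun x => x.1 + x.2) ?_ ?_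
    · rintro ⟨e, n⟩ hx
      rw [Finset.mem_coe, Finset.mem_product, Finset.mem_filter, mem_Nn] at hx
      rw [Finset.mem_coe, Finset.mem_filter]
      refine ⟨Finset.mem_univ _, ?_⟩
      have h5 : (e + n) ^ 2 + r = n * (2 * e + n) := by
        linear_combination hx.1.2
      simp only
      rw [h5, map_mul, hx.2, zero_mul]
    · rintro ⟨e, n⟩ hx ⟨e', n'⟩ hx' he
      rw [Finset.mem_coe, Finset.mem_product, Finset.mem_filter, mem_Nn] at hx hx'
      simp only at hx hx' he
      have h6 : (e + e') * (e - e') = (e + e') * 0 := by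
        linear_combination hx.1.2 - hx'.1.2
      have h7 : rho p e ≠ 0 := by
        intro h
        apply hr
        have h8 := congrArg (rho p) hx.1.2
        rw [map_pow, h, map_neg, zero_pow two_ne_zero] at h8
        exact neg_eq_zero.1 h8.symm
      have h9 : rho p (e + e') = 2 * rho p e := by
        have h10 : e + e' = 2 * e + (n - n') := by linear_combination -he
        rw [h10, map_add, map_sub, map_mul, hx.2, hx'.2, map_ofNat]
        ring
      have h11 : IsUnit (e + e') := by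
        rw [isUnit_iff, h9]
        exact mul_ne_zero (two_ne' h2) h7
      have h12 := h11.mul_left_cancel h6
      have h13 : e = e' := sub_eq_zero.1 h12
      subst h13
      have h14 : n = n' := add_left_cancel he
      rw [h14]
  simp only [ne_eq]
  omega

/-- The case of a nonunit. -/
theorem sum_nonunit (r : ZMod (p ^ 2)) (hr : r ≠ 0) (hr' : rho p r = 0) :
    ((univ : Finset (ZMod (p ^ 2))).filter fun e => rho p (e ^ 2 + r) ≠ 0).card ≤ p * (p - 1) ∧
      ((univ : Finset (ZMod (p ^ 2))).filter fun e => e ^ 2 = -r).card = 0 := by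
  constructor
  · rw [← card_Un]
    refine Finset.card_le_card fun e he => ?_
    rw [Finset.mem_filter] at he
    rw [mem_Un]
    intro h
    apply he.2
    rw [map_add, map_pow, h, hr']
    ring
  · rw [Finset.card_eq_zero, Finset.filter_eq_empty_iff]
    intro e _ he
    have h1 := congrArg (rho p) he
    rw [map_pow, map_neg, hr', neg_zero] at h1
    have h2 : rho p e = 0 := pow_eq_zero_iff two_ne_zero |>.1 h1
    have h3 := mul_zero_of_rho h2 h2
    apply hr
    linear_combination he - h3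

/-- **The count.** -/
theorem card_HD (h2 : p ≠ 2) (r : ZMod (p ^ 2)) (hr : r ≠ 0) :
    ((univ : Finset (Fin 4 → ZMod (p ^ 2))).filter fun v => HD v = r).card ≤
      p ^ 4 * (p ^ 2 - 1) := by
  have hsub : ((univ : Finset (Fin 4 → ZMod (p ^ 2))).filter fun v => HD v = r) ⊆
      (((univ : Finset (Fin 4 → ZMod (p ^ 2))).filter fun v =>
        rho p (v 0) ≠ 0 ∧ rho p (cz v) ≠ 0 ∧ HD v = r) ∪
      ((univ : Finset (Fin 4 → ZMod (p ^ 2))).filter fun v =>
        rho p (v 0) ≠ 0 ∧ rho p (cz v) = 0 ∧ HD v = r)) ∪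
      (((univ : Finset (Fin 4 → ZMod (p ^ 2))).filter fun v =>
        rho p (v 0) = 0 ∧ rho p (v 1) ≠ 0 ∧ HD v = r) ∪
      ((univ : Finset (Fin 4 → ZMod (p ^ 2))).filter fun v =>
        rho p (v 0) = 0 ∧ rho p (v 1) = 0 ∧ HD v = r)) := by
    intro v hv
    simp only [Finset.mem_filter, Finset.mem_union, Finset.mem_univ, true_and] at hv ⊢
    by_cases h0 : rho p (v 0) = 0
    · by_cases h1 : rho p (v 1) = 0
      · exact Or.inr (Or.inr ⟨h0, h1, hv⟩)
      · exact Or.inr (Or.inl ⟨h0, h1, hv⟩)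
    · by_cases h1 : rho p (cz v) = 0
      · exact Or.inl (Or.inr ⟨h0, h1, hv⟩)
      · exact Or.inl (Or.inl ⟨h0, h1, hv⟩)
  have hle := (Finset.card_le_card hsub).trans ((Finset.card_union_le _ _).trans
    (Nat.add_le_add (Finset.card_union_le _ _) (Finset.card_union_le _ _)))
  have a1 := card_S1a h2 r
  have a2 := card_S1b r
  have a3 := card_S2 h2 r
  have hp1 : 1 ≤ p := hp.out.one_le
  have hq : p ^ 4 * (p ^ 2 - 1) = p ^ 2 * (p * (p - 1) * (p ^ 2 + p)) := by
    obtain ⟨k, rfl⟩ : ∃ k, p = k + 1 := ⟨p - 1, by omega⟩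
    have h3 : (k + 1) ^ 2 - 1 = k * (k + 2) := by
      have : (k + 1) ^ 2 = k * (k + 2) + 1 := by ring
      omega
    rw [h3, Nat.add_sub_cancel]
    ring
  rw [hq]
  by_cases hr' : rho p r = 0
  · have a4 := card_S3 h2 r hr
    obtain ⟨b1, b2⟩ := sum_nonunit r hr hr'
    rw [b2, zero_mul, mul_zero, mul_zero] at a2
    have a5 : p ^ 2 * (p * (p - 1) *
        ((univ : Finset (ZMod (p ^ 2))).filter fun e => rho p (e ^ 2 + r) ≠ 0).card) ≤
        p ^ 2 * (p * (p - 1) * (p * (p - 1))) := by gcongr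
    have a6 : p ^ 2 * (p * (p - 1) * (p * (p - 1))) + (p * (p * (p - 1) * p ^ 2) +
        p * (p * (p - 1) * p ^ 2)) = p ^ 2 * (p * (p - 1) * (p ^ 2 + p)) := by
      obtain ⟨k, rfl⟩ : ∃ k, p = k + 1 := ⟨p - 1, by omega⟩
      rw [Nat.add_sub_cancel]
      ring
    omega
  · have a4 := S3_empty r hr'
    have b1 := sum_unit h2 r hr'
    rw [a4, Finset.card_empty] at hle
    have a5 : p ^ 2 * (p * (p - 1) *
        ((univ : Finset (ZMod (p ^ 2))).filter fun e => rho p (e ^ 2 + r) ≠ 0).card) +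
        p ^ 2 * (p * (p - 1) *
        (((univ : Finset (ZMod (p ^ 2))).filter fun e => e ^ 2 = -r).card * p)) ≤
        p ^ 2 * (p * (p - 1) * p ^ 2) := by
      rw [← Nat.mul_add, ← Nat.mul_add]
      gcongr
    have a6 : p ^ 2 * (p * (p - 1) * p ^ 2) + p * (p * (p - 1) * p ^ 2) =
        p ^ 2 * (p * (p - 1) * (p ^ 2 + p)) := by ring
    omega

end

end LocP

end BKDH
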