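import Pool.Agent.Lib.MP_7c5fb9_nt.DH.Loc
import Pool.Agent.Lib.MP_7c5fb9_nt.DH.LocPc

/-!
The general counts with conditions at finitely many primes `p ≥ 5`.
-/

set_option autoImplicit false

namespace BKDH

namespace LocP

open Finset

/-- Products of numbers between `0` and `1` decrease. -/
theorem prod_anti {s t : Finset ℕ} (f : ℕ → ℝ) (hst : s ⊆ t) (h0 : ∀ p ∈ t, 0 ≤ f p)
    (h1 : ∀ p ∈ t, f p ≤ 1) : ∏ p ∈ t, f p ≤ ∏ p ∈ s, f p := by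
  classical
  rw [← Finset.prod_sdiff hst]
  have a1 : ∏ p ∈ t \ s, f p ≤ 1 := Finset.prod_le_one
    (fun p hp => h0 p (Finset.mem_sdiff.1 hp).1) (fun p hp => h1 p (Finset.mem_sdiff.1 hp).1)
  have a2 : 0 ≤ ∏ p ∈ s, f p := Finset.prod_nonneg fun p hp => h0 p (hst hp)
  nlinarith

theorem fac_pos {p : ℕ} (h5 : 5 ≤ p) : (0 : ℝ) < 1 - 1 / (p : ℝ) ^ 2 := by
  have h : (5 : ℝ) ≤ p := by exact_mod_cast h5
  have h1 : 1 / (p : ℝ) ^ 2 < 1 := by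
    rw [div_lt_one (by positivity)]
    nlinarith
  linarith

theorem fac_le (p : ℕ) : (1 - 1 / (p : ℝ) ^ 2) ≤ 1 := by
  have : 0 ≤ 1 / (p : ℝ) ^ 2 := by positivity
  linarith

theorem mem5 {Q p : ℕ} (hp : p ∈ primes5 Q) : p.Prime ∧ 5 ≤ p := by
  rw [primes5, Finset.mem_filter, Finset.mem_Icc] at hp
  exact ⟨hp.2, hp.1.1⟩

/-- The upper bound for the product outside `P`. -/
theorem prod_out_le {P : Finset ℕ} (hP : ∀ p ∈ P, p.Prime ∧ 5 ≤ p) (Q : ℕ) {x : ℝ}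
    (hx : ∏ p ∈ primes5 Q, (1 - 1 / (p : ℝ) ^ 2) ≤ x) :
    ∏ p ∈ primes5 Q \ P, (1 - 1 / (p : ℝ) ^ 2) ≤ x / ∏ p ∈ P, (1 - 1 / (p : ℝ) ^ 2) := by
  have h0 : 0 < ∏ p ∈ P, (1 - 1 / (p : ℝ) ^ 2) :=
    Finset.prod_pos fun p hp => fac_pos (hP p hp).2
  rw [le_div_iff₀ h0]
  refine le_trans ?_ hx
  have h1 := prod_anti (s := primes5 Q ∩ P) (t := P) (fun p => 1 - 1 / (p : ℝ) ^ 2)
    Finset.inter_subset_right (fun p hp => (fac_pos (hP p hp).2).le) (fun p _ => fac_le p)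
  have h2 : (∏ p ∈ primes5 Q \ P, (1 - 1 / (p : ℝ) ^ 2)) *
      ∏ p ∈ primes5 Q ∩ P, (1 - 1 / (p : ℝ) ^ 2) = ∏ p ∈ primes5 Q, (1 - 1 / (p : ℝ) ^ 2) := by
    rw [← Finset.prod_sdiff (Finset.inter_subset_left (s₁ := primes5 Q) (s₂ := P)),
      Finset.sdiff_inter_self_left]
  rw [← h2]
  refine mul_le_mul_of_nonneg_left h1 (Finset.prod_nonneg fun p hp => ?_)
  exact (fac_pos (mem5 (Finset.mem_sdiff.1 hp).1).2).le

/-- The lower bound for the product outside `P`. -/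
theorem le_prod_out {P : Finset ℕ} (hP : ∀ p ∈ P, p.Prime ∧ 5 ≤ p) (Q : ℕ) {x : ℝ}
    (hx : ∀ Q : ℕ, x ≤ ∏ p ∈ primes5 Q, (1 - 1 / (p : ℝ) ^ 2)) :
    x / ∏ p ∈ P, (1 - 1 / (p : ℝ) ^ 2) ≤ ∏ p ∈ primes5 Q \ P, (1 - 1 / (p : ℝ) ^ 2) := by
  have h0 : 0 < ∏ p ∈ P, (1 - 1 / (p : ℝ) ^ 2) :=
    Finset.prod_pos fun p hp => fac_pos (hP p hp).2
  rw [div_le_iff₀ h0, ← Finset.prod_union Finset.sdiff_disjoint]
  refine (hx (max Q (P.sup id))).trans ?_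
  refine prod_anti (fun p => 1 - 1 / (p : ℝ) ^ 2) ?_
    (fun p hp => (fac_pos (mem5 hp).2).le) (fun p _ => fac_le p)
  intro p hp
  rw [Finset.mem_union, Finset.mem_sdiff] at hp
  rw [primes5, Finset.mem_filter, Finset.mem_Icc]
  rcases hp with hp | hp
  · have h3 := hp.1
    rw [primes5, Finset.mem_filter, Finset.mem_Icc] at h3
    exact ⟨⟨h3.1.1, h3.1.2.trans (le_max_left _ _)⟩, h3.2⟩
  · refine ⟨⟨(hP p hp).2, ?_⟩, (hP p hp).1⟩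
    exact (Finset.le_sup (f := id) hp).trans (le_max_right _ _)

/-- The general count: forms with a condition modulo `k`, where `k` is prime to all primes `p ≥ 5`
outside `P`, whose discriminant is squarefree outside `6`. -/
theorem genCountP (h1 : StUp) (h4 : StCRT) (h5 : StDP) (h6 : StEuler) (P : Finset ℕ)
    (hP : ∀ p ∈ P, p.Prime ∧ 5 ≤ p)
    (k c : ℕ) (hk0 : 0 < k) (hk : ∀ p : ℕ, p.Prime → 5 ≤ p → p ∉ P → ¬ p ∣ k)
    (S : Finset (Fin 4 → ZMod k)) (hS : S.card ≤ c) (ε : ℝ) (hε : 0 < ε) :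
    ∃ X₀ : ℕ, ∀ X : ℕ, X₀ ≤ X →
      {v : Fin 4 → ℤ | Red v ∧ HD v ≤ (X : ℤ) ∧ red k v ∈ S ∧
        ∀ p : ℕ, p.Prime → 5 ≤ p → ¬ (p : ℤ) ^ 2 ∣ HD v}.Finite ∧
      ({v : Fin 4 → ℤ | Red v ∧ HD v ≤ (X : ℤ) ∧ red k v ∈ S ∧
        ∀ p : ℕ, p.Prime → 5 ≤ p → ¬ (p : ℤ) ^ 2 ∣ HD v}.ncard : ℝ) ≤
        (27 / (2 * Real.pi ^ 2) * (c : ℝ) / (k : ℝ) ^ 4 /
          (∏ p ∈ P, (1 - 1 / (p : ℝ) ^ 2)) ^ 2 + ε) * X := by
  have hpi : 0 < Real.pi := Real.pi_pos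
  have hpi3 : 3 < Real.pi := Real.pi_gt_three
  have hkR : (0 : ℝ) < k := by exact_mod_cast hk0
  have hρ0 : 0 < ∏ p ∈ P, (1 - 1 / (p : ℝ) ^ 2) :=
    Finset.prod_pos fun p hp => fac_pos (hP p hp).2
  have hout : ∀ Q : ℕ, ∀ x : ℝ, ∏ p ∈ primes5 Q, (1 - 1 / (p : ℝ) ^ 2) ≤ x →
    ∏ p ∈ primes5 Q \ P, (1 - 1 / (p : ℝ) ^ 2) ≤ x / ∏ p ∈ P, (1 - 1 / (p : ℝ) ^ 2) :=
    fun Q x hx => prod_out_le hP Q hx
  generalize (∏ p ∈ P, (1 - 1 / (p : ℝ) ^ 2)) = ρ at hρ0 hout ⊢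
  -- constants
  set κ : ℝ := Real.pi ^ 2 / 6 * ((c : ℝ) / (k : ℝ) ^ 4) / ρ ^ 2 with hκ
  have hκ0 : 0 ≤ κ := by positivity
  obtain ⟨e, he0, he1, he⟩ : ∃ e : ℝ, 0 < e ∧ e ≤ 1 ∧ κ * (3 * e) ≤ ε / 2 := by
    refine ⟨min 1 (ε / (6 * (κ + 1))), lt_min one_pos (by positivity), min_le_left _ _, ?_⟩
    have h : min 1 (ε / (6 * (κ + 1))) ≤ ε / (6 * (κ + 1)) := min_le_right _ _
    have h' : κ * (3 * min 1 (ε / (6 * (κ + 1)))) ≤ κ * (3 * (ε / (6 * (κ + 1)))) := by gcongr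
    refine h'.trans ?_
    have : κ * (3 * (ε / (6 * (κ + 1)))) = (κ / (κ + 1)) * (ε / 2) := by
      field_simp
      ring
    rw [this]
    have h3 : κ / (κ + 1) ≤ 1 := by
      rw [div_le_one (by positivity)]
      linarith
    nlinarith
  obtain ⟨Q, hQ⟩ := h6.2 e he0
  have hQ' := h6.1 Q
  have hmem : ∀ p ∈ primes5 Q \ P, (p.Prime ∧ 5 ≤ p) ∧ p ∉ P := by
    intro p hp
    rw [Finset.mem_sdiff] at hp
    exact ⟨mem5 hp.1, hp.2⟩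
  obtain ⟨N, hN, hN0, U5, hU5, hU5'⟩ := prod_aux h5 h4 (primes5 Q \ P) fun p hp => (hmem p hp).1
  have hPQ := hout Q _ hQ
  have hPp : 0 ≤ ∏ p ∈ primes5 Q \ P, (1 - 1 / (p : ℝ) ^ 2) :=
    Finset.prod_nonneg fun p hp => (fac_pos (hmem p hp).1.2).le
  have hprod : ∏ p ∈ primes5 Q \ P, ((p : ℝ) ^ 8 * (1 - 1 / (p : ℝ) ^ 2) ^ 2) =
      (N : ℝ) ^ 4 * (∏ p ∈ primes5 Q \ P, (1 - 1 / (p : ℝ) ^ 2)) ^ 2 := by
    have hN8 : (N : ℝ) ^ 4 = ∏ p ∈ primes5 Q \ P, (p : ℝ) ^ 8 := by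
      rw [hN, Nat.cast_prod, ← Finset.prod_pow]
      refine Finset.prod_congr rfl fun p _ => ?_
      push_cast
      ring
    rw [hN8, ← Finset.prod_pow, ← Finset.prod_mul_distrib]
  rw [hprod] at hU5
  generalize (∏ p ∈ primes5 Q \ P, (1 - 1 / (p : ℝ) ^ 2)) = p₀ at hPQ hPp hU5
  have hNR : (0 : ℝ) < N := by exact_mod_cast hN0
  -- coprimality
  have hc2 : Nat.Coprime k N := by
    rw [hN]
    refine Nat.Coprime.prod_right fun p hp => ?_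
    refine Nat.Coprime.pow_right 2 ?_
    obtain ⟨⟨hpp, hp5⟩, hpP⟩ := hmem p hp
    rw [Nat.coprime_comm, Nat.Prime.coprime_iff_not_dvd hpp]
    exact hk p hpp hp5 hpP
  obtain ⟨U, hU, hU'⟩ := h4 k N hk0 hN0 hc2 S U5
  obtain ⟨X₀, hX₀⟩ := h1.2 (k * N) (by positivity) U (ε / 2) (by positivity)
  have hcard : (U.card : ℝ) ≤ c * ((N : ℝ) ^ 4 * p₀ ^ 2) := by
    have a1 : (U.card : ℝ) ≤ (S.card : ℝ) * U5.card := by exact_mod_cast hU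
    have a4 : (S.card : ℝ) ≤ c := by exact_mod_cast hS
    exact a1.trans (mul_le_mul a4 hU5 (by positivity) (by positivity))
  have hPsq : p₀ ^ 2 ≤ (81 / Real.pi ^ 4 + 3 * e) / ρ ^ 2 := by
    have b1 : 0 < 9 / Real.pi ^ 2 := by positivity
    have b2 : 9 / Real.pi ^ 2 ≤ 1 := by
      rw [div_le_one (by positivity)]
      nlinarith
    have b3 : p₀ ^ 2 ≤ ((9 / Real.pi ^ 2 + e) / ρ) ^ 2 := pow_le_pow_left₀ hPp hPQ 2
    refine b3.trans ?_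
    rw [div_pow]
    gcongr
    have b4 : (9 / Real.pi ^ 2 + e) ^ 2 = 81 / Real.pi ^ 4 + (2 * (9 / Real.pi ^ 2) * e + e * e) := by
      field_simp
      ring
    rw [b4]
    nlinarith
  have hmain : Real.pi ^ 2 / 6 * (U.card : ℝ) / ((k * N : ℕ) : ℝ) ^ 4 + ε / 2 ≤
      27 / (2 * Real.pi ^ 2) * (c : ℝ) / (k : ℝ) ^ 4 / ρ ^ 2 + ε := by
    have d1 : Real.pi ^ 2 / 6 * (U.card : ℝ) / ((k * N : ℕ) : ℝ) ^ 4 ≤
        Real.pi ^ 2 / 6 * (c * ((N : ℝ) ^ 4 * p₀ ^ 2)) / ((k * N : ℕ) : ℝ) ^ 4 := by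
      gcongr
    have d2 : Real.pi ^ 2 / 6 * (c * ((N : ℝ) ^ 4 * p₀ ^ 2)) / ((k * N : ℕ) : ℝ) ^ 4 =
        κ * ρ ^ 2 * p₀ ^ 2 := by
      rw [hκ]
      push_cast
      field_simp
    have d3 : κ * ρ ^ 2 * p₀ ^ 2 ≤ κ * ρ ^ 2 * ((81 / Real.pi ^ 4 + 3 * e) / ρ ^ 2) := by gcongr
    have d4 : κ * (81 / Real.pi ^ 4) = 27 / (2 * Real.pi ^ 2) * (c : ℝ) / (k : ℝ) ^ 4 / ρ ^ 2 := by
      rw [hκ]
      field_simp
      ring
    have d5 : κ * ρ ^ 2 * ((81 / Real.pi ^ 4 + 3 * e) / ρ ^ 2) =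
        κ * (81 / Real.pi ^ 4) + κ * (3 * e) := by
      have : ρ ^ 2 ≠ 0 := by positivity
      field_simp
    rw [d2] at d1
    rw [d5, d4] at d3
    linarith
  refine ⟨X₀, fun X hX => ?_⟩
  have hsub : {v : Fin 4 → ℤ | Red v ∧ HD v ≤ (X : ℤ) ∧ red k v ∈ S ∧
        ∀ p : ℕ, p.Prime → 5 ≤ p → ¬ (p : ℤ) ^ 2 ∣ HD v} ⊆
      {v : Fin 4 → ℤ | Red v ∧ HD v ≤ (X : ℤ) ∧ red (k * N) v ∈ U} := by
    rintro v ⟨hr, hX, hkS, hp⟩
    exact ⟨hr, hX, hU' v hkS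
      (hU5' v fun p hp' => hp p (hmem p hp').1.1 (hmem p hp').1.2)⟩
  have hfin : {v : Fin 4 → ℤ | Red v ∧ HD v ≤ (X : ℤ) ∧ red (k * N) v ∈ U}.Finite := by
    refine (h1.1 (X : ℝ)).subset ?_
    rintro v ⟨hr, hX, -⟩
    exact ⟨hr, by exact_mod_cast hX⟩
  refine ⟨hfin.subset hsub, ?_⟩
  have hle : ({v : Fin 4 → ℤ | Red v ∧ HD v ≤ (X : ℤ) ∧ red k v ∈ S ∧
        ∀ p : ℕ, p.Prime → 5 ≤ p → ¬ (p : ℤ) ^ 2 ∣ HD v}.ncard : ℝ) ≤
      ({v : Fin 4 → ℤ | Red v ∧ HD v ≤ (X : ℤ) ∧ red (k * N) v ∈ U}.ncard : ℝ) := by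
    exact_mod_cast Set.ncard_le_ncard hsub hfin
  refine (hle.trans (hX₀ X hX)).trans ?_
  exact mul_le_mul_of_nonneg_right hmain (by positivity)

/-! ### The number of integers -/

section

open NF GenNF

variable {A : ℕ → Prop} {m : ℕ}

open Classical in
theorem count_SSP (hm : 0 < m) (hA : ∀ x, A (x + m) ↔ A x) (s : Finset ℕ)
    (hs : ∀ p ∈ s, p.Prime ∧ 5 ≤ p) (hms : ∀ p ∈ s, ¬ p ∣ m) :
    ((range m).filter A).card * ∏ p ∈ s, (p ^ 2 - 1) ≤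
      ((range (m * ∏ p ∈ s, p ^ 2)).filter (SS A s)).card := by
  induction s using Finset.induction_on with
  | empty =>
    have h1 : (range m).filter (SS A ∅) = (range m).filter A := by
      ext x
      simp [SS]
    rw [Finset.prod_empty, Finset.prod_empty, mul_one, mul_one, h1]
  | insert a s ha ih =>
    have ih' := ih (fun p hp => hs p (Finset.mem_insert_of_mem hp))
      (fun p hp => hms p (Finset.mem_insert_of_mem hp))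
    obtain ⟨hap, ha5⟩ := hs a (Finset.mem_insert_self a s)
    rw [Finset.prod_insert ha, Finset.prod_insert ha]
    have hm' : 0 < m * ∏ p ∈ s, p ^ 2 := by
      refine Nat.mul_pos hm (Finset.prod_pos fun p hp => ?_)
      have := (hs p (Finset.mem_insert_of_mem hp)).2
      positivity
    have hc : (m * ∏ p ∈ s, p ^ 2).Coprime (a ^ 2) := by
      refine Nat.Coprime.pow_right 2 (Nat.Coprime.mul_left ?_ ?_)
      · rw [Nat.coprime_comm, Nat.Prime.coprime_iff_not_dvd hap]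
        exact hms a (Finset.mem_insert_self a s)
      refine Nat.Coprime.prod_left fun p hp => Nat.Coprime.pow_left 2 ?_
      rw [Nat.coprime_primes (hs p (Finset.mem_insert_of_mem hp)).1 hap]
      rintro rfl
      exact ha hp
    have h1 := count_step hm' (SS_period hA s) hc
    have h2 : (range (m * (a ^ 2 * ∏ p ∈ s, p ^ 2))).filter (SS A (insert a s)) =
        (range (m * (∏ p ∈ s, p ^ 2) * a ^ 2)).filter fun x => SS A s x ∧ ¬ a ^ 2 ∣ x := by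
      rw [show m * (a ^ 2 * ∏ p ∈ s, p ^ 2) = m * (∏ p ∈ s, p ^ 2) * a ^ 2 by ring]
      refine Finset.filter_congr fun x _ => ?_
      unfold SS
      rw [Finset.forall_mem_insert]
      tauto
    rw [h2]
    refine le_trans ?_ h1
    calc ((range m).filter A).card * ((a ^ 2 - 1) * ∏ p ∈ s, (p ^ 2 - 1))
        = (a ^ 2 - 1) * (((range m).filter A).card * ∏ p ∈ s, (p ^ 2 - 1)) := by ring
      _ ≤ _ := Nat.mul_le_mul_left _ ih'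

open Classical in
/-- The sifted set in reals. -/
theorem count_realP (hm : 0 < m) (hA : ∀ x, A (x + m) ↔ A x) (s : Finset ℕ)
    (hs : ∀ p ∈ s, p.Prime ∧ 5 ≤ p) (hms : ∀ p ∈ s, ¬ p ∣ m) :
    ((m * ∏ p ∈ s, p ^ 2 : ℕ) : ℝ) * (((range m).filter A).card / m *
        ∏ p ∈ s, (1 - 1 / (p : ℝ) ^ 2)) ≤
      (((range (m * ∏ p ∈ s, p ^ 2)).filter (SS A s)).card : ℝ) := by
  have h1 : ((((range m).filter A).card * ∏ p ∈ s, (p ^ 2 - 1) : ℕ) : ℝ) ≤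
      (((range (m * ∏ p ∈ s, p ^ 2)).filter (SS A s)).card : ℝ) := by
    exact_mod_cast count_SSP hm hA s hs hms
  refine le_trans (le_of_eq ?_) h1
  have hmr : (m : ℝ) ≠ 0 := by
    have : m ≠ 0 := by omega
    exact_mod_cast this
  push_cast
  rw [show (m : ℝ) * (∏ p ∈ s, (p : ℝ) ^ 2) * (((range m).filter A).card / m *
      ∏ p ∈ s, (1 - 1 / (p : ℝ) ^ 2)) =
    ((range m).filter A).card * ((∏ p ∈ s, (p : ℝ) ^ 2) * ∏ p ∈ s, (1 - 1 / (p : ℝ) ^ 2)) by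
      field_simp, ← Finset.prod_mul_distrib]
  congr 1
  refine Finset.prod_congr rfl fun p hp => ?_
  have h5 := (hs p hp).2
  have hp0 : (p : ℝ) ≠ 0 := by
    have : p ≠ 0 := by omega
    exact_mod_cast this
  rw [Nat.cast_sub (Nat.one_le_pow _ _ (by omega))]
  push_cast
  field_simp

open Classical in
/-- Lower bound for the number of elements of the sifted set up to `X`. -/
theorem count_XP (hm : 0 < m) (hA : ∀ x, A (x + m) ↔ A x) (s : Finset ℕ)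
    (hs : ∀ p ∈ s, p.Prime ∧ 5 ≤ p) (hms : ∀ p ∈ s, ¬ p ∣ m) (c : ℝ)
    (hc0 : 0 ≤ c) (hc1 : c ≤ 1)
    (hc : c ≤ ((range m).filter A).card / m * ∏ p ∈ s, (1 - 1 / (p : ℝ) ^ 2)) (X : ℕ) :
    c * X - (m * ∏ p ∈ s, p ^ 2 : ℕ) ≤ (((range (X + 1)).filter (SS A s)).card : ℝ) := by
  have h1 := count_realP hm hA s hs hms
  have h2 := count_mul (SS_period hA s) ((X + 1) / (m * ∏ p ∈ s, p ^ 2))
  have hM0 : 0 < m * ∏ p ∈ s, p ^ 2 := by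
    refine Nat.mul_pos hm (Finset.prod_pos fun p hp => ?_)
    have := (hs p hp).2
    positivity
  generalize m * ∏ p ∈ s, p ^ 2 = M at h1 h2 hM0 ⊢
  have h3 : ((range ((X + 1) / M * M)).filter (SS A s)).card ≤
      ((range (X + 1)).filter (SS A s)).card := by
    refine Finset.card_le_card (Finset.filter_subset_filter _ ?_)
    exact Finset.range_subset_range.2 (Nat.div_mul_le_self _ _)
  have h4 : (X : ℝ) - M ≤ ((X + 1) / M : ℕ) * M := by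
    have h5 := Nat.lt_div_mul_add (a := X + 1) hM0
    have h6 : ((X + 1 : ℕ) : ℝ) < (((X + 1) / M * M + M : ℕ) : ℝ) := by exact_mod_cast h5
    push_cast at h6
    linarith
  have h7 : (M : ℝ) * c ≤ (((range M).filter (SS A s)).card : ℝ) :=
    (mul_le_mul_of_nonneg_left hc (Nat.cast_nonneg _)).trans h1
  have h8 : ((((X + 1) / M : ℕ) : ℝ) * (M * c)) ≤
      (((range (X + 1)).filter (SS A s)).card : ℝ) := by
    calc ((((X + 1) / M : ℕ) : ℝ) * (M * c))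
        ≤ (((X + 1) / M : ℕ) : ℝ) * (((range M).filter (SS A s)).card : ℝ) :=
          mul_le_mul_of_nonneg_left h7 (Nat.cast_nonneg _)
      _ = ((((X + 1) / M * ((range M).filter (SS A s)).card : ℕ)) : ℝ) := by push_cast; ring
      _ = (((range ((X + 1) / M * M)).filter (SS A s)).card : ℝ) := by rw [h2]
      _ ≤ _ := by exact_mod_cast h3
  have hmr : (0 : ℝ) ≤ M := Nat.cast_nonneg _
  nlinarith [mul_le_mul_of_nonneg_right h4 hc0, mul_le_mul_of_nonneg_left hc1 hmr]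


theorem not_sfP {P : Finset ℕ} {Q x : ℕ} (hxP : ∀ p ∈ P, ¬ p ^ 2 ∣ x) (hx0 : 0 < x)
    (hx : SS A (primes5 Q \ P) x) (hf : ¬ ∀ p : ℕ, p.Prime → 5 ≤ p → ¬ p ^ 2 ∣ x) :
    ∃ n, Q < n ∧ n ≤ x ∧ n ^ 2 ∣ x := by
  push Not at hf
  obtain ⟨p, hp, hp5, hpx⟩ := hf
  refine ⟨p, ?_, ?_, hpx⟩
  · by_contra h
    refine hx.2 p ?_ hpx
    rw [Finset.mem_sdiff]
    refine ⟨?_, fun hpP => hxP p hpP hpx⟩
    unfold primes5
    rw [Finset.mem_filter, Finset.mem_Icc]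
    exact ⟨⟨hp5, not_lt.1 h⟩, hp⟩
  · have h6 := Nat.le_of_dvd hx0 hpx
    have h7 : p ≤ p ^ 2 := Nat.le_self_pow two_ne_zero p
    omega

open Classical in
/-- The number of integers which satisfy a periodic condition and are squarefree outside `6`. -/
theorem genNFP (h : StEuler) (P : Finset ℕ) (hP : ∀ p ∈ P, p.Prime ∧ 5 ≤ p)
    {A : ℕ → Prop} {m : ℕ} (hm : 0 < m)
    (hm5 : ∀ p : ℕ, p.Prime → 5 ≤ p → p ∉ P → ¬ p ∣ m)
    (hAP : ∀ x, A x → ∀ p ∈ P, ¬ p ^ 2 ∣ x) (hA : ∀ x, A (x + m) ↔ A x) (hA0 : ¬ A 0)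
    (t : ℕ) (ht : t ≤ ((range m).filter A).card) (ε : ℝ) (hε : 0 < ε) :
    ∃ X₀ : ℕ, ∀ X : ℕ, X₀ ≤ X → (9 / Real.pi ^ 2 * (t : ℝ) / m / (∏ p ∈ P, (1 - 1 / (p : ℝ) ^ 2)) - ε) * X ≤
      ({Δ : ℕ | Δ ≤ X ∧ A Δ ∧ ∀ p : ℕ, p.Prime → 5 ≤ p → ¬ p ^ 2 ∣ Δ}.ncard : ℝ) := by
  have hπ : (0 : ℝ) < Real.pi ^ 2 := by positivity
  obtain ⟨Q, hQ⟩ := exists_nat_gt (2 / ε)
  have hQ0 : (0 : ℝ) < Q := lt_trans (by positivity) hQ
  have hQ0' : Q ≠ 0 := by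
    rintro rfl
    simp at hQ0
  have hs : ∀ p ∈ primes5 Q \ P, p.Prime ∧ 5 ≤ p := fun p hp => mem5 (Finset.mem_sdiff.1 hp).1
  have hms : ∀ p ∈ primes5 Q \ P, ¬ p ∣ m := fun p hp =>
    hm5 p (hs p hp).1 (hs p hp).2 (Finset.mem_sdiff.1 hp).2
  have hlow := le_prod_out hP Q h.1
  have hone : ∏ p ∈ primes5 Q \ P, (1 - 1 / (p : ℝ) ^ 2) ≤ 1 :=
    Finset.prod_le_one (fun p hp => (fac_pos (hs p hp).2).le) (fun p _ => fac_le p)
  have hρ0 : 0 < ∏ p ∈ P, (1 - 1 / (p : ℝ) ^ 2) :=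
    Finset.prod_pos fun p hp => fac_pos (hP p hp).2
  generalize (∏ p ∈ P, (1 - 1 / (p : ℝ) ^ 2)) = ρ at hlow hρ0 ⊢
  obtain ⟨X₀, hX₀⟩ := exists_nat_gt (2 * ((m * ∏ p ∈ primes5 Q \ P, p ^ 2 : ℕ) : ℝ) / ε)
  refine ⟨X₀, fun X hX => ?_⟩
  have hmr : (0 : ℝ) < m := by exact_mod_cast hm
  have htm : (t : ℝ) ≤ m := by
    have h1 := ht.trans (Finset.card_filter_le _ _)
    rw [Finset.card_range] at h1
    exact_mod_cast h1
  have h2 : 9 / Real.pi ^ 2 * (t : ℝ) / m / ρ = (t : ℝ) / m * (9 / Real.pi ^ 2 / ρ) := by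
    field_simp
  have h4 : (0 : ℝ) < 9 / Real.pi ^ 2 / ρ := by positivity
  have hc1 : 9 / Real.pi ^ 2 * (t : ℝ) / m / ρ ≤ 1 := by
    rw [h2]
    have h5 : (t : ℝ) / m ≤ 1 := (div_le_one hmr).2 htm
    have h6 : 9 / Real.pi ^ 2 / ρ ≤ 1 := hlow.trans hone
    have h7 : (0 : ℝ) ≤ (t : ℝ) / m := by positivity
    nlinarith
  have hc : 9 / Real.pi ^ 2 * (t : ℝ) / m / ρ ≤
      ((range m).filter A).card / m * ∏ p ∈ primes5 Q \ P, (1 - 1 / (p : ℝ) ^ 2) := by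
    rw [h2]
    have h3 : (t : ℝ) ≤ ((range m).filter A).card := by exact_mod_cast ht
    refine mul_le_mul ?_ hlow h4.le (by positivity)
    exact div_le_div_of_nonneg_right h3 hmr.le
  have h1 := count_XP hm hA (primes5 Q \ P) hs hms (9 / Real.pi ^ 2 * (t : ℝ) / m / ρ)
    (by positivity) hc1 hc X
  generalize m * ∏ p ∈ primes5 Q \ P, p ^ 2 = M at h1 hX₀
  -- the set
  have hfin : {Δ : ℕ | Δ ≤ X ∧ A Δ ∧ ∀ p : ℕ, p.Prime → 5 ≤ p → ¬ p ^ 2 ∣ Δ}.Finite :=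
    (Set.finite_Iic X).subset fun Δ hΔ => hΔ.1
  have hsub : (range (X + 1)).filter (SS A (primes5 Q \ P)) ⊆
      hfin.toFinset ∪ (Ioc Q X).biUnion fun n => (Ioc 0 X).filter fun x => n ^ 2 ∣ x := by
    intro x hx
    rw [Finset.mem_filter, Finset.mem_range] at hx
    rw [Finset.mem_union]
    have hx0 : 0 < x := by
      rcases Nat.eq_zero_or_pos x with h0 | h0
      · rw [h0] at hx
        exact absurd hx.2.1 hA0
      · exact h0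
    by_cases hf : ∀ p : ℕ, p.Prime → 5 ≤ p → ¬ p ^ 2 ∣ x
    · left
      rw [Set.Finite.mem_toFinset]
      exact ⟨by omega, hx.2.1, hf⟩
    · right
      obtain ⟨n, hn1, hn2, hn3⟩ := not_sfP (hAP x hx.2.1) hx0 hx.2 hf
      rw [Finset.mem_biUnion]
      refine ⟨n, Finset.mem_Ioc.2 ⟨hn1, by omega⟩, ?_⟩
      rw [Finset.mem_filter, Finset.mem_Ioc]
      exact ⟨⟨hx0, by omega⟩, hn3⟩
  have h2 : (((range (X + 1)).filter (SS A (primes5 Q \ P))).card : ℝ) ≤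
      ({Δ : ℕ | Δ ≤ X ∧ A Δ ∧ ∀ p : ℕ, p.Prime → 5 ≤ p → ¬ p ^ 2 ∣ Δ}.ncard : ℝ) +
        X * (Q : ℝ)⁻¹ := by
    have h3 := (Finset.card_le_card hsub).trans (Finset.card_union_le _ _)
    rw [← Set.ncard_eq_toFinset_card _ hfin] at h3
    have h4 : (((Ioc Q X).biUnion fun n => (Ioc 0 X).filter fun x => n ^ 2 ∣ x).card : ℝ) ≤
        X * (Q : ℝ)⁻¹ := by
      have h5 : (((Ioc Q X).biUnion fun n => (Ioc 0 X).filter fun x => n ^ 2 ∣ x).card : ℝ) ≤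
          ∑ n ∈ Ioc Q X, (((Ioc 0 X).filter fun x => n ^ 2 ∣ x).card : ℝ) := by
        exact_mod_cast Finset.card_biUnion_le
      refine h5.trans ?_
      have h6 : ∀ n ∈ Ioc Q X, (((Ioc 0 X).filter fun x => n ^ 2 ∣ x).card : ℝ) ≤
          X * ((n : ℝ) ^ 2)⁻¹ := by
        intro n _
        rw [Nat.Ioc_filter_dvd_card_eq_div]
        refine (Nat.cast_div_le).trans ?_
        rw [div_eq_mul_inv]
        push_cast
        exact le_rfl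
      refine (Finset.sum_le_sum h6).trans ?_
      rw [← Finset.mul_sum]
      refine mul_le_mul_of_nonneg_left ?_ (Nat.cast_nonneg _)
      by_cases hQX : Q ≤ X
      · refine (sum_Ioc_inv_sq_le_sub hQ0' hQX).trans ?_
        have : (0 : ℝ) ≤ (X : ℝ)⁻¹ := by positivity
        linarith
      · rw [Finset.Ioc_eq_empty (by omega), Finset.sum_empty]
        positivity
    have h7 : (((range (X + 1)).filter (SS A (primes5 Q \ P))).card : ℝ) ≤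
        (({Δ : ℕ | Δ ≤ X ∧ A Δ ∧ ∀ p : ℕ, p.Prime → 5 ≤ p → ¬ p ^ 2 ∣ Δ}.ncard +
          ((Ioc Q X).biUnion fun n => (Ioc 0 X).filter fun x => n ^ 2 ∣ x).card : ℕ) : ℝ) := by
      exact_mod_cast h3
    push_cast at h7
    linarith
  have hXX : (X₀ : ℝ) ≤ X := by exact_mod_cast hX
  have h8 : (M : ℝ) ≤ ε / 2 * X := by
    have h9 : 2 * (M : ℝ) / ε ≤ X := hX₀.le.trans hXX
    rw [div_le_iff₀ hε] at h9
    linarith
  have h10 : (X : ℝ) * (Q : ℝ)⁻¹ ≤ ε / 2 * X := by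
    have h11 : (Q : ℝ)⁻¹ ≤ ε / 2 := by
      rw [inv_le_comm₀ hQ0 (by positivity)]
      refine le_trans (le_of_eq ?_) hQ.le
      field_simp
    have hX0 : (0 : ℝ) ≤ X := Nat.cast_nonneg _
    nlinarith
  have h12 : (9 / Real.pi ^ 2 * (t : ℝ) / m / ρ - ε) * X =
      9 / Real.pi ^ 2 * (t : ℝ) / m / ρ * X - ε / 2 * X - ε / 2 * X := by ring
  rw [h12]
  linarith


end

end LocP

end BKDH
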