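import Pool.Agent.Lib.MP_7c08ba_nt.DH.Coord
import Pool.Agent.Lib.MP_7c08ba_nt.DH.Form

/-!
Lattices and forms attached to elements of norm one of an imaginary quadratic field, without
conditions at `3`.
-/

set_option autoImplicit false

namespace BKDH

/-- Data of an imaginary quadratic field: `σ` is complex conjugation, `s` a square root of the
discriminant `-Δ`. -/
structure QG (F : Type) [Field F] [NumberField F] (Δ : ℕ) (s : F) (σ : F →+* F) : Prop where
  fund : IsFund Δ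
  s2 : s ^ 2 = -(Δ : F)
  deg : Module.finrank ℚ F = 2
  conj : σ s = -s

/-- Integral elements in coordinates. -/
def CoordG (F : Type) [Field F] [NumberField F] (s : F) (σ : F →+* F) : Prop :=
  (∀ z : F, ∃ x y : ℚ, z = x + y * s) ∧ (∀ z : F, σ (σ z) = z) ∧
    (∀ z : F, IsIntegral ℤ z → ∃ n : ℤ, z - σ z = n * s) ∧
    (∀ z : F, IsIntegral ℤ z → σ z = z → ∃ n : ℤ, z = n) ∧
    (∃ ω : F, IsIntegral ℤ ω ∧ ω - σ ω = s) ∧ IsIntegral ℤ s ∧ s ≠ 0 ∧
    (∀ z : F, z ≠ 0 → ∃ q : ℚ, 0 < q ∧ z * σ z = q)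

open Coord in
/-- Integral elements in coordinates. -/
theorem coordG {F : Type} [Field F] [NumberField F] {Δ : ℕ} {s : F} {σ : F →+* F}
    (hQ : QG F Δ s σ) : CoordG F s σ := by
  obtain ⟨hf, hs2, hdeg, hσ⟩ := hQ
  have hΔ : 0 < Δ := by
    have h2 := hf.1
    unfold F2 at h2
    omega
  have hs0 : s ≠ 0 := by
    rintro rfl
    have : (Δ : F) = 0 := by simpa using hs2.symm
    exact hΔ.ne' (by exact_mod_cast this)
  -- `s` is not rational
  have hsq : ∀ q : ℚ, (q : F) ≠ s := by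
    intro q hq
    have h1 : ((q ^ 2 : ℚ) : F) = ((-(Δ : ℚ) : ℚ) : F) := by
      push_cast
      rw [hq, hs2]
    have h2 : q ^ 2 = -(Δ : ℚ) := by exact_mod_cast h1
    have h3 : (0 : ℚ) < Δ := by exact_mod_cast hΔ
    nlinarith [sq_nonneg q]
  have hlin : LinearIndependent ℚ ![(1 : F), s] := by
    rw [LinearIndependent.pair_iff]
    intro a b hab
    have hab' : (a : F) + (b : F) * s = 0 := by
      simpa [Algebra.smul_def] using hab
    have hb : b = 0 := by
      by_contra hb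
      have hb' : (b : F) ≠ 0 := by exact_mod_cast hb
      refine hsq (-a / b) ?_
      push_cast
      rw [div_eq_iff hb']
      linear_combination -hab'
    rw [hb] at hab'
    refine ⟨?_, hb⟩
    have : (a : F) = 0 := by simpa using hab'
    exact_mod_cast this
  have h1 : ∀ z : F, ∃ x y : ℚ, z = x + y * s := by
    intro z
    have hcard : Fintype.card (Fin 2) = Module.finrank ℚ F := by rw [hdeg]; rfl
    have : FiniteDimensional ℚ F := inferInstance
    have hspan := hlin.span_eq_top_of_card_eq_finrank' hcard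
    have hz : z ∈ Submodule.span ℚ (Set.range ![(1 : F), s]) := by
      rw [hspan]
      trivial
    rw [Matrix.range_cons, Matrix.range_cons, Matrix.range_empty, Set.union_empty,
      ← Set.insert_eq, Submodule.mem_span_pair] at hz
    obtain ⟨a, b, hab⟩ := hz
    exact ⟨a, b, by rw [← hab]; simp [Algebra.smul_def]⟩
  have hσz : ∀ x y : ℚ, σ ((x : F) + y * s) = x - y * s := by
    intro x y
    rw [map_add, map_mul, map_ratCast, map_ratCast, hσ]
    ring
  have h2 : ∀ z : F, σ (σ z) = z := by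
    intro z
    obtain ⟨x, y, rfl⟩ := h1 z
    rw [hσz, map_sub, map_mul, map_ratCast, map_ratCast, hσ]
    ring
  have hnorm : ∀ x y : ℚ, ((x : F) + y * s) * σ ((x : F) + y * s) =
      ((x ^ 2 + Δ * y ^ 2 : ℚ) : F) := by
    intro x y
    rw [hσz]
    push_cast
    linear_combination -(y : F) ^ 2 * hs2
  have hint : ∀ z : F, IsIntegral ℤ z → IsIntegral ℤ (σ z) := by
    intro z hz
    exact hz.map (σ.toIntAlgHom)
  have h3 : ∀ z : F, IsIntegral ℤ z → ∃ n : ℤ, z - σ z = n * s := by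
    intro z hz
    obtain ⟨x, y, rfl⟩ := h1 z
    have hi := hint _ hz
    obtain ⟨T, hT⟩ : ∃ T : ℤ, 2 * x = T := by
      apply int_of_integral (F := F)
      have := hz.add hi
      rw [hσz] at this
      have h4 : ((x : F) + y * s) + (x - y * s) = ((2 * x : ℚ) : F) := by
        push_cast
        ring
      rwa [h4] at this
    obtain ⟨N, hN⟩ : ∃ N : ℤ, x ^ 2 + Δ * y ^ 2 = N := by
      apply int_of_integral (F := F)
      rw [← hnorm]
      exact hz.mul hi
    obtain ⟨k, hk⟩ := int_of_sq Δ hf (2 * y) T N (by rw [← hN, ← hT]; ring)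
    refine ⟨k, ?_⟩
    rw [hσz]
    have : (k : F) = ((2 * y : ℚ) : F) := by rw [hk]; simp
    rw [this]
    push_cast
    ring
  have hs_int : IsIntegral ℤ s := by
    refine IsIntegral.of_pow (n := 2) (by norm_num) ?_
    rw [hs2]
    exact (isIntegral_natCast (a := Δ)).neg
  refine ⟨h1, h2, h3, ?_, ?_, hs_int, hs0, ?_⟩
  · intro z hz hzz
    obtain ⟨x, y, rfl⟩ := h1 z
    rw [hσz] at hzz
    have hy : (y : F) * s = 0 := by linear_combination (-1 / 2 : F) * hzz
    rw [hy, add_zero] at hz ⊢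
    obtain ⟨n, hn⟩ := int_of_integral (F := F) x hz
    exact ⟨n, by rw [hn]; simp⟩
  · have h2' := hf.1
    unfold F2 at h2'
    by_cases h4 : (Δ : ℤ) % 4 = 3
    · obtain ⟨m, hm⟩ : ∃ m : ℕ, Δ + 1 = 4 * m := ⟨(Δ + 1) / 4, by omega⟩
      have hmF : (Δ : F) + 1 = 4 * m := by exact_mod_cast hm
      refine ⟨(1 + s) / 2, ?_, ?_⟩
      · have h5 : ((1 + s) / 2 : F) * ((1 + s) / 2 - 1) = -(m : F) := by
          have : ((1 + s) / 2 : F) * ((1 + s) / 2 - 1) = (s ^ 2 - 1) / 4 := by ring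
          rw [this, hs2]
          linear_combination (-1 / 4 : F) * hmF
        refine ⟨Polynomial.X ^ 2 - Polynomial.X + Polynomial.C (m : ℤ), ?_, ?_⟩
        · monicity!
        · simp only [Polynomial.eval₂_add, Polynomial.eval₂_sub, Polynomial.eval₂_pow,
            Polynomial.eval₂_X, Polynomial.eval₂_C]
          have : (algebraMap ℤ F) (m : ℤ) = (m : F) := by simp
          rw [this]
          linear_combination h5
      · rw [map_div₀, map_add, map_one, hσ, map_ofNat]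
        ring
    · have h5 : 4 ∣ Δ := by omega
      obtain ⟨m, hm⟩ := h5
      refine ⟨s / 2, ?_, ?_⟩
      · refine IsIntegral.of_pow (n := 2) (by norm_num) ?_
        have : (s / 2) ^ 2 = -(m : F) := by
          rw [div_pow, hs2, hm]
          push_cast
          ring
        rw [this]
        exact (isIntegral_natCast (a := m)).neg
      · rw [map_div₀, hσ, map_ofNat]
        ring
  · intro z hz
    obtain ⟨x, y, rfl⟩ := h1 z
    refine ⟨x ^ 2 + Δ * y ^ 2, ?_, hnorm x y⟩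
    have h3' : (0 : ℚ) < Δ := by exact_mod_cast hΔ
    by_cases hy : y = 0
    · have hx : x ≠ 0 := by
        rintro rfl
        apply hz
        rw [hy]
        simp
      have := pow_pos (abs_pos.2 hx) 2
      rw [sq_abs] at this
      rw [hy]
      simpa using this
    · have := pow_pos (abs_pos.2 hy) 2
      rw [sq_abs] at this
      nlinarith [sq_nonneg x, mul_pos h3' this]

/-- A reduced basis of the lattice. -/
theorem basisG {F : Type} [Field F] [NumberField F] {Δ : ℕ} {s : F} {σ : F →+* F}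
    (hQ : QG F Δ s σ) (c : ℕ) (hc : 0 < c) (Λ : Submodule ℤ F)
    (hO : ∀ r : F, IsIntegral ℤ r → ∀ x ∈ Λ, r * x ∈ Λ)
    (hint : ∀ x ∈ Λ, ∀ y ∈ Λ, IsIntegral ℤ (x * σ y / (c : F)))
    (hspan : (c : F) ∈ Submodule.span ℤ {z : F | ∃ x ∈ Λ, ∃ y ∈ Λ, z = x * σ y}) :
    ∃ α ∈ Λ, ∃ β ∈ Λ, α ≠ 0 ∧ β ≠ 0 ∧ α * σ β - σ α * β = (c : F) * s ∧
      ∃ A B C : ℤ, α * σ α = A ∧ α * σ β + σ α * β = B ∧ β * σ β = C ∧
        0 < A ∧ |B| ≤ A ∧ A ≤ C := by
  classical
  obtain ⟨h1, h2, h3, h4, ⟨ω, hω, hωs⟩, hs, hs0, h7⟩ := coordG hQ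
  have hcF : (c : F) ≠ 0 := by exact_mod_cast hc.ne'
  have hcs : (c : F) * s ≠ 0 := mul_ne_zero hcF hs0
  have hσ0 : ∀ x : F, x ≠ 0 → σ x ≠ 0 := fun x hx => (map_ne_zero σ).mpr hx
  -- the pairing
  have hn : ∀ x ∈ Λ, ∀ y ∈ Λ, ∃ n : ℤ, x * σ y - σ x * y = n * (c * s) := by
    intro x hx y hy
    obtain ⟨n, hn⟩ := h3 _ (hint x hx y hy)
    refine ⟨n, ?_⟩
    have e : σ (x * σ y / c) = σ x * y / c := by rw [map_div₀, map_mul, h2, map_natCast]
    rw [e] at hn
    have e2 : x * σ y - σ x * y = c * (x * σ y / c - σ x * y / c) := by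
      field_simp
    rw [e2, hn]
    ring
  have hN : ∀ x ∈ Λ, x ≠ 0 → ∃ m : ℕ, 0 < m ∧ x * σ x = m := by
    intro x hx hx0
    have e : σ (x * σ x / c) = x * σ x / c := by
      rw [map_div₀, map_mul, h2, map_natCast, mul_comm]
    obtain ⟨n, hn⟩ := h4 _ (hint x hx x hx) e
    obtain ⟨q, hq, hq2⟩ := h7 x hx0
    have e2 : x * σ x = ((c * n : ℤ) : F) := by
      push_cast
      rw [← hn]
      field_simp
    have e3 : ((c * n : ℤ) : ℚ) = q := by
      have : (((c * n : ℤ) : ℚ) : F) = (q : F) := by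
        rw [← hq2, e2]
        push_cast
        ring
      exact_mod_cast this
    have e4 : 0 < (c * n : ℤ) := by
      have : (0 : ℚ) < ((c * n : ℤ) : ℚ) := e3 ▸ hq
      exact_mod_cast this
    refine ⟨(c * n : ℤ).toNat, by omega, ?_⟩
    rw [e2]
    have e5 : (((c * n : ℤ).toNat : ℤ) : F) = ((c * n : ℤ) : F) := by
      rw [Int.toNat_of_nonneg e4.le]
    rw [← e5]
    push_cast
    rfl
  have hne : ∃ x ∈ Λ, x ≠ 0 := by
    by_contra hcon
    push Not at hcon
    have h5 : Submodule.span ℤ {z : F | ∃ x ∈ Λ, ∃ y ∈ Λ, z = x * σ y} ≤ ⊥ := by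
      rw [Submodule.span_le]
      rintro z ⟨x, hx, y, hy, rfl⟩
      rw [hcon x hx, zero_mul]
      exact Submodule.zero_mem _
    have h6 := h5 hspan
    exact hcF ((Submodule.mem_bot ℤ).mp h6)
  -- the vector of least norm
  have hex : ∃ n : ℕ, ∃ x ∈ Λ, x ≠ 0 ∧ x * σ x = (n : F) := by
    obtain ⟨x, hx, hx0⟩ := hne
    obtain ⟨m, _, hm⟩ := hN x hx hx0
    exact ⟨m, x, hx, hx0, hm⟩
  obtain ⟨α, hα, hα0, hA⟩ := Nat.find_spec hex
  set A := Nat.find hex with hAdef
  have hmin : ∀ y ∈ Λ, y ≠ 0 → ∀ m : ℕ, y * σ y = (m : F) → A ≤ m := by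
    intro y hy hy0 m hm
    exact Nat.find_min' hex ⟨y, hy, hy0, hm⟩
  have hApos : 0 < A := by
    obtain ⟨m, hm, hm2⟩ := hN α hα hα0
    have : (m : F) = (A : F) := by rw [← hm2, hA]
    have h5 : m = A := by exact_mod_cast this
    omega
  have hσα : σ α ≠ 0 := hσ0 α hα0
  -- the second vector
  let G : AddSubgroup ℤ :=
    { carrier := {n | ∃ y ∈ Λ, α * σ y - σ α * y = n * (c * s)}
      zero_mem' := ⟨0, Λ.zero_mem, by simp⟩
      add_mem' := by
        rintro a b ⟨x, hx, ex⟩ ⟨y, hy, ey⟩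
        refine ⟨x + y, Λ.add_mem hx hy, ?_⟩
        rw [map_add]
        push_cast
        linear_combination ex + ey
      neg_mem' := by
        rintro a ⟨x, hx, ex⟩
        refine ⟨-x, Λ.neg_mem hx, ?_⟩
        rw [map_neg]
        push_cast
        linear_combination -ex }
  obtain ⟨g, hg⟩ := Int.subgroup_cyclic G
  have hgG : g ∈ G := by
    rw [hg]
    exact AddSubgroup.mem_closure_singleton.mpr ⟨1, one_smul _ _⟩
  obtain ⟨β, hβ, hαβ⟩ := hgG
  have hmulG : ∀ y ∈ Λ, ∃ k : ℤ, α * σ y - σ α * y = (k * g : ℤ) * (c * s) := by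
    intro y hy
    obtain ⟨n, hn'⟩ := hn α hα y hy
    have h5 : n ∈ G := ⟨y, hy, hn'⟩
    rw [hg] at h5
    obtain ⟨k, hk⟩ := AddSubgroup.mem_closure_singleton.mp h5
    refine ⟨k, ?_⟩
    rw [hn', ← hk, smul_eq_mul]
  -- Λ = ℤ α + ℤ β
  have hgen : ∀ y ∈ Λ, ∃ a b : ℤ, y = a * α + b * β := by
    intro y hy
    obtain ⟨k, hk⟩ := hmulG y hy
    have hy' : y - k • β ∈ Λ := Λ.sub_mem hy (Λ.smul_mem k hβ)
    rw [zsmul_eq_mul] at hy'
    set y' := y - (k : F) * β with hy'def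
    have e1 : α * σ y' - σ α * y' = 0 := by
      rw [hy'def, map_sub, map_mul, map_intCast]
      push_cast at hk
      linear_combination hk - k * hαβ
    have e2 : σ (y' / α) = y' / α := by
      rw [map_div₀]
      field_simp
      linear_combination e1
    obtain ⟨x, r, hxr⟩ := h1 (y' / α)
    have hr : (r : F) * s = 0 := by
      have e3 := e2
      rw [hxr, map_add, map_mul, map_ratCast, map_ratCast, hQ.conj] at e3
      have : 2 * ((r : F) * s) = 0 := by linear_combination -e3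
      have h20 : (2 : F) ≠ 0 := two_ne_zero
      exact (mul_eq_zero.mp this).resolve_left h20
    have e4 : y' = (x : F) * α := by
      rw [hr, add_zero] at hxr
      rw [← hxr, div_mul_cancel₀ _ hα0]
    have hy2 : y' - (round x) • α ∈ Λ := Λ.sub_mem hy' (Λ.smul_mem _ hα)
    rw [zsmul_eq_mul] at hy2
    have e5 : y' - (round x : F) * α = ((x - round x : ℚ) : F) * α := by
      rw [e4]
      push_cast
      ring
    have e6 : y' - (round x : F) * α = 0 := by
      by_contra hcon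
      obtain ⟨m, hm, hm2⟩ := hN _ hy2 hcon
      have h6 := hmin _ hy2 hcon m hm2
      rw [e5, map_mul, map_ratCast] at hm2
      have e7 : (((x - round x : ℚ) ^ 2 * (A : ℚ) : ℚ) : F) = (((m : ℕ) : ℚ) : F) := by
        push_cast
        push_cast at hm2
        rw [← hA, ← hm2]
        ring
      have e8 : (x - round x : ℚ) ^ 2 * (A : ℚ) = (m : ℚ) := Rat.cast_injective e7
      have e9 : |x - round x| ≤ 1 / 2 := abs_sub_round x
      have e10 : (x - round x : ℚ) ^ 2 ≤ 1 / 4 := by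
        rw [← sq_abs]
        nlinarith [abs_nonneg (x - round x : ℚ)]
      have e11 : (A : ℚ) ≤ m := by exact_mod_cast h6
      have e12 : (0 : ℚ) < A := by exact_mod_cast hApos
      nlinarith
    refine ⟨round x, k, ?_⟩
    have e13 : y' = (round x : F) * α := by linear_combination e6
    rw [hy'def] at e13
    linear_combination e13
  -- the pairing is divisible by g
  have hdiv : ∀ x ∈ Λ, ∀ y ∈ Λ, ∃ k : ℤ, x * σ y - σ x * y = (k * g : ℤ) * (c * s) := by
    intro x hx y hy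
    obtain ⟨a, b, rfl⟩ := hgen x hx
    obtain ⟨a', b', rfl⟩ := hgen y hy
    refine ⟨a * b' - a' * b, ?_⟩
    simp only [map_add, map_mul, map_intCast]
    push_cast
    linear_combination (a * b' - a' * b : F) * hαβ
  have hspan2 : ∀ z ∈ Submodule.span ℤ {z : F | ∃ x ∈ Λ, ∃ y ∈ Λ, z = x * σ y},
      (∃ k : ℤ, z - σ z = (k * g : ℤ) * (c * s)) ∧
        ω * z ∈ Submodule.span ℤ {z : F | ∃ x ∈ Λ, ∃ y ∈ Λ, z = x * σ y} := by
    intro z hz
    induction hz using Submodule.span_induction with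
    | mem z hz =>
      obtain ⟨x, hx, y, hy, rfl⟩ := hz
      constructor
      · obtain ⟨k, hk⟩ := hdiv x hx y hy
        refine ⟨k, ?_⟩
        rw [map_mul, h2]
        exact hk
      · exact Submodule.subset_span ⟨ω * x, hO ω hω x hx, y, hy, by ring⟩
    | zero =>
      refine ⟨⟨0, by simp⟩, ?_⟩
      rw [mul_zero]
      exact Submodule.zero_mem _
    | add x y _ _ hx hy =>
      obtain ⟨⟨k, hk⟩, hx2⟩ := hx
      obtain ⟨⟨l, hl⟩, hy2⟩ := hy
      refine ⟨⟨k + l, ?_⟩, ?_⟩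
      · rw [map_add]
        push_cast
        push_cast at hk hl
        linear_combination hk + hl
      · rw [mul_add]
        exact Submodule.add_mem _ hx2 hy2
    | smul a x _ hx =>
      obtain ⟨⟨k, hk⟩, hx2⟩ := hx
      refine ⟨⟨a * k, ?_⟩, ?_⟩
      · rw [zsmul_eq_mul, map_mul, map_intCast]
        push_cast
        push_cast at hk
        linear_combination (a : F) * hk
      · have : ω * a • x = a • (ω * x) := by
          rw [zsmul_eq_mul, zsmul_eq_mul]; ring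
        rw [this]
        exact Submodule.smul_mem _ a hx2
  have hgunit : g = 1 ∨ g = -1 := by
    obtain ⟨⟨k, hk⟩, -⟩ := hspan2 _ (hspan2 _ hspan).2
    have e1 : ω * (c : F) - σ (ω * (c : F)) = c * s := by
      rw [map_mul, map_natCast, ← hωs]
      ring
    rw [e1] at hk
    have e2 : ((k * g : ℤ) : F) = 1 := by
      have h5 : (((k * g : ℤ) : F) - 1) * (c * s) = 0 := by linear_combination -hk
      have h6 := (mul_eq_zero.mp h5).resolve_right hcs
      linear_combination h6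
    have e3 : k * g = 1 := by exact_mod_cast e2
    exact Int.isUnit_iff.mp (IsUnit.of_mul_eq_one k (by rw [mul_comm]; exact e3))
  obtain ⟨β₁, hβ₁, hαβ₁⟩ : ∃ β₁ ∈ Λ, α * σ β₁ - σ α * β₁ = c * s := by
    rcases hgunit with rfl | rfl
    · refine ⟨β, hβ, ?_⟩
      rw [hαβ]; push_cast; ring
    · refine ⟨-β, Λ.neg_mem hβ, ?_⟩
      rw [map_neg]
      push_cast at hαβ
      linear_combination -hαβ
  have hBint : ∀ x ∈ Λ, ∀ y ∈ Λ, ∃ n : ℤ, x * σ y + σ x * y = n := by
    intro x hx y hy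
    have e : σ (x * σ y / c + y * σ x / c) = x * σ y / c + y * σ x / c := by
      rw [map_add, map_div₀, map_mul, h2, map_natCast, map_div₀, map_mul, h2, map_natCast]
      ring
    obtain ⟨n, hn'⟩ := h4 _ ((hint x hx y hy).add (hint y hy x hx)) e
    refine ⟨c * n, ?_⟩
    push_cast
    rw [← hn']
    field_simp
  obtain ⟨B₁, hB₁⟩ := hBint α hα β₁ hβ₁
  set X : ℚ := -(B₁ : ℚ) / (2 * A) with hX
  set k : ℤ := round X with hk
  have hβ₂ : β₁ + k • α ∈ Λ := Λ.add_mem hβ₁ (Λ.smul_mem _ hα)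
  rw [zsmul_eq_mul] at hβ₂
  have hαβ₂ : α * σ (β₁ + (k : F) * α) - σ α * (β₁ + (k : F) * α) = c * s := by
    rw [map_add, map_mul, map_intCast]
    linear_combination hαβ₁
  have hβ₂0 : β₁ + (k : F) * α ≠ 0 := by
    intro h0
    rw [h0, map_zero, mul_zero, mul_zero, sub_zero] at hαβ₂
    exact hcs hαβ₂.symm
  obtain ⟨C, hC, hC2⟩ := hN _ hβ₂ hβ₂0
  refine ⟨α, hα, _, hβ₂, hα0, hβ₂0, hαβ₂, A, B₁ + 2 * k * A, C, ?_, ?_, ?_, ?_, ?_, ?_⟩
  · rw [hA]; push_cast; rfl
  · rw [map_add, map_mul, map_intCast]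
    push_cast
    rw [← hB₁, ← hA]
    ring
  · rw [hC2]; push_cast; rfl
  · exact_mod_cast hApos
  · have e1 : |X - k| ≤ 1 / 2 := abs_sub_round X
    have e2 : (0 : ℚ) < A := by exact_mod_cast hApos
    have e3 : (B₁ : ℚ) = -(2 * A * X) := by
      rw [hX]
      field_simp
      try ring
    have e4 : |(B₁ : ℚ) + 2 * k * A| ≤ A := by
      have : (B₁ : ℚ) + 2 * k * A = -(2 * A * (X - k)) := by rw [e3]; ring
      rw [this, abs_neg, abs_mul, abs_of_pos (by linarith : (0 : ℚ) < 2 * A)]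
      nlinarith
    exact_mod_cast e4
  · have := hmin _ hβ₂ hβ₂0 C hC2
    exact_mod_cast this

/-- The form of a basis. -/
theorem formG {F : Type} [Field F] [NumberField F] {Δ : ℕ} {s : F} {σ : F →+* F}
    (hQ : QG F Δ s σ) (w : F) (c : ℕ) (α β : F) (A B C : ℤ) (hc0 : c ≠ 0)
    (hw : w * σ w = 1) (hcube : ¬ ∃ b : F, b ^ 3 = w)
    (hd : α * σ β - σ α * β = (c : F) * s) (hA : α * σ α = A)
    (hB : α * σ β + σ α * β = B) (hC : β * σ β = C) (hA0 : 0 < A) (hBA : |B| ≤ A) (hAC : A ≤ C)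
    (i0 : IsIntegral ℤ (α ^ 3 / ((c : F) * w))) (i1 : IsIntegral ℤ (α ^ 2 * β / ((c : F) * w)))
    (i2 : IsIntegral ℤ (α * β ^ 2 / ((c : F) * w))) (i3 : IsIntegral ℤ (β ^ 3 / ((c : F) * w))) :
    ∃ v : Fin 4 → ℤ, Red v ∧ v 3 ≠ 0 ∧ HD v = (c : ℤ) ^ 2 * Δ ∧
      (v 0 : F) * s = α ^ 3 / ((c : F) * w) - σ (α ^ 3 / ((c : F) * w)) ∧
      (v 1 : F) * s = α ^ 2 * β / ((c : F) * w) - σ (α ^ 2 * β / ((c : F) * w)) ∧
      (v 2 : F) * s = α * β ^ 2 / ((c : F) * w) - σ (α * β ^ 2 / ((c : F) * w)) ∧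
      (v 3 : F) * s = β ^ 3 / ((c : F) * w) - σ (β ^ 3 / ((c : F) * w)) := by
  obtain ⟨_, _, hint, hfix, _, _, hs0, _⟩ := coordG hQ
  have hcF : (c : F) ≠ 0 := Nat.cast_ne_zero.mpr hc0
  have hw0 : w ≠ 0 := fun h => by simp [h] at hw
  have hw1 : σ w ≠ 0 := fun h => by simp [h] at hw
  obtain ⟨v0, h0⟩ := hint _ i0
  obtain ⟨v1, h1⟩ := hint _ i1
  obtain ⟨v2, h2⟩ := hint _ i2
  obtain ⟨v3, h3⟩ := hint _ i3
  have hp : ∀ x : F, σ (x / ((c : F) * w)) = σ x * ((c : F) * σ w)⁻¹ := by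
    intro x
    rw [map_div₀, map_mul, map_natCast, div_eq_mul_inv]
  have hpp : ((c : F) * w)⁻¹ * ((c : F) * σ w)⁻¹ * (c : F) ^ 2 = 1 := by
    have : (c : F) * w * ((c : F) * σ w) = (c : F) ^ 2 := by
      calc (c : F) * w * ((c : F) * σ w) = (c : F) ^ 2 * (w * σ w) := by ring
        _ = (c : F) ^ 2 := by rw [hw, mul_one]
    rw [← mul_inv, this]
    exact inv_mul_cancel₀ (pow_ne_zero 2 hcF)
  obtain ⟨e1, e2, e3⟩ := form_hess s ((c : F) * w)⁻¹ ((c : F) * σ w)⁻¹ α (σ α) β (σ β) (c : F)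
    (v0 : F) v1 v2 v3 hs0 hpp hd
    (by rw [← h0, hp, div_eq_mul_inv, map_pow]) (by rw [← h1, hp, div_eq_mul_inv, map_mul, map_pow])
    (by rw [← h2, hp, div_eq_mul_inv, map_mul, map_pow]) (by rw [← h3, hp, div_eq_mul_inv, map_pow])
  rw [hA] at e1
  rw [hB] at e2
  rw [hC] at e3
  have f1 : v1 ^ 2 - v0 * v2 = A := by exact_mod_cast e1
  have f2 : v1 * v2 - v0 * v3 = B := by exact_mod_cast e2
  have f3 : v2 ^ 2 - v1 * v3 = C := by exact_mod_cast e3
  have hHA : HA ![v0, v1, v2, v3] = A := by simpa [HA] using f1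
  have hHB : HB ![v0, v1, v2, v3] = B := by simpa [HB] using f2
  have hHC : HC ![v0, v1, v2, v3] = C := by simpa [HC] using f3
  have hC0 : 0 < C := lt_of_lt_of_le hA0 hAC
  have hv0 : v0 ≠ 0 := by
    intro hv
    rw [hv, Int.cast_zero, zero_mul, sub_eq_zero] at h0
    obtain ⟨n, hn⟩ := hfix _ i0 h0.symm
    exact hcube (form_cube σ w α c A n hc0 hw hA hA0 hn (h0 ▸ hn))
  have hv3 : v3 ≠ 0 := by
    intro hv
    rw [hv, Int.cast_zero, zero_mul, sub_eq_zero] at h3
    obtain ⟨n, hn⟩ := hfix _ i3 h3.symm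
    exact hcube (form_cube σ w β c C n hc0 hw hC hC0 hn (h3 ▸ hn))
  have hdisc : 4 * A * C - B ^ 2 = (c : ℤ) ^ 2 * Δ := by
    have : ((4 * A * C - B ^ 2 : ℤ) : F) = (((c : ℤ) ^ 2 * Δ : ℤ) : F) := by
      push_cast
      rw [← hA, ← hB, ← hC]
      calc 4 * (α * σ α) * (β * σ β) - (α * σ β + σ α * β) ^ 2
          = -(α * σ β - σ α * β) ^ 2 := by ring
        _ = (c : F) ^ 2 * Δ := by rw [hd, mul_pow, hQ.s2]; ring
    exact_mod_cast this
  refine ⟨![v0, v1, v2, v3], ⟨?_, ?_, ?_, ?_⟩, ?_, ?_, ?_, ?_, ?_, ?_⟩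
  · rw [hHA]; exact hA0
  · rw [hHA, hHB]; exact hBA
  · rw [hHA, hHC]; exact hAC
  · simpa using hv0
  · simpa using hv3
  · rw [HD, hHA, hHB, hHC]; exact hdisc
  · simpa using h0.symm
  · simpa using h1.symm
  · simpa using h2.symm
  · simpa using h3.symm

end BKDH
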